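import Pool.Agent.Lib.MP_7f333f_an.Siz.Api

set_option autoImplicit false
set_option linter.unusedSectionVars false

/-!
Counting large coordinates; sums of flat blocks.
-/

namespace Pool.Agent.Comb7f333f.SPart

open Filter Topology

variable {sf : Siz}

/-- A bound for the number of the coordinates `≥ h` in absolute value. -/
noncomputable def lb (sf : Siz) (x : ℝ) : ℕ := ⌊x⌋₊ + 1 + Nat.find (sf.unb (⌊x⌋₊ + 1))

theorem lb_pos (sf : Siz) (x : ℝ) : 0 < lb sf x := by
  unfold lb
  omega

theorem card_large_le {a : ℕ → ℝ} {B h : ℝ} (ha : SB sf a B) (hh : 0 < h) (K : Finset ℕ)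
    (hK : ∀ m ∈ K, h ≤ |a m|) : K.card ≤ lb sf (B / h) := by
  classical
  set n := ⌊B / h⌋₊ + 1 with hn
  have hnB : B < n * h := by
    have h1 : B / h < n := by
      rw [hn]
      push_cast
      exact Nat.lt_floor_add_one _
    rwa [div_lt_iff₀ hh] at h1
  set k0 := Nat.find (sf.unb n) with hk0
  have hk : n ≤ sf.f k0 := Nat.find_spec (sf.unb n)
  have hlb : lb sf (B / h) = n + k0 := rfl
  have h1 : (K.filter fun m => k0 ≤ m).card < n := by
    by_contra hcon
    rw [not_lt] at hcon
    obtain ⟨F, hF, hFc⟩ := Finset.exists_subset_card_eq hcon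
    have hFs : F ∈ (sz sf) := by
      intro k hk'
      have := (Finset.mem_filter.mp (hF hk')).2
      rw [hFc]
      exact hk.trans (sf.mono this)
    have h2 := ha F hFs
    have h3 : (n : ℝ) * h ≤ ∑ k ∈ F, |a k| := by
      have h4 : ∑ _k ∈ F, h ≤ ∑ k ∈ F, |a k| :=
        Finset.sum_le_sum fun k hk => hK k (Finset.mem_filter.mp (hF hk)).1
      rwa [Finset.sum_const, hFc, nsmul_eq_mul] at h4
    linarith
  have h2 : (K.filter fun m => ¬ k0 ≤ m).card ≤ k0 := by
    have h3 : (K.filter fun m => ¬ k0 ≤ m) ⊆ Finset.range k0 := by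
      intro m hm
      rw [Finset.mem_filter] at hm
      rw [Finset.mem_range]
      omega
    have := Finset.card_le_card h3
    rwa [Finset.card_range] at this
  have h3 := Finset.card_filter_add_card_filter_not (s := K) (fun m => k0 ≤ m)
  omega

theorem SB_blocks (L : ℕ) (y : ℕ → ℕ → ℝ) (Z : ℕ → ℕ) (hZ : Monotone Z)
    (hy : ∀ t < L, SB sf (y t) 1) (hsupp : ∀ t < L, ∀ s, y t s ≠ 0 → Z t ≤ s ∧ s < Z (t + 1))
    (hflat : ∀ t < L, ∀ s, (sf.f (Z t) : ℝ) * |y t s| ≤ 1 / 2 ^ t) :
    SB sf (fun s => ∑ t ∈ Finset.range L, y t s) 3 := by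
  classical
  intro F hF
  rcases F.eq_empty_or_nonempty with rfl | hne
  · simp
  set m := F.min' hne with hm
  have hmF : m ∈ F := F.min'_mem hne
  have hcard : F.card ≤ sf.f m := hF m hmF
  have hcpos : (0 : ℝ) < F.card := by exact_mod_cast hne.card_pos
  have hmin : ∀ s ∈ F, m ≤ s := fun s hs => F.min'_le s hs
  have hkey : ∀ t ∈ Finset.range L, ∑ s ∈ F, |y t s| ≤
      (1 / 2) ^ t + (if Z t ≤ m ∧ m < Z (t + 1) then (1 : ℝ) else 0) := by
    intro t ht
    rw [Finset.mem_range] at ht
    have hp : (0 : ℝ) ≤ (1 / 2) ^ t := by positivity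
    by_cases h1 : Z (t + 1) ≤ m
    · have h2 : ∑ s ∈ F, |y t s| = 0 := by
        refine Finset.sum_eq_zero fun s hs => ?_
        by_contra hne0
        have h3 := (hsupp t ht s (fun h => hne0 (by rw [h, abs_zero]))).2
        have h4 := hmin s hs
        omega
      rw [h2]
      split_ifs
      · linarith
      · linarith
    · rw [not_le] at h1
      by_cases h2 : Z t ≤ m
      · rw [if_pos ⟨h2, h1⟩]
        have := hy t ht F hF
        linarith
      · rw [if_neg (fun h => h2 h.1), add_zero]
        rw [not_le] at h2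
        have h3 : (F.card : ℝ) ≤ sf.f (Z t) := by exact_mod_cast hcard.trans (sf.mono h2.le)
        have h4 : (F.card : ℝ) * ∑ s ∈ F, |y t s| ≤ F.card * (1 / 2) ^ t := by
          rw [Finset.mul_sum]
          calc ∑ s ∈ F, (F.card : ℝ) * |y t s| ≤ ∑ _s ∈ F, ((1 / 2) ^ t : ℝ) := by
                refine Finset.sum_le_sum fun s _ => ?_
                refine (mul_le_mul_of_nonneg_right h3 (abs_nonneg _)).trans ?_
                refine (hflat t ht s).trans (le_of_eq ?_)
                rw [one_div_pow]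
            _ = F.card * (1 / 2) ^ t := by rw [Finset.sum_const, nsmul_eq_mul]
        exact le_of_mul_le_mul_left h4 hcpos
  calc ∑ s ∈ F, |∑ t ∈ Finset.range L, y t s|
      ≤ ∑ s ∈ F, ∑ t ∈ Finset.range L, |y t s| :=
        Finset.sum_le_sum fun s _ => Finset.abs_sum_le_sum_abs _ _
    _ = ∑ t ∈ Finset.range L, ∑ s ∈ F, |y t s| := Finset.sum_comm
    _ ≤ ∑ t ∈ Finset.range L,
        ((1 / 2) ^ t + (if Z t ≤ m ∧ m < Z (t + 1) then (1 : ℝ) else 0)) :=
        Finset.sum_le_sum hkey
    _ ≤ 2 + 1 := by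
        rw [Finset.sum_add_distrib]
        refine add_le_add ?_ ?_
        · have h1 : Summable fun t : ℕ => ((1 / 2 : ℝ)) ^ t := summable_geometric_two
          have h2 := h1.sum_le_tsum (Finset.range L) (fun t _ => by positivity)
          rwa [tsum_geometric_two] at h2
        · rw [← Finset.sum_filter, Finset.sum_const, nsmul_eq_mul, mul_one]
          have h1 : ((Finset.range L).filter fun t => Z t ≤ m ∧ m < Z (t + 1)).card ≤ 1 := by
            rw [Finset.card_le_one]
            intro t ht t' ht'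
            rw [Finset.mem_filter] at ht ht'
            by_contra hne'
            rcases lt_or_gt_of_ne hne' with h | h
            · have := hZ (show t + 1 ≤ t' from h)
              omega
            · have := hZ (show t' + 1 ≤ t from h)
              omega
          exact_mod_cast h1
    _ = 3 := by norm_num

end Pool.Agent.Comb7f333f.SPart
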