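import Pool.Agent.Lib.MP_7f333f_an.Siz.Api

set_option autoImplicit false
set_option linter.unusedSectionVars false

/-!
Sums of the coordinates of `T n x` over sets with boundedly many elements.
-/

namespace Pool.Agent.Comb7f333f.SPart

open Filter Topology

variable {sf : Siz}

section Space

variable {X : Type*} [NormedAddCommGroup X] [NormedSpace ℝ X] {e : ℕ → X}

variable (hX : IsCombSpace (sz sf) e)

include hX

/-- B5a -/
theorem sm_upper (C : ℝ) (hC : 1 ≤ C) (T : ℕ → X →L[ℝ] X) (hT : ∀ n x, ‖T n x‖ ≤ C * ‖x‖)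
    (hnull : ∀ x k, Tendsto (fun n => co e (T n x) k) atTop (𝓝 0)) (x : X) (k : ℕ) (δ : ℝ)
    (hδ : 0 < δ) : ∀ᶠ n in (hyperfilter ℕ : Filter ℕ), ∀ D : Finset ℕ, D.card ≤ k →
      ∑ s ∈ D, |co e (T n x) s| ≤ C * ‖x‖ + δ := by
  classical
  obtain ⟨k0, hk0⟩ := sf.unb k
  have h1 : Tendsto (fun n => ∑ s ∈ Finset.range k0, |co e (T n x) s|) atTop (𝓝 0) := by
    have h2 : Tendsto (fun n => ∑ s ∈ Finset.range k0, |co e (T n x) s|) atTop
        (𝓝 (∑ s ∈ Finset.range k0, |(0 : ℝ)|)) :=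
      tendsto_finsetSum _ fun s _ => (hnull x s).abs
    simpa using h2
  have h2 : ∀ᶠ n in atTop, ∑ s ∈ Finset.range k0, |co e (T n x) s| < δ :=
    h1.eventually_lt_const hδ
  have h3 : ∀ᶠ n in (hyperfilter ℕ : Filter ℕ), ∑ s ∈ Finset.range k0, |co e (T n x) s| < δ := by
    have h4 : (hyperfilter ℕ : Filter ℕ) ≤ atTop := by
      rw [← Nat.cofinite_eq_atTop]
      exact hyperfilter_le_cofinite
    exact h2.filter_mono h4
  filter_upwards [h3] with n hn D hD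
  rw [← Finset.sum_filter_add_sum_filter_not D (fun s => s < k0)]
  have h5 : ∑ s ∈ D.filter (fun s => s < k0), |co e (T n x) s| ≤
      ∑ s ∈ Finset.range k0, |co e (T n x) s| :=
    Finset.sum_le_sum_of_subset_of_nonneg (fun s hs => by
      rw [Finset.mem_filter] at hs
      exact Finset.mem_range.mpr hs.2) fun _ _ _ => abs_nonneg _
  have h6 : D.filter (fun s => ¬ s < k0) ∈ (sz sf) := by
    intro s hs
    rw [Finset.mem_filter] at hs
    have h7 := Finset.card_filter_le D (fun s => ¬ s < k0)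
    exact (h7.trans hD).trans (hk0.trans (sf.mono (not_lt.mp hs.2)))
  have h7 := (SB_co hX (T n x) _ h6).trans (hT n x)
  linarith

/-- B5a: a near-maximal choice of sets -/
theorem sm_near (C : ℝ) (hC : 1 ≤ C) (T : ℕ → X →L[ℝ] X) (hT : ∀ n x, ‖T n x‖ ≤ C * ‖x‖)
    (hnull : ∀ x k, Tendsto (fun n => co e (T n x) k) atTop (𝓝 0)) (ε τ : ℝ) (hε : 0 < ε)
    (hτ : 0 < τ) (x : X) (hx : ¬ Sm e T ε x) :
    ∃ (k : ℕ) (D : ℕ → Finset ℕ), (∀ n, (D n).card ≤ k) ∧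
      (∀ᶠ n in (hyperfilter ℕ : Filter ℕ), ε ≤ ∑ s ∈ D n, |co e (T n x) s|) ∧
      ∀ k' : ℕ, ∀ᶠ n in (hyperfilter ℕ : Filter ℕ), ∀ D' : Finset ℕ, D'.card ≤ k' →
        Disjoint D' (D n) → ∑ s ∈ D', |co e (T n x) s| ≤ τ := by
  classical
  set Q : ℝ → Prop := fun c => ∃ k : ℕ, ∀ᶠ n in (hyperfilter ℕ : Filter ℕ),
    ∃ D : Finset ℕ, D.card ≤ k ∧ c ≤ ∑ s ∈ D, |co e (T n x) s| with hQ
  have hQε : Q ε := by
    rw [Sm] at hx
    push Not at hx
    obtain ⟨k, hk⟩ := hx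
    refine ⟨k, ?_⟩
    filter_upwards [hk] with n hn
    obtain ⟨D, hD, hD'⟩ := hn
    exact ⟨D, hD, hD'.le⟩
  have hQbig : ∀ c, C * ‖x‖ + 1 < c → ¬ Q c := by
    rintro c hc ⟨k, hk⟩
    obtain ⟨n, hn1, D, hD, hD'⟩ := ((sm_upper hX C hC T hT hnull x k 1 one_pos).and hk).exists
    have := hn1 D hD
    linarith
  have hex : ∃ j : ℕ, ¬ Q (ε + j * τ) := by
    obtain ⟨j, hj⟩ := exists_nat_gt ((C * ‖x‖ + 1) / τ)
    rw [div_lt_iff₀ hτ] at hj
    exact ⟨j, hQbig _ (by linarith)⟩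
  set j := Nat.find hex with hj
  have hj1 : ¬ Q (ε + j * τ) := Nat.find_spec hex
  have hj0 : j ≠ 0 := by
    intro h0
    rw [h0] at hj1
    apply hj1
    simpa using hQε
  obtain ⟨i, hi⟩ := Nat.exists_eq_succ_of_ne_zero hj0
  have hi1 : Q (ε + i * τ) := by
    have := Nat.find_min hex (m := i) (by rw [← hj, hi]; exact Nat.lt_succ_self i)
    exact not_not.mp this
  rw [hi] at hj1
  obtain ⟨k, hk⟩ := hi1
  choose! D0 hD0 using fun (n : ℕ) (hn : ∃ D : Finset ℕ, D.card ≤ k ∧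
    ε + i * τ ≤ ∑ s ∈ D, |co e (T n x) s|) => hn
  set D : ℕ → Finset ℕ := fun n => if (∃ D : Finset ℕ, D.card ≤ k ∧
    ε + i * τ ≤ ∑ s ∈ D, |co e (T n x) s|) then D0 n else ∅ with hD
  have hDn : ∀ n, (∃ D : Finset ℕ, D.card ≤ k ∧ ε + i * τ ≤ ∑ s ∈ D, |co e (T n x) s|) →
      D n = D0 n := fun n hn => if_pos hn
  have hcard : ∀ n, (D n).card ≤ k := by
    intro n
    by_cases hn : ∃ D : Finset ℕ, D.card ≤ k ∧ ε + i * τ ≤ ∑ s ∈ D, |co e (T n x) s|
    · rw [hDn n hn]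
      exact (hD0 n hn).1
    · rw [hD]
      simp only [if_neg hn, Finset.card_empty, Nat.zero_le]
  have hiτ : (0 : ℝ) ≤ i * τ := by positivity
  refine ⟨k, D, hcard, ?_, fun k' => ?_⟩
  · filter_upwards [hk] with n hn
    rw [hDn n hn]
    have := (hD0 n hn).2
    linarith
  · by_contra hcon
    rw [← Ultrafilter.eventually_not] at hcon
    apply hj1
    refine ⟨k + k', ?_⟩
    filter_upwards [hcon, hk] with n hn1 hn2
    push Not at hn1
    obtain ⟨D', hD'1, hD'2, hD'3⟩ := hn1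
    refine ⟨D n ∪ D', (Finset.card_union_le _ _).trans (add_le_add (hcard n) hD'1), ?_⟩
    rw [Finset.sum_union hD'2.symm, hDn n hn2]
    have := (hD0 n hn2).2
    push_cast
    linarith

end Space

end Pool.Agent.Comb7f333f.SPart
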