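import Pool.Agent.Lib.MP_7f333f_an.Siz.B5a

set_option autoImplicit false
set_option linter.unusedSectionVars false

/-!
Successive finitely supported vectors with large sums.
-/

namespace Pool.Agent.Comb7f333f.SPart

open Filter Topology

variable {sf : Siz}

section Space

variable {X : Type*} [NormedAddCommGroup X] [NormedSpace ℝ X] {e : ℕ → X}

variable (hX : IsCombSpace (sz sf) e)

include hX

theorem b5b_perturb (C : ℝ) (hC : 1 ≤ C) (T : ℕ → X →L[ℝ] X) (hT : ∀ n x, ‖T n x‖ ≤ C * ‖x‖)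
    (hnull : ∀ x k, Tendsto (fun n => co e (T n x) k) atTop (𝓝 0)) (ε : ℝ) (hε : 0 < ε)
    (x x' : X) (hxx : ‖x - x'‖ ≤ ε / (4 * (C + 1))) (hx' : Sm e T (ε / 2) x') : Sm e T ε x := by
  intro k
  filter_upwards [hx' k, sm_upper hX C hC T hT hnull (x - x') k (ε / 4) (by positivity)] with
    n h1 h2 D hD
  have h3 := h1 D hD
  have h4 := h2 D hD
  have h5 : ∑ s ∈ D, |co e (T n x) s| ≤ ∑ s ∈ D, |co e (T n x') s| +
      ∑ s ∈ D, |co e (T n (x - x')) s| := by
    rw [← Finset.sum_add_distrib]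
    refine Finset.sum_le_sum fun s _ => ?_
    rw [map_sub, co_sub]
    have := abs_add_le (co e (T n x') s) (co e (T n x) s - co e (T n x') s)
    rwa [add_sub_cancel] at this
  have h6 : C * ‖x - x'‖ ≤ ε / 4 := by
    have h7 : C * ‖x - x'‖ ≤ C * (ε / (4 * (C + 1))) :=
      mul_le_mul_of_nonneg_left hxx (by linarith)
    have h8 : C * (ε / (4 * (C + 1))) ≤ ε / 4 := by
      rw [mul_div_assoc', div_le_div_iff₀ (by positivity) (by norm_num)]
      nlinarith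
    linarith
  linarith

/-- B5b: blocks -/
theorem exists_blocks (C : ℝ) (hC : 1 ≤ C) (T : ℕ → X →L[ℝ] X) (hT : ∀ n x, ‖T n x‖ ≤ C * ‖x‖)
    (hnull : ∀ x k, Tendsto (fun n => co e (T n x) k) atTop (𝓝 0)) (ε : ℝ) (hε : 0 < ε)
    (hcon : ∀ K : ℕ, ∃ x : X, ‖x‖ ≤ 1 ∧ (∀ k < K, co e x k = 0) ∧ ¬ Sm e T ε x) :
    ∃ (x : ℕ → X) (z : ℕ → ℕ), StrictMono z ∧ (∀ a, ‖x a‖ ≤ 1) ∧
      (∀ a s, co e (x a) s ≠ 0 → z a ≤ s ∧ s < z (a + 1)) ∧ ∀ a, ¬ Sm e T (ε / 2) (x a) := by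
  choose y hy1 hy2 hy3 using hcon
  choose Z0 hZ0 using fun K : ℕ => exists_tr hX (y K) (ε / (4 * (C + 1))) (by positivity)
  let z : ℕ → ℕ := fun a => Nat.rec 0 (fun _ K => max (K + 1) (Z0 K)) a
  have hz : ∀ a, z (a + 1) = max (z a + 1) (Z0 (z a)) := fun a => rfl
  clear_value z
  refine ⟨fun a => vec e (Finset.range (z (a + 1))) (co e (y (z a))), z,
    strictMono_nat_of_lt_succ fun a => ?_, fun a => ?_, fun a s hs => ?_, fun a h1 => ?_⟩
  · rw [hz]
    exact lt_of_lt_of_le (Nat.lt_succ_self _) (le_max_left _ _)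
  · exact (norm_tr_le hX _ _).trans (hy1 _)
  · rw [co_vec hX] at hs
    by_cases h2 : s ∈ Finset.range (z (a + 1))
    · refine ⟨?_, Finset.mem_range.mp h2⟩
      rw [if_pos h2] at hs
      by_contra h3
      exact hs (hy2 _ s (by omega))
    · rw [if_neg h2] at hs
      exact absurd rfl hs
  · refine hy3 (z a) (b5b_perturb hX C hC T hT hnull ε hε _ _ (hZ0 _ _ fun k hk => ?_) h1)
    rw [Finset.mem_range, hz]
    exact lt_of_lt_of_le hk (le_max_right _ _)

end Space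

end Pool.Agent.Comb7f333f.SPart
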