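import Pool.Agent.Lib.MP_7f333f_an.Siz.Api
import Pool.Agent.Lib.MP_7f333f_an.Siz.B5a

set_option autoImplicit false
set_option linter.unusedSectionVars false

/-!
There are no successive blocks which are not small.
-/

namespace Pool.Agent.Comb7f333f.SPart

open Filter Topology

variable {sf : Siz}

theorem b5c_sum_biUnion_le (I : Finset ℕ) (D : ℕ → Finset ℕ) (g : ℕ → ℝ) (hg : ∀ s, 0 ≤ g s) :
    ∑ s ∈ I.biUnion D, g s ≤ ∑ i ∈ I, ∑ s ∈ D i, g s := by
  classical
  induction I using Finset.induction_on with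
  | empty => simp
  | insert i I hi ih =>
    rw [Finset.biUnion_insert, Finset.sum_insert hi]
    have h1 : ∑ s ∈ D i ∪ I.biUnion D, g s ≤ ∑ s ∈ D i, g s + ∑ s ∈ I.biUnion D, g s := by
      rw [← Finset.sum_union_inter]
      exact le_add_of_nonneg_right (Finset.sum_nonneg fun s _ => hg s)
    linarith

/-- A lower bound for the sum of a combination of functions which are almost disjoint. -/
theorem b5c_lower (J : Finset ℕ) (c : ℕ → ℝ) (hc : ∀ j ∈ J, 0 ≤ c j) (hc1 : ∑ j ∈ J, c j = 1)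
    (u : ℕ → ℕ → ℝ) (D : ℕ → Finset ℕ) (ε τ : ℝ)
    (h1 : ∀ j ∈ J, ε ≤ ∑ s ∈ D j, |u j s|)
    (h2 : ∀ j ∈ J, ∑ i ∈ J.filter (· < j), ∑ s ∈ D i, |u j s| ≤ τ)
    (h3 : ∀ j ∈ J, ∑ s ∈ (J.biUnion D) \ D j, |u j s| ≤ τ) :
    ε - 3 * τ ≤ ∑ s ∈ J.biUnion D, |∑ j ∈ J, c j * u j s| := by
  classical
  set U := J.biUnion D with hU
  set D' : ℕ → Finset ℕ := fun j => D j \ (J.filter (· < j)).biUnion D with hD'
  have hsub : ∀ j ∈ J, D' j ⊆ U := fun j hj s hs =>
    Finset.mem_biUnion.2 ⟨j, hj, (Finset.mem_sdiff.1 hs).1⟩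
  have hdisj : ∀ i ∈ J, ∀ j ∈ J, i < j → ∀ s, s ∈ D' i → s ∈ D' j → False := by
    intro i hi j hj hij s hsi hsj
    refine (Finset.mem_sdiff.1 hsj).2 (Finset.mem_biUnion.2 ⟨i, ?_, (Finset.mem_sdiff.1 hsi).1⟩)
    exact Finset.mem_filter.2 ⟨hi, hij⟩
  -- the pointwise bound
  have hpt : ∀ s, ∑ j ∈ J, c j * ((if s ∈ D' j then 2 * |u j s| else 0) - |u j s|) ≤
      |∑ j ∈ J, c j * u j s| := by
    intro s
    by_cases hs : ∃ j ∈ J, s ∈ D' j
    · obtain ⟨j0, hj0, hs0⟩ := hs
      have hne : ∀ j ∈ J, j ≠ j0 → s ∉ D' j := by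
        intro j hj hjne hsj
        rcases lt_or_gt_of_ne hjne with hlt | hgt
        · exact hdisj j hj j0 hj0 hlt s hsj hs0
        · exact hdisj j0 hj0 j hj hgt s hs0 hsj
      rw [← Finset.add_sum_erase _ _ hj0, ← Finset.add_sum_erase J (fun j => c j * u j s) hj0]
      have h4 : ∑ j ∈ J.erase j0, c j * ((if s ∈ D' j then 2 * |u j s| else 0) - |u j s|) =
          - ∑ j ∈ J.erase j0, c j * |u j s| := by
        rw [← Finset.sum_neg_distrib]
        refine Finset.sum_congr rfl fun j hj => ?_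
        rw [if_neg (hne j (Finset.mem_of_mem_erase hj) (Finset.ne_of_mem_erase hj))]
        ring
      rw [h4, if_pos hs0]
      have h5 : |∑ j ∈ J.erase j0, c j * u j s| ≤ ∑ j ∈ J.erase j0, c j * |u j s| := by
        refine (Finset.abs_sum_le_sum_abs _ _).trans (Finset.sum_le_sum fun j hj => ?_)
        rw [abs_mul, abs_of_nonneg (hc j (Finset.mem_of_mem_erase hj))]
      have h6 : |c j0 * u j0 s| = c j0 * |u j0 s| := by
        rw [abs_mul, abs_of_nonneg (hc j0 hj0)]
      have h7 := abs_sub_abs_le_abs_sub (c j0 * u j0 s) (-∑ j ∈ J.erase j0, c j * u j s)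
      rw [abs_neg, sub_neg_eq_add] at h7
      nlinarith
    · push Not at hs
      refine le_trans ?_ (abs_nonneg _)
      refine Finset.sum_nonpos fun j hj => ?_
      rw [if_neg (hs j hj)]
      have := mul_nonneg (hc j hj) (abs_nonneg (u j s))
      linarith
  refine le_trans ?_ (Finset.sum_le_sum fun s _ => hpt s)
  rw [Finset.sum_comm]
  have hrow : ∀ j ∈ J, ε - 3 * τ ≤
      ∑ s ∈ U, ((if s ∈ D' j then 2 * |u j s| else 0) - |u j s|) := by
    intro j hj
    rw [Finset.sum_sub_distrib, ← Finset.sum_filter]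
    have h4 : U.filter (fun s => s ∈ D' j) = D' j := by
      ext s
      simp only [Finset.mem_filter]
      exact ⟨fun h => h.2, fun h => ⟨hsub j hj h, h⟩⟩
    rw [h4, ← Finset.mul_sum]
    -- the part of `D j` removed
    have h5 : ∑ s ∈ D j, |u j s| ≤ ∑ s ∈ D' j, |u j s| + τ := by
      have h6 : ∑ s ∈ D j, |u j s| ≤ ∑ s ∈ D' j ∪ (J.filter (· < j)).biUnion D, |u j s| := by
        refine Finset.sum_le_sum_of_subset_of_nonneg ?_ fun s _ _ => abs_nonneg _
        intro s hs
        by_cases h : s ∈ (J.filter (· < j)).biUnion D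
        · exact Finset.mem_union_right _ h
        · exact Finset.mem_union_left _ (Finset.mem_sdiff.2 ⟨hs, h⟩)
      have h7 : ∑ s ∈ D' j ∪ (J.filter (· < j)).biUnion D, |u j s| ≤
          ∑ s ∈ D' j, |u j s| + ∑ s ∈ (J.filter (· < j)).biUnion D, |u j s| := by
        rw [← Finset.sum_union_inter]
        exact le_add_of_nonneg_right (Finset.sum_nonneg fun s _ => abs_nonneg _)
      have h8 : ∑ s ∈ (J.filter (· < j)).biUnion D, |u j s| ≤
          ∑ i ∈ J.filter (· < j), ∑ s ∈ D i, |u j s| :=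
        b5c_sum_biUnion_le _ _ _ fun s => abs_nonneg _
      linarith [h2 j hj]
    -- the sum over the union
    have h9 : ∑ s ∈ U, |u j s| ≤ ∑ s ∈ D j, |u j s| + ∑ s ∈ U \ D j, |u j s| := by
      have : ∑ s ∈ U, |u j s| ≤ ∑ s ∈ D j ∪ (U \ D j), |u j s| :=
        Finset.sum_le_sum_of_subset_of_nonneg (fun s hs => by
          by_cases h : s ∈ D j
          · exact Finset.mem_union_left _ h
          · exact Finset.mem_union_right _ (Finset.mem_sdiff.2 ⟨hs, h⟩)) fun s _ _ => abs_nonneg _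
      rwa [Finset.sum_union Finset.disjoint_sdiff] at this
    have h10 := h1 j hj
    have h11 := h3 j hj
    linarith
  calc ε - 3 * τ = ∑ j ∈ J, c j * (ε - 3 * τ) := by rw [← Finset.sum_mul, hc1, one_mul]
    _ ≤ ∑ j ∈ J, c j * ∑ s ∈ U, ((if s ∈ D' j then 2 * |u j s| else 0) - |u j s|) :=
        Finset.sum_le_sum fun j hj => mul_le_mul_of_nonneg_left (hrow j hj) (hc j hj)
    _ = ∑ j ∈ J, ∑ s ∈ U, c j * ((if s ∈ D' j then 2 * |u j s| else 0) - |u j s|) := by
        simp only [Finset.mul_sum]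

section Space

variable {X : Type*} [NormedAddCommGroup X] [NormedSpace ℝ X] {e : ℕ → X}

variable (hX : IsCombSpace (sz sf) e)

include hX

theorem b5c_coord_zero (x : ℕ → X) (z : ℕ → ℕ) (hz : StrictMono z)
    (hsupp : ∀ a s, co e (x a) s ≠ 0 → z a ≤ s ∧ s < z (a + 1)) (φ : ℕ → ℕ)
    (hφ : StrictMono φ) (k : ℕ) : Tendsto (fun j => ef e k (x (φ j))) atTop (𝓝 0) := by
  refine tendsto_const_nhds.congr' ?_
  filter_upwards [eventually_gt_atTop k] with j hj
  by_contra hne
  have h1 := (hsupp (φ j) k (fun h0 => hne h0.symm)).1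
  have h2 := hz.id_le (φ j)
  have h3 := hφ.id_le j
  simp only [id] at h2 h3
  omega

/-- Part (c): eventually the values of `T n (x b)` on `D n` are small. -/
theorem b5c_small (C : ℝ) (hC : 1 ≤ C) (T : ℕ → X →L[ℝ] X) (hT : ∀ n x, ‖T n x‖ ≤ C * ‖x‖)
    (x : ℕ → X) (z : ℕ → ℕ) (hz : StrictMono z) (hx : ∀ a, ‖x a‖ ≤ 1)
    (hsupp : ∀ a s, co e (x a) s ≠ 0 → z a ≤ s ∧ s < z (a + 1)) (k : ℕ) (D : ℕ → Finset ℕ)
    (hD : ∀ n, (D n).card ≤ k) (τ : ℝ) (hτ : 0 < τ) :
    ∀ᶠ b in (atTop : Filter ℕ), ∀ᶠ n in (hyperfilter ℕ : Filter ℕ),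
      ∑ s ∈ D n, |co e (T n (x b)) s| ≤ τ := by
  classical
  by_contra hcon
  rw [not_eventually] at hcon
  obtain ⟨φ, hφ, hφ2⟩ := extraction_of_frequently_atTop hcon
  have hφ3 : ∀ j, ∀ᶠ n in (hyperfilter ℕ : Filter ℕ),
      τ < ∑ s ∈ D n, |co e (T n (x (φ j))) s| := by
    intro j
    have := Ultrafilter.eventually_not.2 (hφ2 j)
    filter_upwards [this] with n hn
    exact not_le.1 hn
  obtain ⟨c, hc, hc2⟩ := exists_conv_small (sz_regular sf) hX (fun j => x (φ j)) 1
    (fun j => hx _) (b5c_coord_zero hX x z hz hsupp φ hφ) (τ / (C * (k + 1))) (by positivity) 0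
  have hev : ∀ᶠ n in (hyperfilter ℕ : Filter ℕ), ∀ j ∈ c.support,
      τ < ∑ s ∈ D n, |co e (T n (x (φ j))) s| := by
    rw [Filter.eventually_all_finset]
    exact fun j _ => hφ3 j
  obtain ⟨n, hn⟩ := hev.exists
  -- the bound at one coordinate
  have hcoord : ∀ s, ∑ j ∈ c.support, c j * |co e (T n (x (φ j))) s| ≤ τ / (k + 1) := by
    intro s
    set θ : ℕ → ℝ := fun j => SignType.sign (co e (T n (x (φ j))) s) with hθ
    have hθ1 : ∀ j, |θ j| ≤ 1 := by
      intro j
      simp only [hθ]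
      rcases lt_trichotomy (co e (T n (x (φ j))) s) 0 with h | h | h
      · rw [sign_neg h]; simp
      · rw [h]; simp
      · rw [sign_pos h]; simp
    have h1 : ∑ j ∈ c.support, c j * |co e (T n (x (φ j))) s| =
        co e (T n (∑ j ∈ c.support, (c j * θ j) • x (φ j))) s := by
      rw [map_sum, co_sum]
      refine Finset.sum_congr rfl fun j _ => ?_
      rw [map_smul, co_smul, mul_assoc]
      congr 1
      simp only [hθ]
      exact (sign_mul_self _).symm
    rw [h1]
    have h2 : ‖∑ j ∈ c.support, (c j * θ j) • x (φ j)‖ ≤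
        ‖Finsupp.linearCombination ℝ (fun j => x (φ j)) c‖ := by
      refine norm_le_of_co_le hX fun k' => ?_
      rw [Finsupp.linearCombination_apply, Finsupp.sum, co_sum, co_sum]
      by_cases hk : ∃ j ∈ c.support, co e (x (φ j)) k' ≠ 0
      · obtain ⟨j0, hj0, hne⟩ := hk
        have hoth : ∀ j, j ≠ j0 → co e (x (φ j)) k' = 0 := by
          intro j hj
          by_contra hne'
          have h3 := hsupp _ _ hne
          have h4 := hsupp _ _ hne'
          rcases lt_or_gt_of_ne hj with hlt | hgt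
          · have h5 : φ j + 1 ≤ φ j0 := hφ hlt
            have h6 := hz.monotone h5
            omega
          · have h5 : φ j0 + 1 ≤ φ j := hφ hgt
            have h6 := hz.monotone h5
            omega
        rw [Finset.sum_eq_single j0 (fun j _ hj => by rw [co_smul, hoth j hj, mul_zero])
          (fun h => absurd hj0 h),
          Finset.sum_eq_single j0 (fun j _ hj => by rw [co_smul, hoth j hj, mul_zero])
          (fun h => absurd hj0 h), co_smul, co_smul, abs_mul, abs_mul, abs_mul]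
        have := hθ1 j0
        have h7 := abs_nonneg (c j0)
        have h8 := abs_nonneg (co e (x (φ j0)) k')
        have h9 : |c j0| * |θ j0| ≤ |c j0| * 1 := mul_le_mul_of_nonneg_left this h7
        rw [mul_one] at h9
        exact mul_le_mul_of_nonneg_right h9 h8
      · push Not at hk
        rw [Finset.sum_eq_zero fun j hj => by rw [co_smul, hk j hj, mul_zero]]
        rw [abs_zero]
        exact abs_nonneg _
    calc co e (T n (∑ j ∈ c.support, (c j * θ j) • x (φ j))) s
        ≤ |co e (T n (∑ j ∈ c.support, (c j * θ j) • x (φ j))) s| := le_abs_self _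
      _ ≤ ‖T n (∑ j ∈ c.support, (c j * θ j) • x (φ j))‖ := abs_co_le hX _ _
      _ ≤ C * ‖∑ j ∈ c.support, (c j * θ j) • x (φ j)‖ := hT _ _
      _ ≤ C * (τ / (C * (k + 1))) := by
          refine mul_le_mul_of_nonneg_left (h2.trans hc2.le) (by linarith)
      _ = τ / (k + 1) := by
          have : C ≠ 0 := by positivity
          field_simp
  have h3 : ∑ s ∈ D n, ∑ j ∈ c.support, c j * |co e (T n (x (φ j))) s| ≤
      (D n).card * (τ / (k + 1)) := by
    have := Finset.sum_le_sum (s := D n) fun s _ => hcoord s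
    rwa [Finset.sum_const, nsmul_eq_mul] at this
  have h4 : τ ≤ ∑ s ∈ D n, ∑ j ∈ c.support, c j * |co e (T n (x (φ j))) s| := by
    rw [Finset.sum_comm]
    calc τ = ∑ j ∈ c.support, c j * τ := by
          rw [← Finset.sum_mul, ← mass_eq_sum, hc.mass_eq, one_mul]
      _ ≤ ∑ j ∈ c.support, ∑ s ∈ D n, c j * |co e (T n (x (φ j))) s| := by
          refine Finset.sum_le_sum fun j hj => ?_
          rw [← Finset.mul_sum]
          exact mul_le_mul_of_nonneg_left (hn j hj).le (hc.nonneg j)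
  have h5 : ((D n).card : ℝ) * (τ / (k + 1)) ≤ k * (τ / (k + 1)) := by
    have : ((D n).card : ℝ) ≤ k := by exact_mod_cast hD n
    exact mul_le_mul_of_nonneg_right this (by positivity)
  have h6 : (k : ℝ) * (τ / (k + 1)) < τ := by
    rw [mul_div_assoc', div_lt_iff₀ (by positivity)]
    nlinarith
  linarith

/-- B5c: no blocks -/
theorem blocks_false (C : ℝ) (hC : 1 ≤ C) (T : ℕ → X →L[ℝ] X) (hT : ∀ n x, ‖T n x‖ ≤ C * ‖x‖)
    (hnull : ∀ x k, Tendsto (fun n => co e (T n x) k) atTop (𝓝 0)) (ε : ℝ) (hε : 0 < ε)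
    (x : ℕ → X) (z : ℕ → ℕ) (hz : StrictMono z) (hx : ∀ a, ‖x a‖ ≤ 1)
    (hsupp : ∀ a s, co e (x a) s ≠ 0 → z a ≤ s ∧ s < z (a + 1))
    (hsm : ∀ a, ¬ Sm e T ε (x a)) : False := by
  classical
  have hτ : 0 < ε / 20 := by positivity
  choose k D hDk hD1 hD2 using fun a => sm_near hX C hC T hT hnull ε (ε / 20) hε hτ (x a) (hsm a)
  -- the subsequence
  have hstep : ∀ N : ℕ, ∃ b, N < b ∧ ∀ a ∈ Finset.range (N + 1),
      ∀ᶠ n in (hyperfilter ℕ : Filter ℕ),
        ∑ s ∈ D a n, |co e (T n (x b)) s| ≤ (ε / 20) / (N + 1) := by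
    intro N
    have h1 : ∀ᶠ b in (atTop : Filter ℕ), ∀ a ∈ Finset.range (N + 1),
        ∀ᶠ n in (hyperfilter ℕ : Filter ℕ),
          ∑ s ∈ D a n, |co e (T n (x b)) s| ≤ (ε / 20) / (N + 1) := by
      rw [Filter.eventually_all_finset]
      exact fun a _ => b5c_small hX C hC T hT x z hz hx hsupp (k a) (D a) (hDk a) _ (by positivity)
    obtain ⟨b, hb, hNb⟩ := (h1.and (eventually_gt_atTop N)).exists
    exact ⟨b, hNb, hb⟩
  choose f hf1 hf2 using hstep
  set φ : ℕ → ℕ := fun j => f^[j] 0 with hφdef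
  have hφs : ∀ j, φ (j + 1) = f (φ j) := fun j => Function.iterate_succ_apply' f j 0
  have hφ : StrictMono φ := strictMono_nat_of_lt_succ fun j => by rw [hφs]; exact hf1 _
  have hφ2 : ∀ i j, i < j → ∀ᶠ n in (hyperfilter ℕ : Filter ℕ),
      ∑ s ∈ D (φ i) n, |co e (T n (x (φ j))) s| ≤ (ε / 20) / j := by
    intro i j hij
    obtain ⟨j', rfl⟩ : ∃ j', j = j' + 1 := ⟨j - 1, by omega⟩
    rw [hφs]
    have h1 : φ i ≤ φ j' := hφ.monotone (by omega)
    have h2 := hf2 (φ j') (φ i) (Finset.mem_range.2 (by omega))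
    filter_upwards [h2] with n hn
    refine hn.trans ?_
    have h3 : (j' : ℝ) ≤ φ j' := by exact_mod_cast hφ.id_le j'
    push_cast
    gcongr
  obtain ⟨c, hc, hc2⟩ := exists_conv_small (sz_regular sf) hX (fun j => x (φ j)) 1
    (fun j => hx _) (b5c_coord_zero hX x z hz hsupp φ hφ) (ε / (8 * C)) (by positivity) 0
  set J := c.support with hJ
  set K := ∑ j ∈ J, k (φ j) with hK
  set y := Finsupp.linearCombination ℝ (fun j => x (φ j)) c with hy
  have e1 : ∀ᶠ n in (hyperfilter ℕ : Filter ℕ), ∀ j ∈ J,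
      ε ≤ ∑ s ∈ D (φ j) n, |co e (T n (x (φ j))) s| := by
    rw [Filter.eventually_all_finset]
    exact fun j _ => hD1 (φ j)
  have e2 : ∀ᶠ n in (hyperfilter ℕ : Filter ℕ), ∀ j ∈ J, ∀ i ∈ J.filter (· < j),
      ∑ s ∈ D (φ i) n, |co e (T n (x (φ j))) s| ≤ (ε / 20) / j := by
    rw [Filter.eventually_all_finset]
    intro j _
    rw [Filter.eventually_all_finset]
    exact fun i hi => hφ2 i j (Finset.mem_filter.1 hi).2
  have e3 : ∀ᶠ n in (hyperfilter ℕ : Filter ℕ), ∀ j ∈ J, ∀ D' : Finset ℕ, D'.card ≤ K →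
      Disjoint D' (D (φ j) n) → ∑ s ∈ D', |co e (T n (x (φ j))) s| ≤ ε / 20 := by
    rw [Filter.eventually_all_finset]
    exact fun j _ => hD2 (φ j) K
  have e4 := sm_upper hX C hC T hT hnull y K (ε / 8) (by positivity)
  obtain ⟨n, hn1, hn2, hn3, hn4⟩ := (e1.and (e2.and (e3.and e4))).exists
  have hcard : (J.biUnion fun j => D (φ j) n).card ≤ K :=
    Finset.card_biUnion_le.trans (Finset.sum_le_sum fun j _ => hDk (φ j) n)
  have hlow := b5c_lower J (fun j => c j) (fun j _ => hc.nonneg j)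
    (by rw [← mass_eq_sum, hc.mass_eq]) (fun j s => co e (T n (x (φ j))) s)
    (fun j => D (φ j) n) ε (ε / 20) hn1 (by
      intro j hj
      have h1 : ∑ i ∈ J.filter (· < j), ∑ s ∈ D (φ i) n, |co e (T n (x (φ j))) s| ≤
          ∑ i ∈ J.filter (· < j), (ε / 20) / j := Finset.sum_le_sum fun i hi => hn2 j hj i hi
      refine h1.trans ?_
      rw [Finset.sum_const, nsmul_eq_mul]
      rcases Nat.eq_zero_or_pos j with rfl | hj0
      · simp only [Nat.cast_zero, div_zero, mul_zero]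
        exact hτ.le
      · have h2 : (J.filter (· < j)).card ≤ j := by
          have h3 : J.filter (· < j) ⊆ Finset.range j := fun i hi =>
            Finset.mem_range.2 (Finset.mem_filter.1 hi).2
          simpa using Finset.card_le_card h3
        have h4 : ((J.filter (· < j)).card : ℝ) ≤ j := by exact_mod_cast h2
        have h5 : (0 : ℝ) < j := by exact_mod_cast hj0
        calc ((J.filter (· < j)).card : ℝ) * (ε / 20 / j) ≤ j * (ε / 20 / j) := by gcongr
          _ = ε / 20 := by field_simp) (by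
      intro j hj
      refine hn3 j hj _ ((Finset.card_le_card Finset.sdiff_subset).trans hcard) ?_
      exact Finset.sdiff_disjoint)
  have hup := hn4 _ hcard
  have heq : ∀ s, ∑ j ∈ J, c j * co e (T n (x (φ j))) s = co e (T n y) s := by
    intro s
    rw [hy, Finsupp.linearCombination_apply, Finsupp.sum, map_sum, co_sum]
    refine Finset.sum_congr rfl fun j _ => ?_
    rw [map_smul, co_smul]
  simp only [heq] at hlow
  have hyn : C * ‖y‖ ≤ ε / 8 := by
    calc C * ‖y‖ ≤ C * (ε / (8 * C)) := mul_le_mul_of_nonneg_left hc2.le (by linarith)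
      _ = ε / 8 := by
        have : C ≠ 0 := by positivity
        field_simp
  linarith

end Space

end Pool.Agent.Comb7f333f.SPart
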