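import Pool.Agent.Lib.MP_7f333f_an.Siz.Api

set_option autoImplicit false
set_option linter.unusedSectionVars false

/-!
Module B6: selection of elements of a coordinatewise null sequence.
-/

namespace Pool.Agent.Comb7f333f.SPart

open Filter Topology

variable {sf : Siz}

section Space

variable {X : Type*} [NormedAddCommGroup X] [NormedSpace ℝ X] {e : ℕ → X}

variable (hX : IsCombSpace (sz sf) e)

include hX

/-- One step of the selection. -/
theorem b6_step (T : ℕ → X →L[ℝ] X)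
    (hnull : ∀ x k, Tendsto (fun n => co e (T n x) k) atTop (𝓝 0)) (ε : ℝ) (hε : 0 < ε)
    (Y : Finset X) (hY : ∀ y ∈ Y, Sm e T ε y) (K0 : ℕ) (τ : ℝ) (hτ : 0 < τ) (K : ℕ) :
    ∃ n K' : ℕ, K ≤ K' ∧ ∀ y ∈ Y, (∑ s ∈ Finset.range K0, |co e (T n y) s| ≤ τ) ∧
      (∀ D : Finset ℕ, D.card ≤ sf.f K → ∑ s ∈ D, |co e (T n y) s| ≤ ε) ∧
      ∀ E ∈ (sz sf), (∀ s ∈ E, K' ≤ s) → ∑ s ∈ E, |co e (T n y) s| ≤ ε := by
  have h1 : ∀ y ∈ Y, ∀ᶠ n in (hyperfilter ℕ : Filter ℕ),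
      ∑ s ∈ Finset.range K0, |co e (T n y) s| ≤ τ := by
    intro y _
    have h2 : Tendsto (fun n => ∑ s ∈ Finset.range K0, |co e (T n y) s|) atTop
        (𝓝 (∑ s ∈ Finset.range K0, |(0 : ℝ)|)) :=
      tendsto_finsetSum _ fun s _ => (hnull y s).abs
    rw [abs_zero, Finset.sum_const_zero] at h2
    have h3 : ∀ᶠ n in (atTop : Filter ℕ), ∑ s ∈ Finset.range K0, |co e (T n y) s| ≤ τ :=
      h2.eventually_le_const hτ
    exact Nat.hyperfilter_le_atTop h3
  have h4 : ∀ y ∈ Y, ∀ᶠ n in (hyperfilter ℕ : Filter ℕ),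
      ((∑ s ∈ Finset.range K0, |co e (T n y) s| ≤ τ) ∧
      (∀ D : Finset ℕ, D.card ≤ sf.f K → ∑ s ∈ D, |co e (T n y) s| ≤ ε)) := by
    intro y hy
    exact (h1 y hy).and (hY y hy (sf.f K))
  have h5 : ∀ᶠ n in (hyperfilter ℕ : Filter ℕ), ∀ y ∈ Y,
      ((∑ s ∈ Finset.range K0, |co e (T n y) s| ≤ τ) ∧
      (∀ D : Finset ℕ, D.card ≤ sf.f K → ∑ s ∈ D, |co e (T n y) s| ≤ ε)) := by
    rw [Filter.eventually_all_finset]
    exact h4
  obtain ⟨n, hn⟩ := h5.exists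
  choose f hf using fun y : X => exists_tail_le hX (T n y) ε hε
  refine ⟨n, K + ∑ y ∈ Y, f y, Nat.le_add_right _ _, fun y hy => ⟨(hn y hy).1, (hn y hy).2, ?_⟩⟩
  intro E hE hE'
  refine hf y E hE fun s hs => ?_
  have h6 := hE' s hs
  have h7 : f y ≤ ∑ y ∈ Y, f y := Finset.single_le_sum (f := f) (fun _ _ => Nat.zero_le _) hy
  omega

theorem selection_seq (C : ℝ) (hC : 1 ≤ C) (T : ℕ → X →L[ℝ] X)
    (hT : ∀ n x, ‖T n x‖ ≤ C * ‖x‖)
    (hnull : ∀ x k, Tendsto (fun n => co e (T n x) k) atTop (𝓝 0)) (M : ℕ) (hM : 1 ≤ M)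
    (Y : Finset X) (hY : ∀ y ∈ Y, Sm e T (1 / (4 * M)) y) (K0 : ℕ) (τ : ℝ) (hτ : 0 < τ) :
    ∃ n : Fin M → ℕ, ∀ y ∈ Y, (∀ θ : Fin M → ℝ, (∀ a, |θ a| ≤ 1) →
      ‖∑ a, θ a • T (n a) y‖ ≤ C * ‖y‖ + 1) ∧
      ∀ a, ∑ s ∈ Finset.range K0, |co e (T (n a) y) s| ≤ τ := by
  have hM0 : (0 : ℝ) < M := by exact_mod_cast hM
  have hε : (0 : ℝ) < 1 / (4 * M) := by positivity
  choose fn fK hfK hf using b6_step hX T hnull (1 / (4 * M)) hε Y hY K0 τ hτ
  -- the recursive sequence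
  let Ks : ℕ → ℕ := fun a => Nat.rec 0 (fun _ K => fK K) a
  have hKs : ∀ a, Ks (a + 1) = fK (Ks a) := fun _ => rfl
  have hmono : Monotone Ks := monotone_nat_of_le_succ fun a => by
    rw [hKs]; exact hfK _
  refine ⟨fun a => fn (Ks a), fun y hy => ⟨fun θ hθ => ?_, fun a => (hf (Ks a) y hy).1⟩⟩
  refine norm_le_of_SB hX fun E hE => ?_
  -- the bound for each a
  have hbd : ∃ a0 : ℕ, ∀ a : Fin M, (a : ℕ) ≠ a0 →
      ∑ s ∈ E, |co e (T (fn (Ks a)) y) s| ≤ 1 / (4 * M) := by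
    by_cases hex : ∃ a, ∃ s ∈ E, s < Ks (a + 1)
    · refine ⟨Nat.find hex, fun a ha => ?_⟩
      rcases lt_or_gt_of_ne ha with hlt | hgt
      · have h1 := Nat.find_min hex hlt
        push Not at h1
        exact (hf (Ks a) y hy).2.2 E hE h1
      · obtain ⟨s, hs, hs'⟩ := Nat.find_spec hex
        have h2 : E.card ≤ sf.f s := hE s hs
        have h3 : Ks (Nat.find hex + 1) ≤ Ks a := hmono hgt
        exact (hf (Ks a) y hy).2.1 E (h2.trans (sf.mono (by omega)))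
    · push Not at hex
      refine ⟨0, fun a _ => (hf (Ks a) y hy).2.2 E hE (hex a)⟩
  obtain ⟨a0, ha0⟩ := hbd
  have hall : ∀ a : Fin M, ∑ s ∈ E, |co e (T (fn (Ks a)) y) s| ≤ C * ‖y‖ := fun a =>
    (SB_co hX _ E hE).trans (hT _ _)
  have hstep : ∀ s ∈ E, |co e (∑ a : Fin M, θ a • T (fn (Ks a)) y) s| ≤
      ∑ a : Fin M, |co e (T (fn (Ks a)) y) s| := by
    intro s _
    rw [co_sum]
    refine (Finset.abs_sum_le_sum_abs _ _).trans (Finset.sum_le_sum fun a _ => ?_)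
    rw [co_smul, abs_mul]
    have := mul_le_mul_of_nonneg_right (hθ a) (abs_nonneg (co e (T (fn (Ks a)) y) s))
    linarith
  have hCy : 0 ≤ C * ‖y‖ := mul_nonneg (by linarith) (norm_nonneg _)
  calc ∑ s ∈ E, |co e (∑ a : Fin M, θ a • T (fn (Ks a)) y) s|
      ≤ ∑ s ∈ E, ∑ a : Fin M, |co e (T (fn (Ks a)) y) s| := Finset.sum_le_sum hstep
    _ = ∑ a : Fin M, ∑ s ∈ E, |co e (T (fn (Ks a)) y) s| := Finset.sum_comm
    _ ≤ ∑ a : Fin M, ((if (a : ℕ) = a0 then C * ‖y‖ else 0) + 1 / (4 * M)) := by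
        refine Finset.sum_le_sum fun a _ => ?_
        by_cases h : (a : ℕ) = a0
        · rw [if_pos h]
          have := hall a
          linarith
        · rw [if_neg h]
          have := ha0 a h
          linarith
    _ = ∑ a : Fin M, (if (a : ℕ) = a0 then C * ‖y‖ else 0) + M * (1 / (4 * M)) := by
        rw [Finset.sum_add_distrib, Finset.sum_const, Finset.card_univ, Fintype.card_fin,
          nsmul_eq_mul]
    _ ≤ C * ‖y‖ + 1 := by
        have h1 : ∑ a : Fin M, (if (a : ℕ) = a0 then C * ‖y‖ else 0) ≤ C * ‖y‖ := by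
          by_cases h : a0 < M
          · rw [Finset.sum_eq_single (⟨a0, h⟩ : Fin M)]
            · simp
            · intro b _ hb
              rw [if_neg]
              intro hb'
              exact hb (Fin.ext hb')
            · simp
          · rw [Finset.sum_eq_zero]
            · exact hCy
            · intro a _
              rw [if_neg]
              have := a.2
              omega
        have h2 : (M : ℝ) * (1 / (4 * M)) = 1 / 4 := by field_simp
        linarith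

end Space

end Pool.Agent.Comb7f333f.SPart
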