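import Pool.Agent.Lib.MP_7f333f_an.Siz.Defs

set_option autoImplicit false

/-!
Definitions for the finite theorem: the levels with their measures, the coupling, the good pairs.
-/

namespace Pool.Agent.Comb7f333f.SPart

open scoped Classical in
/-- The sets of the family which are contained in the first `Z` integers. -/
noncomputable def sets (sf : Siz) (Z : ℕ) : Finset (Finset ℕ) :=
  (Finset.range Z).powerset.filter (fun A => A ∈ sz sf)

/-- The marginal of a measure on the sets. -/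
def mg (𝒮 : Finset (Finset ℕ)) (lam : Finset ℕ → ℝ) (s : ℕ) : ℝ :=
  ∑ A ∈ 𝒮.filter (fun A => s ∈ A), lam A

/-- The first element of a set. -/
noncomputable def mn (A : Finset ℕ) : ℕ := sInf (A : Set ℕ)

/-- The constants. -/
noncomputable def ep (C B₁ : ℝ) : ℝ := 1 / (8 * B₁ * C)
noncomputable def dl (C B₁ : ℝ) : ℝ := 1 / (4 * B₁ * C)
noncomputable def c0 (B₁ : ℝ) : ℝ := 1 / (64 * B₁)
noncomputable def e0 (C B₁ : ℝ) : ℝ := 1 / (64 * B₁ * C)

/-- One level, for a fixed word outside this level; `J` is the set of the letters (with the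
number of the column), `lam j` is the measure of the word with the letter `j`, `gam` is the
measure of the level. -/
structure Lev (sf : Siz) (Z : ℕ) (C B₁ : ℝ) (J : Type) [Fintype J] where
  gam : Finset ℕ → ℝ
  lam : J → Finset ℕ → ℝ
  ζ : J → ℕ → ℝ
  v : J → ℕ → ℝ
  gam_nonneg : ∀ A, 0 ≤ gam A
  gam_sum : ∑ A ∈ sets sf Z, gam A = 1
  lam_nonneg : ∀ j A, 0 ≤ lam j A
  lam_sum : ∀ j, ∑ A ∈ sets sf Z, lam j A = 1
  hr : ∀ j, ∀ s < Z, |ζ j s| ≤ B₁ * mg (sets sf Z) (lam j) s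
  hj : ∀ s < Z, Real.sqrt (∑ j, ζ j s ^ 2) ≤ B₁ * mg (sets sf Z) gam s
  hv : ∀ j, SB sf (v j) C
  hz : ∀ j, 1 / 2 ≤ ∑ s ∈ Finset.range Z, |ζ j s| * |v j s|

namespace Lev

variable {sf : Siz} {Z : ℕ} {C B₁ : ℝ} {J : Type} [Fintype J] (L : Lev sf Z C B₁ J)

/-- The density of the functional with respect to the measure of the word. -/
noncomputable def er (j : J) (s : ℕ) : ℝ := |L.ζ j s| / (B₁ * mg (sets sf Z) (L.lam j) s)

/-- The density of the functional with respect to the measure of the level. -/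
noncomputable def ej (j : J) (s : ℕ) : ℝ := |L.ζ j s| / (B₁ * mg (sets sf Z) L.gam s)

open scoped Classical in
/-- The coordinates where both densities are not small. -/
noncomputable def S (j : J) : Finset ℕ :=
  (Finset.range Z).filter (fun s => ep C B₁ ≤ L.er j s ∧ ep C B₁ ≤ L.ej j s)

/-- The coupling. -/
noncomputable def kp (j : J) (A A' : Finset ℕ) : ℝ :=
  (1 / (B₁ * C)) * ∑ s ∈ (A ∩ A') ∩ L.S j, |L.ζ j s| * |L.v j s| * L.lam j A * L.gam A' /
    (mg (sets sf Z) (L.lam j) s * mg (sets sf Z) L.gam s)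

/-- The vector `v j` is captured by `A'` from `x` on, with its density. -/
def capj (j : J) (A' : Finset ℕ) (x : ℕ) : Prop :=
  c0 B₁ ≤ ∑ s ∈ (A' ∩ L.S j).filter (fun s => x ≤ s), L.ej j s * |L.v j s|

/-- The vector `v j` is captured by `A` from `x` on. -/
def capr (j : J) (A : Finset ℕ) (x : ℕ) : Prop :=
  c0 B₁ ≤ ∑ s ∈ (A ∩ L.S j).filter (fun s => x ≤ s), |L.v j s|

open scoped Classical in
/-- The letter `j` occupies few elements of `A'`. -/
def room (K₁ : ℕ) (j : J) (A' : Finset ℕ) : Prop :=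
  (A'.filter (fun s => ep C B₁ ≤ L.ej j s)).card * Fintype.card J ≤ K₁ * sf.f (mn A')

/-- Kept pairs, the word set first. -/
def keptU (K₁ : ℕ) (j : J) (A A' : Finset ℕ) : Prop :=
  mn A ≤ mn A' ∧ L.capj j A' 0 ∧ L.capr j A (mn A') ∧ L.room K₁ j A'

/-- Kept pairs, the level set first. -/
def keptL (K₁ : ℕ) (j : J) (A A' : Finset ℕ) : Prop :=
  mn A' < mn A ∧ L.capj j A' (mn A) ∧ L.room K₁ j A'

open scoped Classical in
/-- The scales up to which `A'` has a fair amount of mass of the first type. -/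
def qset (K₁ : ℕ) (A' : Finset ℕ) : Set ℕ :=
  {τ | e0 C B₁ * L.gam A' * Fintype.card J ≤
    ∑ j, ∑ A ∈ (sets sf Z).filter (fun A => L.keptU K₁ j A A' ∧ mn A ≤ τ), L.kp j A A'}

/-- The quantile. -/
noncomputable def tq (K₁ : ℕ) (A' : Finset ℕ) : ℕ := sInf (L.qset K₁ A')

open scoped Classical in
/-- The letters captured by `A'` from `x` on. -/
noncomputable def JJ (K₁ : ℕ) (A' : Finset ℕ) (x : ℕ) : Finset J :=
  Finset.univ.filter (fun j => L.room K₁ j A' ∧ L.capj j A' x)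

/-- The good pairs. -/
def good (K₁ : ℕ) (j : J) (A A' : Finset ℕ) : Prop :=
  0 < L.kp j A A' ∧
    ((L.keptU K₁ j A A' ∧ (L.qset K₁ A').Nonempty ∧ L.tq K₁ A' ≤ mn A) ∨
      (L.keptL K₁ j A A' ∧ e0 C B₁ * Fintype.card J ≤ ((L.JJ K₁ A' (mn A)).card : ℝ)))

end Lev

/-- A vector captured at the scale `τ` with room `K2`. -/
def capt (sf : Siz) (K2 : ℕ) (c : ℝ) (v : ℕ → ℝ) (τ : ℕ) : Prop :=
  ∃ T : Finset ℕ, (∀ s ∈ T, τ ≤ s) ∧ K2 * T.card ≤ sf.f τ ∧ c ≤ ∑ s ∈ T, |v s|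

/-- The second test point. -/
noncomputable def TH (sf : Siz) (K2 ρ t : ℕ) : ℕ := Nat.find (sf.unb (K2 * ρ * sf.f t))

/-- `f` of the vectors `v (a, ν)`, with the same letter `a`, are concentrated from `x` on. -/
def deepAt (sf : Siz) {M N : ℕ} (v : Fin M × Fin N → ℕ → ℝ) (c : ℝ) (K f x : ℕ) : Prop :=
  ∃ (a : Fin M) (I : Finset (Fin N)), I.card = f ∧ ∃ T : Finset ℕ, (∀ s ∈ T, x ≤ s) ∧
    K * T.card ≤ sf.f x ∧ c * f ≤ ∑ s ∈ T, Real.sqrt (∑ ν ∈ I, v (a, ν) s ^ 2)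

end Pool.Agent.Comb7f333f.SPart
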