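import Pool.Agent.Lib.MP_7f333f_an.Siz.Coup

/-!
Capture of a vector at one of the two test points.
-/

set_option autoImplicit false

namespace Pool.Agent.Comb7f333f.SPart

namespace CaptAux

theorem mn_mem {A : Finset ℕ} (h : A.Nonempty) : mn A ∈ A := by
  have h1 : (A : Set ℕ).Nonempty := h
  exact Nat.sInf_mem h1

theorem mn_le {A : Finset ℕ} {s : ℕ} (h : s ∈ A) : mn A ≤ s := Nat.sInf_le h

theorem card_le_mn {sf : Siz} {Z : ℕ} {A : Finset ℕ} (hA : A ∈ sets sf Z) (h : A.Nonempty) :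
    A.card ≤ sf.f (mn A) := by
  classical
  unfold sets at hA
  rw [Finset.mem_filter] at hA
  exact hA.2 _ (mn_mem h)

section

variable {sf : Siz} {Z : ℕ} {C B₁ : ℝ} {J : Type} [Fintype J]

theorem S_lt {L : Lev sf Z C B₁ J} {j : J} {s : ℕ} (h : s ∈ L.S j) : s < Z := by
  unfold Lev.S at h
  rw [Finset.mem_filter] at h
  exact Finset.mem_range.1 h.1

theorem S_ep {L : Lev sf Z C B₁ J} {j : J} {s : ℕ} (h : s ∈ L.S j) : ep C B₁ ≤ L.ej j s := by
  unfold Lev.S at h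
  rw [Finset.mem_filter] at h
  exact h.2.2

/-- room bounds the captured part of `A'` -/
theorem room_card {L : Lev sf Z C B₁ J} {K₁ : ℕ} {j : J} {A' T : Finset ℕ}
    (hr : L.room K₁ j A') (hT : T ⊆ A') (hT2 : T ⊆ L.S j) :
    T.card * Fintype.card J ≤ K₁ * sf.f (mn A') := by
  classical
  unfold Lev.room at hr
  refine le_trans (Nat.mul_le_mul_right _ (Finset.card_le_card ?_)) hr
  intro s hs
  rw [Finset.mem_filter]
  exact ⟨hT hs, S_ep (hT2 hs)⟩

theorem capt_aux {k K2 ρ a q J y : ℕ} (hJ : K2 * K2 * ρ * k ≤ J) (hk : 1 ≤ k)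
    (h1 : a * J ≤ k * q) (h2 : q < K2 * ρ * y) : K2 * a ≤ y := by
  have h3 : a * (K2 * K2 * ρ * k) ≤ k * q := (Nat.mul_le_mul_left a hJ).trans h1
  have h4 : k * q < k * (K2 * ρ * y) := Nat.mul_lt_mul_of_pos_left h2 hk
  have h5 : (k * (K2 * ρ)) * (K2 * a) < (k * (K2 * ρ)) * y := by
    calc (k * (K2 * ρ)) * (K2 * a) = a * (K2 * K2 * ρ * k) := by ring
      _ ≤ k * q := h3
      _ < k * (K2 * ρ * y) := h4
      _ = (k * (K2 * ρ)) * y := by ring
  exact (Nat.lt_of_mul_lt_mul_left h5).le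

end

end CaptAux

open CaptAux

section Lev

variable {sf : Siz} {Z : ℕ} {C B₁ : ℝ} {J : Type} [Fintype J] (L : Lev sf Z C B₁ J)

namespace Lev

set_option linter.unusedVariables false in
theorem capture (hC : 1 ≤ C) (hB : 1 ≤ B₁) (K₁ K2 ρ : ℕ) (hρ : 1 ≤ ρ) (hK2 : 1 ≤ K2)
    (hK₁ : 1 ≤ K₁) (hJ : K₁ * K2 ^ 2 * ρ ≤ Fintype.card J) (j : J) (A A' : Finset ℕ)
    (hA : A ∈ sets sf Z) (hA' : A' ∈ sets sf Z) (hg : L.good K₁ j A A') (t : ℕ)
    (ht : t ≤ mn A) (hw : sf.f (mn A) < ρ * sf.f t) :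
    capt sf K2 (c0 B₁) (L.v j) t ∨ capt sf K2 (c0 B₁) (L.v j) (TH sf K2 ρ t) := by
  classical
  obtain ⟨hkp, hg⟩ := hg
  obtain ⟨hne, hne', -, -⟩ := L.kp_pos_imp hC hB j A A' hkp
  have hJ' : K2 * K2 * ρ * K₁ ≤ Fintype.card J := by
    calc K2 * K2 * ρ * K₁ = K₁ * K2 ^ 2 * ρ := by ring
      _ ≤ _ := hJ
  have hmass : ∀ T : Finset ℕ, T ⊆ L.S j →
      ∑ s ∈ T, L.ej j s * |L.v j s| ≤ ∑ s ∈ T, |L.v j s| := by
    intro T hT
    refine Finset.sum_le_sum fun s hs => ?_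
    exact mul_le_of_le_one_left (abs_nonneg _) (L.ej_le_one hC hB j s (S_lt (hT hs)))
  rcases hg with ⟨⟨hle, hcj, hcr, hroom⟩, -⟩ | ⟨⟨hlt, hcj, hroom⟩, -⟩
  · by_cases hcase : sf.f (mn A') < K2 * ρ * sf.f t
    · left
      set T := (A' ∩ L.S j).filter (fun s => 0 ≤ s) with hT
      have hT1 : T ⊆ A' := (Finset.filter_subset _ _).trans Finset.inter_subset_left
      have hT2 : T ⊆ L.S j := (Finset.filter_subset _ _).trans Finset.inter_subset_right
      refine ⟨T, fun s hs => ?_, ?_, ?_⟩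
      · exact (ht.trans hle).trans (mn_le (hT1 hs))
      · exact capt_aux hJ' hK₁ (room_card hroom hT1 hT2) hcase
      · exact le_trans hcj (hmass T hT2)
    · right
      push Not at hcase
      have hTH1 : TH sf K2 ρ t ≤ mn A' := Nat.find_min' _ hcase
      have hTH2 : K2 * ρ * sf.f t ≤ sf.f (TH sf K2 ρ t) :=
        Nat.find_spec (sf.unb (K2 * ρ * sf.f t))
      set T := (A ∩ L.S j).filter (fun s => mn A' ≤ s) with hT
      have hT1 : T ⊆ A := (Finset.filter_subset _ _).trans Finset.inter_subset_left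
      refine ⟨T, fun s hs => ?_, ?_, hcr⟩
      · exact hTH1.trans (Finset.mem_filter.1 hs).2
      · calc K2 * T.card ≤ K2 * A.card := Nat.mul_le_mul_left _ (Finset.card_le_card hT1)
          _ ≤ K2 * (ρ * sf.f t) :=
              Nat.mul_le_mul_left _ ((card_le_mn hA hne).trans hw.le)
          _ = K2 * ρ * sf.f t := by ring
          _ ≤ _ := hTH2
  · left
    set T := (A' ∩ L.S j).filter (fun s => mn A ≤ s) with hT
    have hT1 : T ⊆ A' := (Finset.filter_subset _ _).trans Finset.inter_subset_left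
    have hT2 : T ⊆ L.S j := (Finset.filter_subset _ _).trans Finset.inter_subset_right
    refine ⟨T, fun s hs => ?_, ?_, ?_⟩
    · exact ht.trans (Finset.mem_filter.1 hs).2
    · have h1 : sf.f (mn A') < K2 * ρ * sf.f t := by
        calc sf.f (mn A') ≤ sf.f (mn A) := sf.mono hlt.le
          _ < ρ * sf.f t := hw
          _ ≤ K2 * (ρ * sf.f t) := Nat.le_mul_of_pos_left _ hK2
          _ = K2 * ρ * sf.f t := by ring
      exact capt_aux hJ' hK₁ (room_card hroom hT1 hT2) h1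
    · exact le_trans hcj (hmass T hT2)

end Lev

end Lev

end Pool.Agent.Comb7f333f.SPart
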