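import Pool.Agent.Lib.MP_7f333f_an.Siz.CDefs

set_option autoImplicit false

/-!
Module S11a: a pure averaging lemma, the choice of the word and of the set.
-/

namespace Pool.Agent.Comb7f333f.SPart

private theorem choice_pairs (r : ℕ) :
    ∑ l : Fin r, ((Finset.Iio l).card : ℝ) ≤ (r : ℝ) ^ 2 / 2 := by
  have h1 : ∑ l : Fin r, ((Finset.Iio l).card : ℝ) = ∑ i ∈ Finset.range r, (i : ℝ) := by
    rw [← Fin.sum_univ_eq_sum_range (fun i => (i : ℝ))]
    refine Finset.sum_congr rfl fun l _ => ?_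
    rw [Fin.card_Iio]
  have h2 : (∑ i ∈ Finset.range r, (i : ℝ)) * 2 = r * ((r : ℝ) - 1) := by
    rcases Nat.eq_zero_or_pos r with h | h
    · subst h; simp
    · have := Finset.sum_range_id_mul_two r
      have h3 : ((∑ i ∈ Finset.range r, i) * 2 : ℕ) = (r * (r - 1) : ℕ) := this
      have h4 : (((∑ i ∈ Finset.range r, i) * 2 : ℕ) : ℝ) = ((r * (r - 1) : ℕ) : ℝ) := by
        rw [h3]
      push_cast [Nat.cast_sub h] at h4
      exact h4
  rw [h1]
  have h0 : (0 : ℝ) ≤ r := Nat.cast_nonneg r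
  nlinarith

/-- A pure averaging lemma: `g l` is the relative mass of the good pairs, `b k l` says that the
pair of levels is bad. -/
theorem choice_average {Ω : Type} [Fintype Ω] (𝒮 : Finset (Finset ℕ)) (r : ℕ)
    (lam : Ω → Finset ℕ → ℝ) (hlam : ∀ ω A, 0 ≤ lam ω A) (hlam1 : ∀ ω, ∑ A ∈ 𝒮, lam ω A = 1)
    (G : Ω → Fin r → Finset ℕ → ℝ) (hG : ∀ ω l, ∀ A ∈ 𝒮, 0 ≤ G ω l A ∧ G ω l A ≤ lam ω A)
    (bad : Ω → Finset ℕ → Fin r → Fin r → Prop) (δ : ℝ) (hδ : 0 < δ) (m : ℕ) (hr : 1 ≤ r)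
    (hm : 4 * (m : ℝ) ≤ δ * r) (η : ℝ) (hη : 8 * (r : ℝ) ^ 2 * η ≤ δ ^ 2)
    (h1 : ∀ l, δ * Fintype.card Ω ≤ ∑ ω, ∑ A ∈ 𝒮, G ω l A)
    (h2 : ∀ k l, k < l → ∑ ω, ∑ A ∈ 𝒮, (open scoped Classical in
      if 0 < G ω k A ∧ bad ω A k l then G ω l A else 0) ≤ 2 * η * Fintype.card Ω)
    (hΩ : Nonempty Ω) :
    ∃ ω, ∃ A ∈ 𝒮, ∃ L₀ : Finset (Fin r), m ≤ L₀.card ∧ (∀ l ∈ L₀, 0 < G ω l A) ∧
      ∀ k ∈ L₀, ∀ l ∈ L₀, k < l → ¬ bad ω A k l := by
  classical
  have hr0 : (0 : ℝ) < r := by exact_mod_cast hr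
  have hcard : (0 : ℝ) < Fintype.card Ω := by exact_mod_cast Fintype.card_pos
  set X : Ω → Finset ℕ → ℝ := fun ω A => ∑ l, G ω l A with hX
  set Y : Ω → Finset ℕ → ℝ := fun ω A => ∑ l, ∑ k ∈ Finset.Iio l,
    (if 0 < G ω k A ∧ bad ω A k l then G ω l A else 0) with hY
  have hXs : δ * r * Fintype.card Ω ≤ ∑ ω, ∑ A ∈ 𝒮, X ω A := by
    have : ∑ ω, ∑ A ∈ 𝒮, X ω A = ∑ l : Fin r, ∑ ω, ∑ A ∈ 𝒮, G ω l A := by
      simp only [hX]
      rw [Finset.sum_comm]
      rw [show (∑ l : Fin r, ∑ ω, ∑ A ∈ 𝒮, G ω l A) =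
        ∑ ω, ∑ l : Fin r, ∑ A ∈ 𝒮, G ω l A from Finset.sum_comm]
      rw [Finset.sum_comm]
      refine Finset.sum_congr rfl fun ω _ => ?_
      rw [Finset.sum_comm]
    rw [this]
    calc δ * r * Fintype.card Ω = ∑ l : Fin r, δ * Fintype.card Ω := by
          rw [Finset.sum_const, Finset.card_univ, Fintype.card_fin, nsmul_eq_mul]; ring
      _ ≤ _ := Finset.sum_le_sum fun l _ => h1 l
  have hYs : ∑ ω, ∑ A ∈ 𝒮, Y ω A ≤ δ ^ 2 / 8 * Fintype.card Ω := by
    have e1 : ∑ ω, ∑ A ∈ 𝒮, Y ω A = ∑ l : Fin r, ∑ k ∈ Finset.Iio l, ∑ ω, ∑ A ∈ 𝒮,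
        (if 0 < G ω k A ∧ bad ω A k l then G ω l A else 0) := by
      simp only [hY]
      calc ∑ ω, ∑ A ∈ 𝒮, ∑ l : Fin r, ∑ k ∈ Finset.Iio l,
            (if 0 < G ω k A ∧ bad ω A k l then G ω l A else 0)
          = ∑ ω, ∑ l : Fin r, ∑ A ∈ 𝒮, ∑ k ∈ Finset.Iio l,
            (if 0 < G ω k A ∧ bad ω A k l then G ω l A else 0) :=
            Finset.sum_congr rfl fun ω _ => Finset.sum_comm
        _ = ∑ l : Fin r, ∑ ω, ∑ A ∈ 𝒮, ∑ k ∈ Finset.Iio l,
            (if 0 < G ω k A ∧ bad ω A k l then G ω l A else 0) := Finset.sum_comm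
        _ = ∑ l : Fin r, ∑ ω, ∑ k ∈ Finset.Iio l, ∑ A ∈ 𝒮,
            (if 0 < G ω k A ∧ bad ω A k l then G ω l A else 0) :=
            Finset.sum_congr rfl fun l _ => Finset.sum_congr rfl fun ω _ => Finset.sum_comm
        _ = _ := Finset.sum_congr rfl fun l _ => Finset.sum_comm
    rw [e1]
    calc ∑ l : Fin r, ∑ k ∈ Finset.Iio l, ∑ ω, ∑ A ∈ 𝒮,
          (if 0 < G ω k A ∧ bad ω A k l then G ω l A else 0)
        ≤ ∑ l : Fin r, ∑ k ∈ Finset.Iio l, δ ^ 2 / (4 * (r : ℝ) ^ 2) * Fintype.card Ω := by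
          refine Finset.sum_le_sum fun l _ => Finset.sum_le_sum fun k hk => ?_
          refine (h2 k l (Finset.mem_Iio.mp hk)).trans ?_
          refine mul_le_mul_of_nonneg_right ?_ hcard.le
          rw [le_div_iff₀ (by positivity)]
          linarith
      _ = (δ ^ 2 / (4 * (r : ℝ) ^ 2) * Fintype.card Ω) *
          ∑ l : Fin r, ((Finset.Iio l).card : ℝ) := by
          rw [Finset.mul_sum]
          refine Finset.sum_congr rfl fun l _ => ?_
          rw [Finset.sum_const, nsmul_eq_mul]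
          ring
      _ ≤ (δ ^ 2 / (4 * (r : ℝ) ^ 2) * Fintype.card Ω) * ((r : ℝ) ^ 2 / 2) :=
          mul_le_mul_of_nonneg_left (choice_pairs r) (by positivity)
      _ = δ ^ 2 / 8 * Fintype.card Ω := by
          field_simp
          ring
  -- the choice
  have hex : ∃ ω, ∃ A ∈ 𝒮, 0 < lam ω A ∧
      δ * r / 2 * lam ω A ≤ X ω A - 4 * r / δ * Y ω A := by
    by_contra hno
    push Not at hno
    have hle : ∀ ω, ∀ A ∈ 𝒮, X ω A - 4 * r / δ * Y ω A ≤ δ * r / 2 * lam ω A := by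
      intro ω A hA
      rcases (hlam ω A).lt_or_eq with h | h
      · exact (hno ω A hA h).le
      · have hG0 : ∀ l, G ω l A = 0 := by
          intro l
          have := hG ω l A hA
          rw [← h] at this
          exact le_antisymm this.2 this.1
        have hX0 : X ω A = 0 := Finset.sum_eq_zero fun l _ => hG0 l
        have hY0 : Y ω A = 0 := Finset.sum_eq_zero fun l _ => Finset.sum_eq_zero fun k _ => by
          rw [hG0 l, ite_self]
        rw [hX0, hY0, ← h]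
        simp
    obtain ⟨ω₀⟩ := hΩ
    have hpos : ∃ A ∈ 𝒮, 0 < lam ω₀ A := by
      by_contra hn
      push Not at hn
      have : ∑ A ∈ 𝒮, lam ω₀ A ≤ 0 := Finset.sum_nonpos hn
      rw [hlam1] at this
      linarith
    obtain ⟨A₀, hA₀, hpos₀⟩ := hpos
    have hlt : ∑ ω, ∑ A ∈ 𝒮, (X ω A - 4 * r / δ * Y ω A) <
        ∑ ω, ∑ A ∈ 𝒮, δ * r / 2 * lam ω A := by
      refine Finset.sum_lt_sum (fun ω _ => Finset.sum_le_sum fun A hA => hle ω A hA)
        ⟨ω₀, Finset.mem_univ _, ?_⟩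
      exact Finset.sum_lt_sum (fun A hA => hle ω₀ A hA) ⟨A₀, hA₀, hno ω₀ A₀ hA₀ hpos₀⟩
    have e2 : ∑ ω, ∑ A ∈ 𝒮, δ * r / 2 * lam ω A = δ * r / 2 * Fintype.card Ω := by
      calc ∑ ω, ∑ A ∈ 𝒮, δ * r / 2 * lam ω A = ∑ ω : Ω, δ * r / 2 := by
            refine Finset.sum_congr rfl fun ω _ => ?_
            rw [← Finset.mul_sum, hlam1, mul_one]
        _ = _ := by
            rw [Finset.sum_const, Finset.card_univ, nsmul_eq_mul]; ring
    have e3 : ∑ ω, ∑ A ∈ 𝒮, (X ω A - 4 * r / δ * Y ω A) =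
        ∑ ω, ∑ A ∈ 𝒮, X ω A - 4 * r / δ * ∑ ω, ∑ A ∈ 𝒮, Y ω A := by
      rw [Finset.mul_sum, ← Finset.sum_sub_distrib]
      refine Finset.sum_congr rfl fun ω _ => ?_
      rw [Finset.mul_sum, ← Finset.sum_sub_distrib]
    rw [e2, e3] at hlt
    have h5 : 4 * r / δ * ∑ ω, ∑ A ∈ 𝒮, Y ω A ≤ δ * r / 2 * Fintype.card Ω := by
      calc 4 * r / δ * ∑ ω, ∑ A ∈ 𝒮, Y ω A ≤ 4 * r / δ * (δ ^ 2 / 8 * Fintype.card Ω) :=
            mul_le_mul_of_nonneg_left hYs (by positivity)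
        _ = _ := by
            field_simp
            ring
    linarith
  obtain ⟨ω, A, hA, hl, hXY⟩ := hex
  have hYnn : ∀ l, ∀ k ∈ Finset.Iio l,
      0 ≤ (if 0 < G ω k A ∧ bad ω A k l then G ω l A else 0) := by
    intro l k _
    split_ifs
    · exact (hG ω l A hA).1
    · exact le_rfl
  have hXr : X ω A ≤ r * lam ω A := by
    calc X ω A ≤ ∑ l : Fin r, lam ω A := Finset.sum_le_sum fun l _ => (hG ω l A hA).2
      _ = _ := by rw [Finset.sum_const, Finset.card_univ, Fintype.card_fin, nsmul_eq_mul]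
  have hY0 : 0 ≤ Y ω A := Finset.sum_nonneg fun l _ => Finset.sum_nonneg (hYnn l)
  have hc0 : 0 ≤ 4 * r / δ * Y ω A := by positivity
  refine ⟨ω, A, hA, Finset.univ.filter (fun l => δ / 4 * lam ω A ≤ G ω l A), ?_, ?_, ?_⟩
  · set L₀ := Finset.univ.filter (fun l => δ / 4 * lam ω A ≤ G ω l A) with hL
    have h6 : X ω A ≤ L₀.card * lam ω A + r * (δ / 4 * lam ω A) := by
      calc X ω A = ∑ l ∈ L₀, G ω l A +
            ∑ l ∈ Finset.univ.filter (fun l => ¬ δ / 4 * lam ω A ≤ G ω l A), G ω l A :=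
            (Finset.sum_filter_add_sum_filter_not _ _ _).symm
        _ ≤ ∑ l ∈ L₀, lam ω A +
            ∑ l ∈ Finset.univ.filter (fun l => ¬ δ / 4 * lam ω A ≤ G ω l A),
              δ / 4 * lam ω A := by
            refine add_le_add (Finset.sum_le_sum fun l _ => (hG ω l A hA).2)
              (Finset.sum_le_sum fun l hl => ?_)
            exact (not_le.mp (Finset.mem_filter.mp hl).2).le
        _ ≤ L₀.card * lam ω A + ∑ l : Fin r, δ / 4 * lam ω A := by
            rw [Finset.sum_const, nsmul_eq_mul]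
            refine add_le_add le_rfl ?_
            exact Finset.sum_le_sum_of_subset_of_nonneg (Finset.filter_subset _ _)
              fun _ _ _ => by positivity
        _ = _ := by rw [Finset.sum_const, Finset.card_univ, Fintype.card_fin, nsmul_eq_mul]
    have h7 : δ * r / 2 * lam ω A ≤ (L₀.card + r * (δ / 4)) * lam ω A := by
      calc δ * r / 2 * lam ω A ≤ X ω A := by linarith
        _ ≤ _ := h6
        _ = _ := by ring
    have h8 : δ * r / 2 ≤ L₀.card + r * (δ / 4) := le_of_mul_le_mul_right h7 hl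
    have h9 : (m : ℝ) ≤ L₀.card := by linarith
    exact_mod_cast h9
  · intro l hl'
    exact lt_of_lt_of_le (by positivity) (Finset.mem_filter.mp hl').2
  · intro k hk l hl' hkl hbad
    have hGk : δ / 4 * lam ω A ≤ G ω k A := (Finset.mem_filter.mp hk).2
    have hGl : δ / 4 * lam ω A ≤ G ω l A := (Finset.mem_filter.mp hl').2
    have hGk0 : 0 < G ω k A := lt_of_lt_of_le (by positivity) hGk
    have hYge : G ω l A ≤ Y ω A := by
      calc G ω l A = (if 0 < G ω k A ∧ bad ω A k l then G ω l A else 0) := by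
            rw [if_pos ⟨hGk0, hbad⟩]
        _ ≤ ∑ k ∈ Finset.Iio l, (if 0 < G ω k A ∧ bad ω A k l then G ω l A else 0) :=
            Finset.single_le_sum (f := fun k =>
              (if 0 < G ω k A ∧ bad ω A k l then G ω l A else 0))
              (fun k hk => hYnn l k hk) (Finset.mem_Iio.mpr hkl)
        _ ≤ Y ω A := Finset.single_le_sum (f := fun l => ∑ k ∈ Finset.Iio l,
              (if 0 < G ω k A ∧ bad ω A k l then G ω l A else 0))
              (fun l _ => Finset.sum_nonneg (hYnn l)) (Finset.mem_univ l)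
    have h10 : r * lam ω A ≤ 4 * r / δ * Y ω A := by
      calc r * lam ω A = 4 * r / δ * (δ / 4 * lam ω A) := by
            field_simp
        _ ≤ _ := mul_le_mul_of_nonneg_left (hGl.trans hYge) (by positivity)
    have h11 : 0 < δ * r / 2 * lam ω A := by positivity
    linarith

end Pool.Agent.Comb7f333f.SPart
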