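import Pool.Agent.Lib.MP_7f333f_an.Siz.CDefs
import Pool.Agent.Lib.MP_7f333f_an.Siz.A1

set_option autoImplicit false

/-!
Module S12 (first part): there are few levels where the vectors are deep.
-/

namespace Pool.Agent.Comb7f333f.SPart

section Data

variable {sf : Siz} {C B₁ D B₂ Λ : ℝ} {r M : ℕ}

private theorem dc_cs {ι : Type*} (A : Finset ι) (u : ι → ℝ) :
    ∑ l ∈ A, u l ≤ Real.sqrt A.card * Real.sqrt (∑ l ∈ A, u l ^ 2) := by
  rw [← Real.sqrt_mul (Nat.cast_nonneg _)]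
  refine Real.le_sqrt_of_sq_le ?_
  have := sq_sum_le_card_mul_sum_sq (s := A) (f := u)
  exact this

theorem deep_card (d : CoreData sf C B₁ D B₂ Λ r M) (c : ℝ) (hc : 0 < c) (K : ℕ)
    (hK : 3 * B₂ ^ 2 / c ^ 2 < K) (ω : (l : Fin r) → Fin M × Fin (d.N l)) (x : ℕ)
    (L₀ : Finset (Fin r))
    (hL : ∀ k ∈ L₀, ∀ l ∈ L₀, k < l →
      deepAt sf (fun j : Fin M × Fin (d.N l) => d.v (Function.update ω l j) l) c K (d.f k) x) :
    L₀.card ≤ K := by
  classical
  by_contra hcon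
  push Not at hcon
  obtain ⟨L₁, hL₁, hcard⟩ := Finset.exists_subset_card_eq (show K + 1 ≤ L₀.card from hcon)
  have hK0 : 0 < K := by
    have h0 : (0 : ℝ) ≤ 3 * B₂ ^ 2 / c ^ 2 := by positivity
    have h1 : (0 : ℝ) < K := lt_of_le_of_lt h0 hK
    exact_mod_cast h1
  have hne : L₁.Nonempty := Finset.card_pos.mp (by omega)
  set A : Finset (Fin r) := L₁.erase (L₁.min' hne) with hA
  have hAcard : A.card = K := by
    rw [hA, Finset.card_erase_of_mem (L₁.min'_mem hne), hcard]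
    rfl
  have hprev : ∀ l ∈ A, (L₁.filter (fun k => k < l)).Nonempty := by
    intro l hl
    refine ⟨L₁.min' hne, Finset.mem_filter.mpr ⟨L₁.min'_mem hne, ?_⟩⟩
    exact lt_of_le_of_ne (L₁.min'_le l (Finset.mem_of_mem_erase hl))
      (Ne.symm (Finset.ne_of_mem_erase hl))
  set π : Fin r → Fin r := fun l =>
    if h : (L₁.filter (fun k => k < l)).Nonempty then (L₁.filter (fun k => k < l)).max' h
    else l with hπ
  have hπmem : ∀ l ∈ A, π l ∈ L₁ ∧ π l < l := by
    intro l hl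
    have h1 : π l = (L₁.filter (fun k => k < l)).max' (hprev l hl) := by
      simp only [hπ]
      rw [dif_pos (hprev l hl)]
    have h2 := Finset.max'_mem _ (hprev l hl)
    rw [← h1] at h2
    exact ⟨(Finset.mem_filter.mp h2).1, (Finset.mem_filter.mp h2).2⟩
  have hπmax : ∀ l' ∈ A, ∀ l ∈ A, l' < l → l' ≤ π l := by
    intro l' hl' l hl hlt
    have h1 : π l = (L₁.filter (fun k => k < l)).max' (hprev l hl) := by
      simp only [hπ]
      rw [dif_pos (hprev l hl)]
    rw [h1]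
    exact Finset.le_max' _ _ (Finset.mem_filter.mpr ⟨Finset.mem_of_mem_erase hl', hlt⟩)
  have hdeep : ∀ l ∈ A, deepAt sf (fun j : Fin M × Fin (d.N l) =>
      d.v (Function.update ω l j) l) c K (d.f (π l)) x := fun l hl =>
    hL _ (hL₁ (hπmem l hl).1) l (hL₁ (Finset.mem_of_mem_erase hl)) (hπmem l hl).2
  -- the choices
  obtain ⟨l₀, hl₀⟩ : A.Nonempty := Finset.card_pos.mp (by omega)
  have hM : Nonempty (Fin M) := ⟨(hdeep l₀ hl₀).choose⟩
  have hch : ∀ l : Fin r, ∃ (a : Fin M) (I : Finset (Fin (d.N l))) (T : Finset ℕ), l ∈ A →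
      (I.card = d.f (π l) ∧ (∀ s ∈ T, x ≤ s) ∧ K * T.card ≤ sf.f x ∧
      c * d.f (π l) ≤ ∑ s ∈ T, Real.sqrt (∑ ν ∈ I,
        d.v (Function.update ω l (a, ν)) l s ^ 2)) := by
    intro l
    by_cases hl : l ∈ A
    · obtain ⟨a, I, hI, T, hT, hTc, hs⟩ := hdeep l hl
      exact ⟨a, I, T, fun _ => ⟨hI, hT, hTc, hs⟩⟩
    · exact ⟨hM.some, ∅, ∅, fun h => absurd h hl⟩
  choose a I T hch using hch
  set U : Finset ℕ := A.biUnion T with hU
  have hUx : ∀ s ∈ U, x ≤ s := by
    intro s hs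
    obtain ⟨l, hl, hs⟩ := Finset.mem_biUnion.mp hs
    exact (hch l hl).2.1 s hs
  have hUc : U.card ≤ sf.f x := by
    have h1 : K * U.card ≤ K * sf.f x := by
      calc K * U.card ≤ K * ∑ l ∈ A, (T l).card := Nat.mul_le_mul_left _ Finset.card_biUnion_le
        _ = ∑ l ∈ A, K * (T l).card := by rw [Finset.mul_sum]
        _ ≤ ∑ l ∈ A, sf.f x := Finset.sum_le_sum fun l hl => (hch l hl).2.2.1
        _ = K * sf.f x := by rw [Finset.sum_const, hAcard, smul_eq_mul]
    exact Nat.le_of_mul_le_mul_left h1 hK0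
  have hUsz : U ∈ sz sf := fun k hk => hUc.trans (sf.mono (hUx k hk))
  -- the upper bound
  have hfpos : ∀ l, (0 : ℝ) < d.f (π l) := fun l => by exact_mod_cast d.f_pos (π l)
  have hup := SB_sqrt (sf := sf) (A.sigma I)
    (fun (i : (l : Fin r) × Fin (d.N l)) s => (1 / (d.f (π i.1) : ℝ)) *
      d.v (Function.update ω i.1 (a i.1, i.2)) i.1 s) B₂ (by
    intro θ hθ
    have h5 := d.h5 ω A π (fun l hl => (hπmem l hl).2) hπmax a I
      (fun l hl => (hch l hl).1) (fun l ν => θ ⟨l, ν⟩) (fun l ν => hθ ⟨l, ν⟩)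
    have e : (fun s => ∑ i ∈ A.sigma I, θ i * ((1 / (d.f (π i.1) : ℝ)) *
        d.v (Function.update ω i.1 (a i.1, i.2)) i.1 s)) =
        (fun s => ∑ l ∈ A, (1 / (d.f (π l) : ℝ)) *
        ∑ ν ∈ I l, θ ⟨l, ν⟩ * d.v (Function.update ω l (a l, ν)) l s) := by
      funext s
      rw [Finset.sum_sigma]
      refine Finset.sum_congr rfl fun l _ => ?_
      rw [Finset.mul_sum]
      refine Finset.sum_congr rfl fun ν _ => ?_
      ring
    rw [e]
    exact h5) U hUsz
  -- the lower bound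
  set u : Fin r → ℕ → ℝ := fun l s => (1 / (d.f (π l) : ℝ)) *
    Real.sqrt (∑ ν ∈ I l, d.v (Function.update ω l (a l, ν)) l s ^ 2) with hu
  have hu0 : ∀ l s, 0 ≤ u l s := fun l s => by
    simp only [hu]
    have := hfpos l
    positivity
  have hus : ∀ s, ∑ i ∈ A.sigma I, ((1 / (d.f (π i.1) : ℝ)) *
      d.v (Function.update ω i.1 (a i.1, i.2)) i.1 s) ^ 2 = ∑ l ∈ A, u l s ^ 2 := by
    intro s
    rw [Finset.sum_sigma]
    refine Finset.sum_congr rfl fun l _ => ?_
    simp only [hu]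
    rw [mul_pow, Real.sq_sqrt (Finset.sum_nonneg fun _ _ => sq_nonneg _), Finset.mul_sum]
    refine Finset.sum_congr rfl fun ν _ => ?_
    rw [mul_pow]
  have hlow : (K : ℝ) * c ≤ Real.sqrt K * (Real.sqrt 3 * B₂) := by
    calc (K : ℝ) * c = ∑ l ∈ A, c := by rw [Finset.sum_const, hAcard, nsmul_eq_mul]
      _ ≤ ∑ l ∈ A, ∑ s ∈ T l, u l s := by
          refine Finset.sum_le_sum fun l hl => ?_
          simp only [hu]
          rw [← Finset.mul_sum, one_div, ← div_eq_inv_mul, le_div_iff₀ (hfpos l)]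
          exact (hch l hl).2.2.2
      _ ≤ ∑ l ∈ A, ∑ s ∈ U, u l s := by
          refine Finset.sum_le_sum fun l hl => ?_
          exact Finset.sum_le_sum_of_subset_of_nonneg
            (Finset.subset_biUnion_of_mem T hl) fun s _ _ => hu0 l s
      _ = ∑ s ∈ U, ∑ l ∈ A, u l s := Finset.sum_comm
      _ ≤ ∑ s ∈ U, Real.sqrt K * Real.sqrt (∑ l ∈ A, u l s ^ 2) := by
          refine Finset.sum_le_sum fun s _ => ?_
          have := dc_cs A (fun l => u l s)
          rw [hAcard] at this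
          exact this
      _ = Real.sqrt K * ∑ s ∈ U, Real.sqrt (∑ l ∈ A, u l s ^ 2) := by rw [Finset.mul_sum]
      _ ≤ Real.sqrt K * (Real.sqrt 3 * B₂) := by
          refine mul_le_mul_of_nonneg_left ?_ (Real.sqrt_nonneg _)
          refine le_trans (le_of_eq ?_) hup
          refine Finset.sum_congr rfl fun s _ => ?_
          rw [abs_of_nonneg (Real.sqrt_nonneg _), hus s]
  have hKr : (0 : ℝ) < K := by exact_mod_cast hK0
  have h1 : Real.sqrt K * c ≤ Real.sqrt 3 * B₂ := by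
    have h2 : Real.sqrt K * (Real.sqrt K * c) ≤ Real.sqrt K * (Real.sqrt 3 * B₂) := by
      rw [← mul_assoc, Real.mul_self_sqrt hKr.le]
      exact hlow
    exact le_of_mul_le_mul_left h2 (Real.sqrt_pos.mpr hKr)
  have h3 : (K : ℝ) * c ^ 2 ≤ 3 * B₂ ^ 2 := by
    have h4 : 0 ≤ Real.sqrt K * c := by positivity
    have h5 := pow_le_pow_left₀ h4 h1 2
    rw [mul_pow, mul_pow, Real.sq_sqrt hKr.le, Real.sq_sqrt (by norm_num)] at h5
    exact h5
  rw [div_lt_iff₀ (by positivity)] at hK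
  linarith

end Data

end Pool.Agent.Comb7f333f.SPart
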