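import Pool.Agent.Lib.MP_7f333f_an.Siz.Words
import Pool.Agent.Lib.MP_7f333f_an.Siz.DeepCard

set_option autoImplicit false

/-!
Module S12: the finite theorem.
-/

namespace Pool.Agent.Comb7f333f.SPart

/-- The finite theorem (uses `exists_choice`, `deep_card`). -/
theorem core (C B₁ D B₂ : ℝ) (hC : 1 ≤ C) (hB : 1 ≤ B₁) (_hD : 0 < D) (hB₂ : 0 < B₂) :
    ∃ (r M : ℕ) (Λ : ℝ), 1 ≤ r ∧ 1 ≤ M ∧ 0 < Λ ∧
      ∀ sf : Siz, IsEmpty (CoreData sf C B₁ D B₂ Λ r M) := by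
  have hep : 0 < ep C B₁ := by unfold ep; positivity
  have hdl : 0 < dl C B₁ := by unfold dl; positivity
  have hc0 : 0 < c0 B₁ := by unfold c0; positivity
  have he0 : 0 < e0 C B₁ := by unfold e0; positivity
  have hc : 0 < ep C B₁ * c0 B₁ := mul_pos hep hc0
  obtain ⟨K, hK⟩ := exists_nat_gt (3 * B₂ ^ 2 / (ep C B₁ * c0 B₁) ^ 2)
  have hK1 : 1 ≤ K := by
    have h1 : (0 : ℝ) < K := lt_of_le_of_lt (by positivity) hK
    exact_mod_cast h1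
  obtain ⟨K₁, hK₁⟩ := exists_nat_ge (16 / (dl C B₁ * ep C B₁ ^ 2))
  obtain ⟨K2, hK2⟩ := exists_nat_gt (3 * D ^ 2 / c0 B₁ ^ 2)
  obtain ⟨r, hr⟩ := exists_nat_ge (8 * ((K + 1 : ℕ) : ℝ) / dl C B₁)
  have hr' : 8 * ((K + 1 : ℕ) : ℝ) ≤ dl C B₁ * r := by
    rw [div_le_iff₀ hdl] at hr
    linarith
  have hr1 : 1 ≤ r := by
    have h1 : (0 : ℝ) < r := by
      have h2 : (0 : ℝ) < dl C B₁ * r := lt_of_lt_of_le (by positivity) hr'
      exact (pos_iff_pos_of_mul_pos h2).mp hdl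
    exact_mod_cast h1
  obtain ⟨M, hM⟩ := exists_nat_ge (max 1 (32 * (r : ℝ) ^ 2 * K2 / dl C B₁ ^ 2))
  have hM1 : 1 ≤ M := by
    have h1 : (1 : ℝ) ≤ M := (le_max_left _ _).trans hM
    exact_mod_cast h1
  have hM2 : 32 * (r : ℝ) ^ 2 * K2 ≤ dl C B₁ ^ 2 * M := by
    have h1 := (le_max_right _ _).trans hM
    rw [div_le_iff₀ (by positivity)] at h1
    linarith
  refine ⟨r, M, max ((K₁ * K2 ^ 2 * K : ℝ)) (max ((K * K₁ : ℝ)) (1 / e0 C B₁)), hr1, hM1,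
    lt_of_lt_of_le (by positivity) ((le_max_right _ _).trans (le_max_right _ _)),
    fun sf => ⟨fun d => ?_⟩⟩
  obtain ⟨ω, A, hA, L₀, hL, hdeep⟩ := exists_choice d hC hB hM1 K₁ K K2 hK₁ hK1 hK2
    (le_max_left _ _) ((le_max_left _ _).trans (le_max_right _ _))
    ((le_max_right _ _).trans (le_max_right _ _)) (K + 1) hr1 hr' hM2
  have h1 := deep_card d (ep C B₁ * c0 B₁) hc K hK ω (mn A) L₀ hdeep
  omega

end Pool.Agent.Comb7f333f.SPart
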