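import Pool.Agent.Lib.MP_7f333f_an.Siz.CDefs

set_option autoImplicit false
set_option linter.unusedSectionVars false
set_option linter.unusedVariables false

/-!
Module S2: basic facts on the coupling.
-/

namespace Pool.Agent.Comb7f333f.SPart

section aux

theorem coup_mg_nonneg {𝒮 : Finset (Finset ℕ)} {lam : Finset ℕ → ℝ} (h : ∀ A, 0 ≤ lam A)
    (s : ℕ) : 0 ≤ mg 𝒮 lam s :=
  Finset.sum_nonneg fun A _ => h A

theorem coup_lt_Z {sf : Siz} {Z : ℕ} {A : Finset ℕ} (hA : A ∈ sets sf Z) {s : ℕ} (hs : s ∈ A) :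
    s < Z := by
  classical
  unfold sets at hA
  rw [Finset.mem_filter, Finset.mem_powerset] at hA
  exact Finset.mem_range.mp (hA.1 hs)

theorem coup_mem_sz {sf : Siz} {Z : ℕ} {A : Finset ℕ} (hA : A ∈ sets sf Z) : A ∈ sz sf := by
  classical
  unfold sets at hA
  exact (Finset.mem_filter.mp hA).2

open scoped Classical in
/-- the part of the marginal coming from the sets with the property `P` -/
theorem coup_part_le {𝒮 : Finset (Finset ℕ)} {lam : Finset ℕ → ℝ} (h : ∀ A, 0 ≤ lam A)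
    (s : ℕ) (P : Finset ℕ → Prop) :
    ∑ A ∈ 𝒮.filter (fun A => s ∈ A ∧ P A), lam A ≤ mg 𝒮 lam s := by
  unfold mg
  refine Finset.sum_le_sum_of_subset_of_nonneg ?_ fun A _ _ => h A
  intro A hA
  rw [Finset.mem_filter] at hA ⊢
  exact ⟨hA.1, hA.2.1⟩

open scoped Classical in
theorem coup_part_div_le {𝒮 : Finset (Finset ℕ)} {lam : Finset ℕ → ℝ} (h : ∀ A, 0 ≤ lam A)
    (s : ℕ) (P : Finset ℕ → Prop) :
    (∑ A ∈ 𝒮.filter (fun A => s ∈ A ∧ P A), lam A) / mg 𝒮 lam s ≤ 1 :=
  div_le_one_of_le₀ (coup_part_le h s P) (coup_mg_nonneg h s)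

open scoped Classical in
theorem coup_part_div_nonneg {𝒮 : Finset (Finset ℕ)} {lam : Finset ℕ → ℝ} (h : ∀ A, 0 ≤ lam A)
    (s : ℕ) (P : Finset ℕ → Prop) :
    0 ≤ (∑ A ∈ 𝒮.filter (fun A => s ∈ A ∧ P A), lam A) / mg 𝒮 lam s :=
  div_nonneg (Finset.sum_nonneg fun A _ => h A) (coup_mg_nonneg h s)

/-- integration of a function against the marginal -/
theorem coup_mg_swap {𝒮 : Finset (Finset ℕ)} (lam : Finset ℕ → ℝ) (T : Finset ℕ) (g : ℕ → ℝ) :
    ∑ s ∈ T, mg 𝒮 lam s * g s = ∑ A ∈ 𝒮, lam A * ∑ s ∈ T ∩ A, g s := by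
  classical
  unfold mg
  simp only [Finset.sum_mul, Finset.mul_sum, Finset.sum_filter]
  rw [Finset.sum_comm]
  refine Finset.sum_congr rfl fun A _ => ?_
  simp only [ite_mul, zero_mul]
  rw [← Finset.sum_filter, Finset.filter_mem_eq_inter]

end aux

section Lev

variable {sf : Siz} {Z : ℕ} {C B₁ : ℝ} {J : Type} [Fintype J] (L : Lev sf Z C B₁ J)

namespace Lev

theorem er_nonneg (hC : 1 ≤ C) (hB : 1 ≤ B₁) (j : J) (s : ℕ) : 0 ≤ L.er j s :=
  div_nonneg (abs_nonneg _) (mul_nonneg (by linarith) (coup_mg_nonneg (L.lam_nonneg j) s))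

theorem er_le_one (hC : 1 ≤ C) (hB : 1 ≤ B₁) (j : J) (s : ℕ) (hs : s < Z) : L.er j s ≤ 1 :=
  div_le_one_of_le₀ (L.hr j s hs) (mul_nonneg (by linarith) (coup_mg_nonneg (L.lam_nonneg j) s))

theorem ej_nonneg (hC : 1 ≤ C) (hB : 1 ≤ B₁) (j : J) (s : ℕ) : 0 ≤ L.ej j s :=
  div_nonneg (abs_nonneg _) (mul_nonneg (by linarith) (coup_mg_nonneg L.gam_nonneg s))

theorem sum_ej_sq_le (hC : 1 ≤ C) (hB : 1 ≤ B₁) (s : ℕ) (hs : s < Z) :
    ∑ j, L.ej j s ^ 2 ≤ 1 := by
  have hD : 0 ≤ B₁ * mg (sets sf Z) L.gam s :=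
    mul_nonneg (by linarith) (coup_mg_nonneg L.gam_nonneg s)
  have h1 : ∑ j, L.ej j s ^ 2 = (∑ j, L.ζ j s ^ 2) / (B₁ * mg (sets sf Z) L.gam s) ^ 2 := by
    rw [Finset.sum_div]
    refine Finset.sum_congr rfl fun j _ => ?_
    unfold ej
    rw [div_pow, sq_abs]
  rw [h1]
  refine div_le_one_of_le₀ ?_ (sq_nonneg _)
  have h2 := L.hj s hs
  have h3 : 0 ≤ ∑ j, L.ζ j s ^ 2 := Finset.sum_nonneg fun j _ => sq_nonneg _
  calc ∑ j, L.ζ j s ^ 2 = Real.sqrt (∑ j, L.ζ j s ^ 2) ^ 2 := (Real.sq_sqrt h3).symm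
    _ ≤ (B₁ * mg (sets sf Z) L.gam s) ^ 2 := by
        exact pow_le_pow_left₀ (Real.sqrt_nonneg _) h2 2

theorem ej_le_one (hC : 1 ≤ C) (hB : 1 ≤ B₁) (j : J) (s : ℕ) (hs : s < Z) : L.ej j s ≤ 1 := by
  have h1 := L.sum_ej_sq_le hC hB s hs
  have h2 : L.ej j s ^ 2 ≤ ∑ j, L.ej j s ^ 2 :=
    Finset.single_le_sum (f := fun j => L.ej j s ^ 2) (fun j _ => sq_nonneg _) (Finset.mem_univ j)
  have h3 := L.ej_nonneg hC hB j s
  nlinarith

theorem kp_nonneg (hC : 1 ≤ C) (hB : 1 ≤ B₁) (j : J) (A A' : Finset ℕ) : 0 ≤ L.kp j A A' := by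
  unfold kp
  refine mul_nonneg (by positivity) (Finset.sum_nonneg fun s _ => ?_)
  have h1 := L.lam_nonneg j A
  have h2 := L.gam_nonneg A'
  have h3 := coup_mg_nonneg (𝒮 := sets sf Z) (L.lam_nonneg j) s
  have h4 := coup_mg_nonneg (𝒮 := sets sf Z) L.gam_nonneg s
  positivity

open scoped Classical in
/-- The mass of the pairs of a given `A`. -/
theorem sum_kp_r (hC : 1 ≤ C) (hB : 1 ≤ B₁) (j : J) (A : Finset ℕ) (hA : A ∈ sets sf Z)
    (P : Finset ℕ → Prop) :
    ∑ A' ∈ (sets sf Z).filter P, L.kp j A A' = L.lam j A / C *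
      ∑ s ∈ A ∩ L.S j, L.er j s * |L.v j s| *
        ((∑ A' ∈ (sets sf Z).filter (fun A' => s ∈ A' ∧ P A'), L.gam A') /
          mg (sets sf Z) L.gam s) := by
  have h1 : ∀ A', L.kp j A A' = ∑ s ∈ A ∩ L.S j, if s ∈ A' then
      (1 / (B₁ * C)) * (|L.ζ j s| * |L.v j s| * L.lam j A * L.gam A' /
        (mg (sets sf Z) (L.lam j) s * mg (sets sf Z) L.gam s)) else 0 := by
    intro A'
    unfold kp
    rw [Finset.mul_sum, ← Finset.sum_filter]
    refine Finset.sum_congr ?_ fun s _ => rfl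
    ext s
    simp only [Finset.mem_inter, Finset.mem_filter]
    tauto
  rw [Finset.sum_congr rfl fun A' _ => h1 A', Finset.sum_comm, Finset.mul_sum]
  refine Finset.sum_congr rfl fun s _ => ?_
  rw [← Finset.sum_filter, Finset.filter_filter]
  have h2 : (sets sf Z).filter (fun A' => P A' ∧ s ∈ A') =
      (sets sf Z).filter (fun A' => s ∈ A' ∧ P A') := by
    refine Finset.filter_congr fun A' _ => ?_
    tauto
  rw [h2, ← Finset.mul_sum, ← Finset.sum_div, ← Finset.mul_sum]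
  unfold er
  rw [one_div]
  simp only [div_eq_mul_inv, mul_inv]
  ring

open scoped Classical in
/-- The mass of the pairs of a given `A'`. -/
theorem sum_kp_j (hC : 1 ≤ C) (hB : 1 ≤ B₁) (j : J) (A' : Finset ℕ) (hA' : A' ∈ sets sf Z)
    (P : Finset ℕ → Prop) :
    ∑ A ∈ (sets sf Z).filter P, L.kp j A A' = L.gam A' / C *
      ∑ s ∈ A' ∩ L.S j, L.ej j s * |L.v j s| *
        ((∑ A ∈ (sets sf Z).filter (fun A => s ∈ A ∧ P A), L.lam j A) /
          mg (sets sf Z) (L.lam j) s) := by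
  have h1 : ∀ A, L.kp j A A' = ∑ s ∈ A' ∩ L.S j, if s ∈ A then
      (1 / (B₁ * C)) * (|L.ζ j s| * |L.v j s| * L.gam A' * L.lam j A /
        (mg (sets sf Z) (L.lam j) s * mg (sets sf Z) L.gam s)) else 0 := by
    intro A
    unfold kp
    rw [Finset.mul_sum, ← Finset.sum_filter]
    refine Finset.sum_congr ?_ fun s _ => ?_
    · ext s
      simp only [Finset.mem_inter, Finset.mem_filter]
      tauto
    · rw [mul_right_comm (|L.ζ j s| * |L.v j s|)]
  rw [Finset.sum_congr rfl fun A _ => h1 A, Finset.sum_comm, Finset.mul_sum]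
  refine Finset.sum_congr rfl fun s _ => ?_
  rw [← Finset.sum_filter, Finset.filter_filter]
  have h2 : (sets sf Z).filter (fun A => P A ∧ s ∈ A) =
      (sets sf Z).filter (fun A => s ∈ A ∧ P A) := by
    refine Finset.filter_congr fun A _ => ?_
    tauto
  rw [h2, ← Finset.mul_sum, ← Finset.sum_div, ← Finset.mul_sum]
  unfold ej
  rw [one_div]
  simp only [div_eq_mul_inv, mul_inv]
  ring

/-- a sum of the values of `v j` over a part of a set of the family -/
theorem coup_sum_v_le (j : J) {A T : Finset ℕ} (hA : A ∈ sets sf Z) (hT : T ⊆ A) :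
    ∑ s ∈ T, |L.v j s| ≤ C :=
  (Finset.sum_le_sum_of_subset_of_nonneg hT fun s _ _ => abs_nonneg _).trans
    (L.hv j A (coup_mem_sz hA))

open scoped Classical in
theorem coup_r_le (hC : 1 ≤ C) (hB : 1 ≤ B₁) (j : J) (A : Finset ℕ) (hA : A ∈ sets sf Z)
    (P : Finset ℕ → Prop) :
    ∑ A' ∈ (sets sf Z).filter P, L.kp j A A' ≤ L.lam j A := by
  rw [L.sum_kp_r hC hB j A hA P]
  have hC0 : 0 < C := by linarith
  have h2 : ∑ s ∈ A ∩ L.S j, L.er j s * |L.v j s| *
      ((∑ A' ∈ (sets sf Z).filter (fun A' => s ∈ A' ∧ P A'), L.gam A') /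
        mg (sets sf Z) L.gam s) ≤ C := by
    refine le_trans (Finset.sum_le_sum fun s hs => ?_)
      (L.coup_sum_v_le j hA (Finset.inter_subset_left (s₂ := L.S j)))
    have h3 := L.er_le_one hC hB j s (coup_lt_Z hA (Finset.mem_inter.mp hs).1)
    have h4 := L.er_nonneg hC hB j s
    have h5 := coup_part_div_le (𝒮 := sets sf Z) L.gam_nonneg s P
    have h6 := coup_part_div_nonneg (𝒮 := sets sf Z) L.gam_nonneg s P
    have h7 := abs_nonneg (L.v j s)
    calc L.er j s * |L.v j s| * _ ≤ L.er j s * |L.v j s| * 1 := by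
          exact mul_le_mul_of_nonneg_left h5 (mul_nonneg h4 h7)
      _ ≤ 1 * |L.v j s| * 1 := by gcongr
      _ = |L.v j s| := by ring
  refine (mul_le_mul_of_nonneg_left h2 (div_nonneg (L.lam_nonneg j A) hC0.le)).trans ?_
  rw [div_mul_cancel₀ _ hC0.ne']

/-- The mass of the pairs of a given `A` is at most `lam j A`. -/
theorem sum_kp_r_le (hC : 1 ≤ C) (hB : 1 ≤ B₁) (j : J) (A : Finset ℕ) (hA : A ∈ sets sf Z) :
    ∑ A' ∈ sets sf Z, L.kp j A A' ≤ L.lam j A := by
  classical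
  have h1 := L.coup_r_le hC hB j A hA (fun _ => True)
  simpa using h1

open scoped Classical in
theorem coup_j_le (hC : 1 ≤ C) (hB : 1 ≤ B₁) (j : J) (A' : Finset ℕ) (hA' : A' ∈ sets sf Z)
    (P : Finset ℕ → Prop) :
    ∑ A ∈ (sets sf Z).filter P, L.kp j A A' ≤ L.gam A' := by
  rw [L.sum_kp_j hC hB j A' hA' P]
  have hC0 : 0 < C := by linarith
  have h2 : ∑ s ∈ A' ∩ L.S j, L.ej j s * |L.v j s| *
      ((∑ A ∈ (sets sf Z).filter (fun A => s ∈ A ∧ P A), L.lam j A) /
        mg (sets sf Z) (L.lam j) s) ≤ C := by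
    refine le_trans (Finset.sum_le_sum fun s hs => ?_)
      (L.coup_sum_v_le j hA' (Finset.inter_subset_left (s₂ := L.S j)))
    have h3 := L.ej_le_one hC hB j s (coup_lt_Z hA' (Finset.mem_inter.mp hs).1)
    have h4 := L.ej_nonneg hC hB j s
    have h5 := coup_part_div_le (𝒮 := sets sf Z) (L.lam_nonneg j) s P
    have h6 := coup_part_div_nonneg (𝒮 := sets sf Z) (L.lam_nonneg j) s P
    have h7 := abs_nonneg (L.v j s)
    calc L.ej j s * |L.v j s| * _ ≤ L.ej j s * |L.v j s| * 1 := by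
          exact mul_le_mul_of_nonneg_left h5 (mul_nonneg h4 h7)
      _ ≤ 1 * |L.v j s| * 1 := by gcongr
      _ = |L.v j s| := by ring
  refine (mul_le_mul_of_nonneg_left h2 (div_nonneg (L.gam_nonneg A') hC0.le)).trans ?_
  rw [div_mul_cancel₀ _ hC0.ne']

/-- The mass of the pairs of a given `A'` is at most `gam A'`. -/
theorem sum_kp_j_le (hC : 1 ≤ C) (hB : 1 ≤ B₁) (j : J) (A' : Finset ℕ) (hA' : A' ∈ sets sf Z) :
    ∑ A ∈ sets sf Z, L.kp j A A' ≤ L.gam A' := by
  classical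
  have h1 := L.coup_j_le hC hB j A' hA' (fun _ => True)
  simpa using h1

open scoped Classical in
/-- the version with a predicate which always holds -/
theorem coup_r_all (hC : 1 ≤ C) (hB : 1 ≤ B₁) (j : J) (A : Finset ℕ) (hA : A ∈ sets sf Z)
    (P : Finset ℕ → Prop) (hP : ∀ A, P A)
    (hS : ∀ s ∈ L.S j, mg (sets sf Z) L.gam s ≠ 0) :
    ∑ A' ∈ sets sf Z, L.kp j A A' = L.lam j A * ∑ s ∈ L.S j ∩ A, L.er j s * |L.v j s| / C := by
  have h2 := L.sum_kp_r hC hB j A hA P
  rw [Finset.filter_true_of_mem (fun A _ => hP A)] at h2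
  rw [h2, div_mul_eq_mul_div, mul_div_assoc, Finset.sum_div, Finset.inter_comm]
  congr 1
  refine Finset.sum_congr rfl fun s hs => ?_
  have h4 : (sets sf Z).filter (fun A' => s ∈ A' ∧ P A') =
      (sets sf Z).filter (fun A' => s ∈ A') := by
    refine Finset.filter_congr fun A' _ => ?_
    simp [hP A']
  have h5 : ∑ A' ∈ (sets sf Z).filter (fun A' => s ∈ A'), L.gam A' =
      mg (sets sf Z) L.gam s := by
    unfold mg
    refine Finset.sum_congr ?_ fun _ _ => rfl
    ext A'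
    simp
  rw [h4, h5, div_self (hS s (Finset.mem_inter.mp hs).1), mul_one]

/-- the mass of `|ζ| |v|` is at least `1 / 4` on `S j` -/
theorem coup_S_mass (hC : 1 ≤ C) (hB : 1 ≤ B₁) (j : J) :
    1 / 4 ≤ ∑ s ∈ L.S j, |L.ζ j s| * |L.v j s| := by
  classical
  have hB0 : 0 < B₁ := by linarith
  have hC0 : 0 < C := by linarith
  have hep : ep C B₁ * B₁ * C = 1 / 8 := by
    unfold ep
    field_simp
  have hep0 : 0 < ep C B₁ := by unfold ep; positivity
  -- the two bad parts
  have hpart : ∀ m : Finset ℕ → ℝ, (∀ A, 0 ≤ m A) → ∑ A ∈ sets sf Z, m A = 1 →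
      ∑ s ∈ Finset.range Z, ep C B₁ * B₁ * (mg (sets sf Z) m s * |L.v j s|) ≤ 1 / 8 := by
    intro m hm hm1
    rw [← Finset.mul_sum, coup_mg_swap]
    have h1 : ∑ A ∈ sets sf Z, m A * ∑ s ∈ Finset.range Z ∩ A, |L.v j s| ≤ C := by
      calc ∑ A ∈ sets sf Z, m A * ∑ s ∈ Finset.range Z ∩ A, |L.v j s|
          ≤ ∑ A ∈ sets sf Z, m A * C := by
            refine Finset.sum_le_sum fun A hA => ?_
            exact mul_le_mul_of_nonneg_left
              (L.coup_sum_v_le j hA Finset.inter_subset_right) (hm A)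
        _ = C := by rw [← Finset.sum_mul, hm1, one_mul]
    calc ep C B₁ * B₁ * _ ≤ ep C B₁ * B₁ * C :=
          mul_le_mul_of_nonneg_left h1 (by positivity)
      _ = 1 / 8 := hep
  have hlow : ∀ s ∈ Finset.range Z, |L.ζ j s| * |L.v j s| ≤
      (if s ∈ L.S j then |L.ζ j s| * |L.v j s| else 0) +
      (ep C B₁ * B₁ * (mg (sets sf Z) (L.lam j) s * |L.v j s|) +
        ep C B₁ * B₁ * (mg (sets sf Z) L.gam s * |L.v j s|)) := by
    intro s hs
    have hsZ : s < Z := Finset.mem_range.mp hs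
    have hv0 := abs_nonneg (L.v j s)
    have hm1 := coup_mg_nonneg (𝒮 := sets sf Z) (L.lam_nonneg j) s
    have hm2 := coup_mg_nonneg (𝒮 := sets sf Z) L.gam_nonneg s
    have hn1 : 0 ≤ ep C B₁ * B₁ * (mg (sets sf Z) (L.lam j) s * |L.v j s|) := by positivity
    have hn2 : 0 ≤ ep C B₁ * B₁ * (mg (sets sf Z) L.gam s * |L.v j s|) := by positivity
    by_cases hS : s ∈ L.S j
    · rw [if_pos hS]
      linarith
    · rw [if_neg hS, zero_add]
      have hS' : L.er j s < ep C B₁ ∨ L.ej j s < ep C B₁ := by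
        by_contra hcon
        push Not at hcon
        apply hS
        unfold S
        rw [Finset.mem_filter]
        exact ⟨hs, hcon.1, hcon.2⟩
      rcases hS' with h1 | h1
      · have h2 : |L.ζ j s| ≤ ep C B₁ * B₁ * mg (sets sf Z) (L.lam j) s := by
          rcases hm1.lt_or_eq with hpos | hzero
          · unfold er at h1
            rw [div_lt_iff₀ (by positivity)] at h1
            linarith
          · have h3 := L.hr j s hsZ
            rw [← hzero] at h3 ⊢
            linarith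
        have h4 : |L.ζ j s| * |L.v j s| ≤
            ep C B₁ * B₁ * (mg (sets sf Z) (L.lam j) s * |L.v j s|) := by
          rw [← mul_assoc]
          exact mul_le_mul_of_nonneg_right h2 hv0
        linarith
      · have h2 : |L.ζ j s| ≤ ep C B₁ * B₁ * mg (sets sf Z) L.gam s := by
          rcases hm2.lt_or_eq with hpos | hzero
          · unfold ej at h1
            rw [div_lt_iff₀ (by positivity)] at h1
            linarith
          · have h3 := L.hj s hsZ
            rw [← hzero] at h3 ⊢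
            have h5 : |L.ζ j s| ≤ Real.sqrt (∑ j, L.ζ j s ^ 2) := by
              refine Real.abs_le_sqrt ?_
              exact Finset.single_le_sum (f := fun j => L.ζ j s ^ 2) (fun j _ => sq_nonneg _)
                (Finset.mem_univ j)
            linarith
        have h4 : |L.ζ j s| * |L.v j s| ≤
            ep C B₁ * B₁ * (mg (sets sf Z) L.gam s * |L.v j s|) := by
          rw [← mul_assoc]
          exact mul_le_mul_of_nonneg_right h2 hv0
        linarith
  have hsum := Finset.sum_le_sum hlow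
  rw [Finset.sum_add_distrib, Finset.sum_add_distrib, ← Finset.sum_filter] at hsum
  have hfil : (Finset.range Z).filter (fun s => s ∈ L.S j) = L.S j := by
    ext s
    rw [Finset.mem_filter]
    constructor
    · exact fun h => h.2
    · intro h
      refine ⟨?_, h⟩
      unfold S at h
      exact (Finset.mem_filter.mp h).1
  rw [hfil] at hsum
  have h1 := hpart (L.lam j) (L.lam_nonneg j) (L.lam_sum j)
  have h2 := hpart L.gam L.gam_nonneg L.gam_sum
  have h3 := L.hz j
  linarith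

/-- The total mass. -/
theorem total_kp (hC : 1 ≤ C) (hB : 1 ≤ B₁) (j : J) :
    dl C B₁ ≤ ∑ A ∈ sets sf Z, ∑ A' ∈ sets sf Z, L.kp j A A' := by
  classical
  have hB0 : 0 < B₁ := by linarith
  have hC0 : 0 < C := by linarith
  have hep0 : 0 < ep C B₁ := by unfold ep; positivity
  have hSmem : ∀ s ∈ L.S j, 0 < mg (sets sf Z) (L.lam j) s ∧ 0 < mg (sets sf Z) L.gam s := by
    intro s hs
    unfold S at hs
    rw [Finset.mem_filter] at hs
    obtain ⟨-, h1, h2⟩ := hs
    constructor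
    · rcases (coup_mg_nonneg (𝒮 := sets sf Z) (L.lam_nonneg j) s).lt_or_eq with h | h
      · exact h
      · exfalso
        unfold er at h1
        rw [← h, mul_zero, div_zero] at h1
        linarith
    · rcases (coup_mg_nonneg (𝒮 := sets sf Z) L.gam_nonneg s).lt_or_eq with h | h
      · exact h
      · exfalso
        unfold ej at h2
        rw [← h, mul_zero, div_zero] at h2
        linarith
  have h1 : ∀ A ∈ sets sf Z, ∑ A' ∈ sets sf Z, L.kp j A A' =
      L.lam j A * ∑ s ∈ L.S j ∩ A, L.er j s * |L.v j s| / C := fun A hA =>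
    L.coup_r_all hC hB j A hA (fun _ => True) (fun _ => trivial)
      (fun s hs => (hSmem s hs).2.ne')
  rw [Finset.sum_congr rfl h1, ← coup_mg_swap]
  have h2 : ∀ s ∈ L.S j, mg (sets sf Z) (L.lam j) s * (L.er j s * |L.v j s| / C) =
      |L.ζ j s| * |L.v j s| / (B₁ * C) := by
    intro s hs
    have h3 := (hSmem s hs).1
    unfold er
    field_simp
  rw [Finset.sum_congr rfl h2, ← Finset.sum_div]
  have h3 := L.coup_S_mass hC hB j
  unfold dl
  rw [div_le_div_iff₀ (by positivity) (by positivity)]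
  nlinarith [mul_pos hB0 hC0]

/-- A pair with positive mass. -/
theorem kp_pos_imp (hC : 1 ≤ C) (hB : 1 ≤ B₁) (j : J) (A A' : Finset ℕ)
    (h : 0 < L.kp j A A') : A.Nonempty ∧ A'.Nonempty ∧ 0 < L.lam j A ∧ 0 < L.gam A' := by
  have hne : ((A ∩ A') ∩ L.S j).Nonempty := by
    by_contra hcon
    rw [Finset.not_nonempty_iff_eq_empty] at hcon
    unfold kp at h
    rw [hcon, Finset.sum_empty, mul_zero] at h
    exact lt_irrefl _ h
  obtain ⟨s, hs⟩ := hne
  rw [Finset.mem_inter, Finset.mem_inter] at hs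
  refine ⟨⟨s, hs.1.1⟩, ⟨s, hs.1.2⟩, ?_, ?_⟩
  · rcases (L.lam_nonneg j A).lt_or_eq with h1 | h1
    · exact h1
    · exfalso
      unfold kp at h
      rw [← h1] at h
      simp at h
  · rcases (L.gam_nonneg A').lt_or_eq with h1 | h1
    · exact h1
    · exfalso
      unfold kp at h
      rw [← h1] at h
      simp at h

end Lev

end Lev

end Pool.Agent.Comb7f333f.SPart
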