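import Pool.Agent.Lib.MP_7f333f_an.Siz.Capt

/-!
Deep or window: pigeonhole on the letters and Cauchy-Schwarz.
-/

set_option autoImplicit false

namespace Pool.Agent.Comb7f333f.SPart

open CaptAux

namespace DeepAux

/-- pigeonhole on the letters -/
theorem pigeon {M N : ℕ} (P : Finset (Fin M × Fin N)) (e : ℝ) (j : Fin M × Fin N)
    (hP : e * ((M * N : ℕ) : ℝ) ≤ (P.card : ℝ)) {f : ℕ} (hf : (f : ℝ) ≤ e * N) :
    ∃ (a : Fin M) (I : Finset (Fin N)), I.card = f ∧ ∀ ν ∈ I, (a, ν) ∈ P := by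
  classical
  have hM : 0 < M := lt_of_le_of_lt (Nat.zero_le _) j.1.2
  have h1 : P.card = ∑ a : Fin M, (Finset.univ.filter fun ν : Fin N => (a, ν) ∈ P).card := by
    have h2 : P.card = ∑ a : Fin M, (P.filter fun q => q.1 = a).card :=
      Finset.card_eq_sum_card_fiberwise fun q _ => Finset.mem_coe.2 (Finset.mem_univ q.1)
    rw [h2]
    refine Finset.sum_congr rfl fun a _ => ?_
    refine Finset.card_bij (fun q _ => q.2) ?_ ?_ ?_
    · intro q hq
      rw [Finset.mem_filter] at hq ⊢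
      refine ⟨Finset.mem_univ _, ?_⟩
      rw [← hq.2]
      exact hq.1
    · intro q hq q' hq' h
      rw [Finset.mem_filter] at hq hq'
      exact Prod.ext (hq.2.trans hq'.2.symm) h
    · intro ν hν
      rw [Finset.mem_filter] at hν
      exact ⟨(a, ν), Finset.mem_filter.2 ⟨hν.2, rfl⟩, rfl⟩
  have h3 : ∃ a : Fin M, e * N ≤
      ((Finset.univ.filter fun ν : Fin N => (a, ν) ∈ P).card : ℝ) := by
    by_contra hcon
    push Not at hcon
    have : Nonempty (Fin M) := ⟨j.1⟩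
    have h4 : ∑ a : Fin M, ((Finset.univ.filter fun ν : Fin N => (a, ν) ∈ P).card : ℝ) <
        ∑ _a : Fin M, e * N :=
      Finset.sum_lt_sum_of_nonempty Finset.univ_nonempty fun a _ => hcon a
    rw [Finset.sum_const, Finset.card_univ, Fintype.card_fin, nsmul_eq_mul] at h4
    rw [h1] at hP
    push_cast at hP
    linarith
  obtain ⟨a, ha⟩ := h3
  have h5 : f ≤ (Finset.univ.filter fun ν : Fin N => (a, ν) ∈ P).card := by
    exact_mod_cast hf.trans ha
  obtain ⟨I, hI1, hI2⟩ := Finset.exists_subset_card_eq h5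
  exact ⟨a, I, hI2, fun ν hν => (Finset.mem_filter.1 (hI1 hν)).2⟩

section

variable {sf : Siz} {Z : ℕ} {C B₁ : ℝ} {M N : ℕ}

/-- Cauchy-Schwarz -/
theorem cs (L : Lev sf Z C B₁ (Fin M × Fin N)) (hC : 1 ≤ C) (hB : 1 ≤ B₁) (a : Fin M)
    (I Q : Finset (Fin N)) (hQ : Q ⊆ I) (s : ℕ) (hs : s < Z) :
    ∑ ν ∈ Q, L.ej (a, ν) s * |L.v (a, ν) s| ≤ Real.sqrt (∑ ν ∈ I, L.v (a, ν) s ^ 2) := by
  classical
  calc ∑ ν ∈ Q, L.ej (a, ν) s * |L.v (a, ν) s|
      ≤ ∑ ν ∈ I, L.ej (a, ν) s * |L.v (a, ν) s| :=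
        Finset.sum_le_sum_of_subset_of_nonneg hQ fun ν _ _ =>
          mul_nonneg (L.ej_nonneg hC hB _ _) (abs_nonneg _)
    _ ≤ Real.sqrt (∑ ν ∈ I, L.ej (a, ν) s ^ 2) * Real.sqrt (∑ ν ∈ I, |L.v (a, ν) s| ^ 2) :=
        Real.sum_mul_le_sqrt_mul_sqrt _ _ _
    _ ≤ 1 * Real.sqrt (∑ ν ∈ I, L.v (a, ν) s ^ 2) := by
        simp only [sq_abs]
        refine mul_le_mul_of_nonneg_right ?_ (Real.sqrt_nonneg _)
        rw [Real.sqrt_le_one]
        calc ∑ ν ∈ I, L.ej (a, ν) s ^ 2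
            = ∑ q ∈ I.image (fun ν => (a, ν)), L.ej q s ^ 2 := by
              rw [Finset.sum_image]
              intro x _ y _ h
              exact (Prod.mk.inj h).2
          _ ≤ ∑ q, L.ej q s ^ 2 :=
              Finset.sum_le_sum_of_subset_of_nonneg (Finset.subset_univ _)
                fun q _ _ => sq_nonneg _
          _ ≤ 1 := L.sum_ej_sq_le hC hB s hs
    _ = _ := one_mul _

/-- the mass of a union -/
theorem massU (L : Lev sf Z C B₁ (Fin M × Fin N)) (hC : 1 ≤ C) (hB : 1 ≤ B₁) (a : Fin M)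
    (I : Finset (Fin N)) (U : Fin N → Finset ℕ) (hU : ∀ ν ∈ I, ∀ s ∈ U ν, s < Z) (c : ℝ)
    (hc : ∀ ν ∈ I, c ≤ ∑ s ∈ U ν, L.ej (a, ν) s * |L.v (a, ν) s|) :
    c * (I.card : ℝ) ≤ ∑ s ∈ I.biUnion U, Real.sqrt (∑ ν ∈ I, L.v (a, ν) s ^ 2) := by
  classical
  calc c * (I.card : ℝ) = ∑ _ν ∈ I, c := by
        rw [Finset.sum_const, nsmul_eq_mul]; ring
    _ ≤ ∑ ν ∈ I, ∑ s ∈ U ν, L.ej (a, ν) s * |L.v (a, ν) s| := Finset.sum_le_sum hc
    _ = ∑ ν ∈ I, ∑ s ∈ I.biUnion U, (if s ∈ U ν then L.ej (a, ν) s * |L.v (a, ν) s| else 0) := by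
        refine Finset.sum_congr rfl fun ν hν => ?_
        rw [← Finset.sum_filter]
        refine Finset.sum_congr ?_ fun _ _ => rfl
        ext s
        rw [Finset.mem_filter, Finset.mem_biUnion]
        exact ⟨fun h => ⟨⟨ν, hν, h⟩, h⟩, fun h => h.2⟩
    _ = ∑ s ∈ I.biUnion U, ∑ ν ∈ I, (if s ∈ U ν then L.ej (a, ν) s * |L.v (a, ν) s| else 0) :=
        Finset.sum_comm
    _ = ∑ s ∈ I.biUnion U, ∑ ν ∈ I.filter (fun ν => s ∈ U ν),
          L.ej (a, ν) s * |L.v (a, ν) s| := by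
        refine Finset.sum_congr rfl fun s _ => ?_
        rw [Finset.sum_filter]
    _ ≤ _ := by
        refine Finset.sum_le_sum fun s hs => ?_
        obtain ⟨ν, hν, hsν⟩ := Finset.mem_biUnion.1 hs
        exact cs L hC hB a I _ (Finset.filter_subset _ _) s (hU ν hν s hsν)

end

end DeepAux

open DeepAux

section Lev

variable {sf : Siz} {Z : ℕ} {C B₁ : ℝ} {J : Type} [Fintype J] (L : Lev sf Z C B₁ J)

namespace Lev

set_option linter.unusedVariables false in
theorem deep_or_window {M N : ℕ} (L : Lev sf Z C B₁ (Fin M × Fin N)) (hC : 1 ≤ C)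
    (hB : 1 ≤ B₁) (K₁ K f : ℕ) (hK : 1 ≤ K) (hf : 1 ≤ f) (hf1 : (f : ℝ) ≤ e0 C B₁ * N)
    (hf2 : f * K * K₁ ≤ N) (j : Fin M × Fin N) (A A' : Finset ℕ) (hA : A ∈ sets sf Z)
    (hA' : A' ∈ sets sf Z) (hg : L.good K₁ j A A') :
    deepAt sf L.v (ep C B₁ * c0 B₁) K f (mn A) ∨
      (L.tq K₁ A' ≤ mn A ∧ sf.f (mn A) < f * K * sf.f (L.tq K₁ A')) := by
  classical
  obtain ⟨hkp, hg⟩ := hg
  obtain ⟨hne, hne', -, hgam⟩ := L.kp_pos_imp hC hB j A A' hkp
  have hcard : Fintype.card (Fin M × Fin N) = M * N := by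
    rw [Fintype.card_prod, Fintype.card_fin, Fintype.card_fin]
  have hM : 0 < M := lt_of_le_of_lt (Nat.zero_le _) j.1.2
  have hN : 0 < N := lt_of_le_of_lt (Nat.zero_le _) j.2.2
  have hc0 : 0 ≤ c0 B₁ := by unfold c0; positivity
  have hep0 : 0 ≤ ep C B₁ := by unfold ep; positivity
  have hep1 : ep C B₁ ≤ 1 := by
    unfold ep
    rw [div_le_one (by positivity)]
    nlinarith
  rcases hg with ⟨⟨hle, hcj, hcr, hroom⟩, hqne, htq⟩ | ⟨⟨hlt, hcj, hroom⟩, hJJ⟩
  · by_cases hwin : sf.f (mn A) < f * K * sf.f (L.tq K₁ A')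
    · exact Or.inr ⟨htq, hwin⟩
    · left
      push Not at hwin
      set t := L.tq K₁ A' with ht
      have htmem : t ∈ L.qset K₁ A' := Nat.sInf_mem hqne
      unfold qset at htmem
      rw [Set.mem_ofPred_eq] at htmem
      set P : Finset (Fin M × Fin N) := Finset.univ.filter fun j' =>
        ∃ A'' ∈ sets sf Z, L.keptU K₁ j' A'' A' ∧ mn A'' ≤ t ∧ 0 < L.kp j' A'' A' with hP
      have hPcard : e0 C B₁ * ((M * N : ℕ) : ℝ) ≤ (P.card : ℝ) := by
        have h1 : ∀ j', ∑ A'' ∈ (sets sf Z).filter (fun A'' => L.keptU K₁ j' A'' A' ∧ mn A'' ≤ t),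
            L.kp j' A'' A' ≤ if j' ∈ P then L.gam A' else 0 := by
          intro j'
          split_ifs with h
          · refine le_trans (Finset.sum_le_sum_of_subset_of_nonneg (Finset.filter_subset _ _)
              fun B _ _ => L.kp_nonneg hC hB j' B A') (L.sum_kp_j_le hC hB j' A' hA')
          · refine Finset.sum_nonpos fun A'' hA'' => ?_
            rw [Finset.mem_filter] at hA''
            by_contra hpos
            push Not at hpos
            exact h (by
              rw [hP, Finset.mem_filter]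
              exact ⟨Finset.mem_univ _, A'', hA''.1, hA''.2.1, hA''.2.2, hpos⟩)
        have h2 := htmem.trans (Finset.sum_le_sum fun j' (_ : j' ∈ Finset.univ) => h1 j')
        rw [Finset.sum_ite_mem, Finset.univ_inter, Finset.sum_const, nsmul_eq_mul, hcard] at h2
        have h3 : L.gam A' * (e0 C B₁ * ((M * N : ℕ) : ℝ)) ≤ L.gam A' * (P.card : ℝ) := by
          linarith
        exact le_of_mul_le_mul_left h3 hgam
      obtain ⟨a, I, hI, hIP⟩ := pigeon P (e0 C B₁) j hPcard hf1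
      have hch : ∀ ν : Fin N, ∃ B : Finset ℕ, ν ∈ I →
          (B ∈ sets sf Z ∧ L.keptU K₁ (a, ν) B A' ∧ mn B ≤ t ∧ 0 < L.kp (a, ν) B A') := by
        intro ν
        by_cases hν : ν ∈ I
        · have h1 := hIP ν hν
          rw [hP, Finset.mem_filter] at h1
          obtain ⟨-, B, hB1, hB2, hB3, hB4⟩ := h1
          exact ⟨B, fun _ => ⟨hB1, hB2, hB3, hB4⟩⟩
        · exact ⟨∅, fun h => absurd h hν⟩
      choose B hBp using hch
      set U : Fin N → Finset ℕ := fun ν => (B ν ∩ L.S (a, ν)).filter (fun s => mn A' ≤ s) with hU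
      have hUZ : ∀ ν ∈ I, ∀ s ∈ U ν, s < Z := by
        intro ν _ s hs
        rw [hU, Finset.mem_filter, Finset.mem_inter] at hs
        exact S_lt hs.1.2
      refine ⟨a, I, hI, I.biUnion U, ?_, ?_, ?_⟩
      · intro s hs
        obtain ⟨ν, _, hsν⟩ := Finset.mem_biUnion.1 hs
        rw [hU, Finset.mem_filter] at hsν
        exact hle.trans hsν.2
      · have h1 : (I.biUnion U).card ≤ f * sf.f t := by
          refine Finset.card_biUnion_le.trans ?_
          calc ∑ ν ∈ I, (U ν).card ≤ ∑ _ν ∈ I, sf.f t := by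
                refine Finset.sum_le_sum fun ν hν => ?_
                obtain ⟨h1, h2, h3, h4⟩ := hBp ν hν
                calc (U ν).card ≤ (B ν).card := Finset.card_le_card
                      ((Finset.filter_subset _ _).trans Finset.inter_subset_left)
                  _ ≤ sf.f (mn (B ν)) := card_le_mn h1 (L.kp_pos_imp hC hB _ _ _ h4).1
                  _ ≤ sf.f t := sf.mono h3
            _ = f * sf.f t := by rw [Finset.sum_const, hI, smul_eq_mul]
        calc K * (I.biUnion U).card ≤ K * (f * sf.f t) := Nat.mul_le_mul_left _ h1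
          _ = f * K * sf.f t := by ring
          _ ≤ _ := hwin
      · have h1 : ∀ ν ∈ I, ep C B₁ * c0 B₁ ≤ ∑ s ∈ U ν, L.ej (a, ν) s * |L.v (a, ν) s| := by
          intro ν hν
          obtain ⟨-, ⟨-, -, h3, -⟩, -, -⟩ := hBp ν hν
          calc ep C B₁ * c0 B₁ ≤ ep C B₁ * ∑ s ∈ U ν, |L.v (a, ν) s| :=
                mul_le_mul_of_nonneg_left h3 hep0
            _ = ∑ s ∈ U ν, ep C B₁ * |L.v (a, ν) s| := Finset.mul_sum _ _ _
            _ ≤ _ := by
                refine Finset.sum_le_sum fun s hs => ?_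
                rw [hU, Finset.mem_filter, Finset.mem_inter] at hs
                exact mul_le_mul_of_nonneg_right (S_ep hs.1.2) (abs_nonneg _)
        have h2 := massU L hC hB a I U hUZ _ h1
        rwa [hI] at h2
  · left
    have hPcard : e0 C B₁ * ((M * N : ℕ) : ℝ) ≤ ((L.JJ K₁ A' (mn A)).card : ℝ) := by
      rw [← hcard]
      exact hJJ
    obtain ⟨a, I, hI, hIP⟩ := pigeon _ (e0 C B₁) j hPcard hf1
    have hIP' : ∀ ν ∈ I, L.room K₁ (a, ν) A' ∧ L.capj (a, ν) A' (mn A) := by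
      intro ν hν
      have h1 := hIP ν hν
      unfold JJ at h1
      rw [Finset.mem_filter] at h1
      exact h1.2
    set U : Fin N → Finset ℕ := fun ν => (A' ∩ L.S (a, ν)).filter (fun s => mn A ≤ s) with hU
    have hUZ : ∀ ν ∈ I, ∀ s ∈ U ν, s < Z := by
      intro ν _ s hs
      rw [hU, Finset.mem_filter, Finset.mem_inter] at hs
      exact S_lt hs.1.2
    refine ⟨a, I, hI, I.biUnion U, ?_, ?_, ?_⟩
    · intro s hs
      obtain ⟨ν, _, hsν⟩ := Finset.mem_biUnion.1 hs
      rw [hU, Finset.mem_filter] at hsν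
      exact hsν.2
    · have h1 : (I.biUnion U).card * (M * N) ≤ f * (K₁ * sf.f (mn A)) := by
        calc (I.biUnion U).card * (M * N) ≤ (∑ ν ∈ I, (U ν).card) * (M * N) :=
              Nat.mul_le_mul_right _ Finset.card_biUnion_le
          _ = ∑ ν ∈ I, (U ν).card * (M * N) := Finset.sum_mul _ _ _
          _ ≤ ∑ _ν ∈ I, K₁ * sf.f (mn A) := by
              refine Finset.sum_le_sum fun ν hν => ?_
              have h2 := room_card (hIP' ν hν).1
                ((Finset.filter_subset _ _).trans Finset.inter_subset_left : U ν ⊆ A')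
                ((Finset.filter_subset _ _).trans Finset.inter_subset_right)
              rw [hcard] at h2
              exact h2.trans (Nat.mul_le_mul_left _ (sf.mono hlt.le))
          _ = f * (K₁ * sf.f (mn A)) := by rw [Finset.sum_const, hI, smul_eq_mul]
      have h2 : (M * N) * (K * (I.biUnion U).card) ≤ (M * N) * sf.f (mn A) := by
        calc (M * N) * (K * (I.biUnion U).card) = K * ((I.biUnion U).card * (M * N)) := by ring
          _ ≤ K * (f * (K₁ * sf.f (mn A))) := Nat.mul_le_mul_left _ h1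
          _ = (f * K * K₁) * sf.f (mn A) := by ring
          _ ≤ N * sf.f (mn A) := Nat.mul_le_mul_right _ hf2
          _ ≤ (M * N) * sf.f (mn A) :=
              Nat.mul_le_mul_right _ (Nat.le_mul_of_pos_left _ hM)
      exact Nat.le_of_mul_le_mul_left h2 (Nat.mul_pos hM hN)
    · have h1 : ∀ ν ∈ I, ep C B₁ * c0 B₁ ≤ ∑ s ∈ U ν, L.ej (a, ν) s * |L.v (a, ν) s| := by
        intro ν hν
        calc ep C B₁ * c0 B₁ ≤ c0 B₁ := mul_le_of_le_one_left hc0 hep1
          _ ≤ _ := (hIP' ν hν).2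
      have h2 := massU L hC hB a I U hUZ _ h1
      rwa [hI] at h2

end Lev

end Lev

end Pool.Agent.Comb7f333f.SPart
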