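import Pool.Agent.Lib.MP_7f333f_an.RP.Weak
import Pool.Agent.Lib.MP_7f333f_an.Neg.Signs
import Pool.Agent.Lib.MP_7f333f_an.Neg.Ops

set_option autoImplicit false

/-!
Part (W) for the families of the finite sets whose size is bounded by a function of their first
element.  Definitions shared by the modules.
-/

namespace Pool.Agent.Comb7f333f.SPart

open Filter Topology

/-- A size function: nondecreasing, unbounded, positive. -/
structure Siz where
  f : ℕ → ℕ
  mono : Monotone f
  unb : ∀ n, ∃ k, n ≤ f k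
  pos : ∀ k, 1 ≤ f k

/-- The sets with at most `f (min A)` elements. -/
def sz (sf : Siz) : Set (Finset ℕ) := {F | ∀ k ∈ F, F.card ≤ sf.f k}

theorem sz_regular (sf : Siz) : IsRegular (sz sf) where
  hereditary F hF F' hF' k hk := (Finset.card_le_card hF').trans (hF k (hF' hk))
  spreading n l k hl hk hlk hmem x hx := by
    obtain ⟨i, _, rfl⟩ := Finset.mem_image.mp hx
    have h1 := hmem (l i) (Finset.mem_image_of_mem _ (Finset.mem_univ i))
    rw [Finset.card_image_of_injective _ hl.injective] at h1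
    rw [Finset.card_image_of_injective _ hk.injective]
    exact h1.trans (sf.mono (hlk i))
  compact := by
    classical
    have h1 : {c : ℕ → Bool | ∃ F ∈ sz sf, ∀ n, c n = decide (n ∈ F)} =
        ⋂ (k : ℕ) (T : Finset ℕ), {c : ℕ → Bool | c k = true → (∀ n ∈ T, c n = true) →
          T.card ≤ sf.f k} := by
      ext c
      simp only [Set.mem_ofPred_eq, Set.mem_iInter]
      constructor
      · rintro ⟨F, hF, hc⟩ k T hk hT
        have hkF : k ∈ F := by
          have := hc k
          rw [hk] at this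
          exact of_decide_eq_true this.symm
        refine (Finset.card_le_card fun n hn => ?_).trans (hF k hkF)
        have := hc n
        rw [hT n hn] at this
        exact of_decide_eq_true this.symm
      · intro hc
        by_cases hall : ∀ k, c k = false
        · exact ⟨∅, fun k hk => absurd hk (Finset.notMem_empty k), fun n => by simp [hall n]⟩
        · push Not at hall
          obtain ⟨k, hk⟩ := hall
          have hk' : c k = true := by simpa using hk
          have hfin : {n | c n = true}.Finite := by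
            by_contra hinf
            obtain ⟨T, hT1, hT2⟩ := Set.Infinite.exists_subset_card_eq hinf (sf.f k + 1)
            have := hc k T hk' fun n hn => hT1 hn
            omega
          refine ⟨hfin.toFinset, fun j hj => hc j _ ?_ fun n hn => ?_, fun n => ?_⟩
          · simpa using hj
          · simpa using hn
          · by_cases hn : c n = true
            · simp [hn]
            · simp only [Bool.not_eq_true] at hn
              simp [hn]
    rw [h1]
    refine IsClosed.isCompact ?_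
    refine isClosed_iInter fun k => isClosed_iInter fun T => ?_
    by_cases hT : T.card ≤ sf.f k
    · have : {c : ℕ → Bool | c k = true → (∀ n ∈ T, c n = true) → T.card ≤ sf.f k} =
          Set.univ := by
        ext c; simp [hT]
      rw [this]
      exact isClosed_univ
    · have : {c : ℕ → Bool | c k = true → (∀ n ∈ T, c n = true) → T.card ≤ sf.f k} =
          (⋂ n ∈ insert k T, {c : ℕ → Bool | c n = true})ᶜ := by
        ext c
        simp only [Set.mem_ofPred_eq, Set.mem_compl_iff, Set.mem_iInter, Finset.mem_insert]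
        constructor
        · intro h' h''
          exact hT (h' (h'' k (Or.inl rfl)) fun n hn => h'' n (Or.inr hn))
        · intro h' hk hTc
          exact absurd (fun n hn => by
            rcases hn with rfl | hn
            · exact hk
            · exact hTc n hn) h'
      rw [this, isClosed_compl_iff]
      refine isOpen_biInter_finset fun n _ => ?_
      have : {c : ℕ → Bool | c n = true} = (fun c : ℕ → Bool => c n) ⁻¹' {true} := rfl
      rw [this]
      exact (isOpen_discrete _).preimage (continuous_apply n)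
  singleton n k hk := by
    rw [Finset.card_singleton]
    exact sf.pos k

/-- All the sums of `|a k|` over the sets of the family are at most `B` (the norm of `a` is
`≤ B`). -/
def SB (sf : Siz) (a : ℕ → ℝ) (B : ℝ) : Prop := ∀ F : Finset ℕ, F ∈ sz sf → ∑ k ∈ F, |a k| ≤ B

/-- A choice of signs. -/
def IsSign {ι : Type*} (θ : ι → ℝ) : Prop := ∀ i, θ i = 1 ∨ θ i = -1

/-- The data which the finite theorem excludes. The words are the functions `ω` which give at
each level `l` a letter `(ω l).1` and a number `(ω l).2`. -/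
structure CoreData (sf : Siz) (C B₁ D B₂ Λ : ℝ) (r M : ℕ) where
  Z : ℕ
  N : Fin r → ℕ
  f : Fin r → ℕ
  v : ((l : Fin r) → Fin M × Fin (N l)) → Fin r → ℕ → ℝ
  ζ : ((l : Fin r) → Fin M × Fin (N l)) → Fin r → ℕ → ℝ
  f_pos : ∀ l, 1 ≤ f l
  f_mono : Monotone f
  hn : ∀ l, Λ * f l ≤ (N l : ℝ)
  h0 : ∀ ω l, SB sf (v ω l) C
  h1 : ∀ ω l, 1 / 2 ≤ ∑ s ∈ Finset.range Z, |ζ ω l s| * |v ω l s|
  h2 : ∀ ω (z : ℕ → ℝ) (B : ℝ), (∀ s, 0 ≤ z s) → SB sf z B →
    ∑ s ∈ Finset.range Z, Real.sqrt (∑ l, ζ ω l s ^ 2) * z s ≤ B₁ * B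
  h3 : ∀ ω (l : Fin r) (z : ℕ → ℝ) (B : ℝ), (∀ s, 0 ≤ z s) → SB sf z B →
    ∑ s ∈ Finset.range Z,
      Real.sqrt (∑ j : Fin M × Fin (N l), ζ (Function.update ω l j) l s ^ 2) * z s ≤ B₁ * B
  h4 : ∀ ω (k l : Fin r), k < l → ∀ θ : Fin M → ℝ, IsSign θ →
    SB sf (fun s => ∑ a, θ a * v (Function.update ω l (a, (ω l).2)) k s) D
  h4' : ∀ ω (k l : Fin r), k < l → ∀ (a : Fin M) (ν ν' : Fin (N l)),
    v (Function.update ω l (a, ν)) k = v (Function.update ω l (a, ν')) k
  h5 : ∀ ω (A : Finset (Fin r)) (π : Fin r → Fin r), (∀ l ∈ A, π l < l) →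
    (∀ l' ∈ A, ∀ l ∈ A, l' < l → l' ≤ π l) → ∀ (a : Fin r → Fin M)
    (I : (l : Fin r) → Finset (Fin (N l))), (∀ l ∈ A, (I l).card = f (π l)) →
    ∀ θ : (l : Fin r) → Fin (N l) → ℝ, (∀ l ν, θ l ν = 1 ∨ θ l ν = -1) →
    SB sf (fun s => ∑ l ∈ A, (1 / (f (π l) : ℝ)) *
      ∑ ν ∈ I l, θ l ν * v (Function.update ω l (a l, ν)) l s) B₂

section Space

variable {X : Type*} [NormedAddCommGroup X] [NormedSpace ℝ X]

/-- The combination of the basis vectors `e k`, `k ∈ S`, with the coefficients `a k`. -/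
noncomputable def vec (e : ℕ → X) (S : Finset ℕ) (a : ℕ → ℝ) : X := ∑ k ∈ S, a k • e k

/-- The coordinates of a vector. -/
noncomputable def co (e : ℕ → X) (x : X) : ℕ → ℝ := fun k => ef e k x

/-- Smallness, along a nonprincipal ultrafilter, of the sums of the coordinates of `T n y` over
the sets with boundedly many elements. -/
def Sm (e : ℕ → X) (T : ℕ → X →L[ℝ] X) (ε : ℝ) (y : X) : Prop :=
  ∀ k : ℕ, ∀ᶠ n in (hyperfilter ℕ : Filter ℕ), ∀ D : Finset ℕ, D.card ≤ k →
    ∑ s ∈ D, |co e (T n y) s| ≤ ε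

end Space

/-- One step of the prefix. -/
def stp {r M : ℕ} {G : Type*} [Group G] (g : ℕ → Fin M → G) (w : Fin r → Fin M) (j : ℕ) : G :=
  if h : j < r then g j (w ⟨j, h⟩) else 1

/-- The prefixes `g_{j-1} ⋯ g_0`. -/
def pre {r M : ℕ} {G : Type*} [Group G] (g : ℕ → Fin M → G) (w : Fin r → Fin M) : ℕ → G
  | 0 => 1
  | j + 1 => stp g w j * pre g w j

/-- The numbers `1 + K 0 + ... + K (j-1)`. -/
def kap (K : ℕ → ℕ) (j : ℕ) : ℕ := 1 + ∑ j' ∈ Finset.range j, K j'

/-- One level `l` of the tower: `i w ν`, `ν < N`, are the columns chosen for the word `w`, `p w`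
is the prefix of the word up to the letter of this level (included). -/
structure LevelProps {X : Type*} [NormedAddCommGroup X] [NormedSpace ℝ X] {G : Type*} [Group G]
    (sf : Siz) (A : G →* (X →L[ℝ] X)) (e : ℕ → X) (C : ℝ) {r M : ℕ} (l : Fin r)
    (p : (Fin r → Fin M) → G) (N : ℕ) (i : (Fin r → Fin M) → ℕ → ℕ) (kp K : ℕ) : Prop where
  dep : ∀ w w' : Fin r → Fin M, (∀ k ≤ l, w k = w' k) → i w = i w'
  inj : ∀ w ν ν', ν < N → ν' < N → i w ν = i w ν' → ν = ν'
  range : ∀ w, ∀ ν < N, kp ≤ i w ν ∧ i w ν < K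
  size : ∀ w, ∀ ν < N, r ≤ sf.f (i w ν)
  row : ∀ (w : Fin r → Fin M) (y : X), ∑ a : Fin M, ∑ ν ∈ Finset.range N,
    |co e (A (p (Function.update w l a))⁻¹ y) (i (Function.update w l a) ν)| ≤ (C + 1) * ‖y‖
  sum_le : ∀ (w w' : Fin r → Fin M) (s : ℕ),
    ∑ ν ∈ Finset.range N, |co e (A ((p w)⁻¹ * p w') (e (i w' ν))) s| ≤ C + 1
  tail : ∀ w w' : Fin r → Fin M, ∀ ν < N, ∀ E ∈ sz sf, (∀ s ∈ E, K ≤ s) →
    ∑ s ∈ E, |co e (A ((p w)⁻¹ * p w') (e (i w' ν))) s| ≤ 1 / r

/-- The tower. -/
structure Tower {X : Type*} [NormedAddCommGroup X] [NormedSpace ℝ X] {G : Type*} [Group G]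
    (sf : Siz) (A : G →* (X →L[ℝ] X)) (e : ℕ → X) (C Λ : ℝ) (r M : ℕ) where
  g : ℕ → Fin M → G
  N : ℕ → ℕ
  K : ℕ → ℕ
  i : ℕ → (Fin r → Fin M) → ℕ → ℕ
  card_N : ∀ l < r, Λ * 2 ^ r * sf.f (kap K l) ≤ (N l : ℝ)
  lev : ∀ l : Fin r, LevelProps sf A e C l (fun w : Fin r → Fin M => pre g w (l + 1)) (N l)
    (i l) (kap K l) (K l)
  signs : ∀ l < r, ∀ w : Fin r → Fin M, ∀ k < l, ∀ ν < N k, ∀ θ : Fin M → ℝ, IsSign θ →
    ‖∑ a, θ a • A (g l a) (A (pre g w l) (e (i k w ν)))‖ ≤ C ^ 2 + 1

end Pool.Agent.Comb7f333f.SPart
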