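import Pool.Agent.Lib.MP_7f333f_an.Siz.CDefs
import Pool.Agent.Lib.MP_7f333f_an.Siz.A1

set_option autoImplicit false

/-!
Module S8: few letters are captured at a given scale.
-/

namespace Pool.Agent.Comb7f333f.SPart

open Filter Topology

open scoped Classical in
theorem few_captured (sf : Siz) (D c : ℝ) (hc : 0 < c) (K2 : ℕ) (hK2 : 3 * D ^ 2 / c ^ 2 < K2)
    {M : ℕ} (v : Fin M → ℕ → ℝ)
    (h : ∀ θ : Fin M → ℝ, IsSign θ → SB sf (fun s => ∑ a, θ a * v a s) D) (τ : ℕ) :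
    (Finset.univ.filter (fun a => capt sf K2 c (v a) τ)).card < K2 := by
  by_contra hcon
  push Not at hcon
  obtain ⟨I, hIsub, hIcard⟩ := Finset.exists_subset_card_eq hcon
  have hcap : ∀ a ∈ I, capt sf K2 c (v a) τ := fun a ha =>
    (Finset.mem_filter.mp (hIsub ha)).2
  choose! T hT1 hT2 hT3 using hcap
  have hc2 : 0 < c ^ 2 := pow_pos hc 2
  have hK2pos' : (0 : ℝ) < K2 :=
    lt_of_le_of_lt (div_nonneg (by positivity) hc2.le) hK2
  have hK2pos : 0 < K2 := by exact_mod_cast hK2pos'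
  set U : Finset ℕ := I.biUnion T with hU
  have hUcard : U.card ≤ sf.f τ := by
    have h1 : U.card ≤ ∑ a ∈ I, (T a).card := Finset.card_biUnion_le
    have h2 : K2 * ∑ a ∈ I, (T a).card ≤ K2 * sf.f τ := by
      rw [Finset.mul_sum]
      calc ∑ a ∈ I, K2 * (T a).card ≤ ∑ _a ∈ I, sf.f τ := Finset.sum_le_sum hT2
        _ = K2 * sf.f τ := by rw [Finset.sum_const, smul_eq_mul, hIcard]
    exact h1.trans (Nat.le_of_mul_le_mul_left h2 hK2pos)
  have hUsz : U ∈ sz sf := by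
    intro k hk
    obtain ⟨a, ha, hka⟩ := Finset.mem_biUnion.mp hk
    exact hUcard.trans (sf.mono (hT1 a ha k hka))
  have hsb := SB_sqrt (sf := sf) Finset.univ v D h U hUsz
  have hpt : ∀ s, ∑ a ∈ I, |v a s| ≤ Real.sqrt K2 * |Real.sqrt (∑ a, v a s ^ 2)| := by
    intro s
    rw [abs_of_nonneg (Real.sqrt_nonneg _), ← Real.sqrt_mul hK2pos'.le]
    refine Real.le_sqrt_of_sq_le ?_
    calc (∑ a ∈ I, |v a s|) ^ 2 ≤ (I.card : ℝ) * ∑ a ∈ I, |v a s| ^ 2 :=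
          sq_sum_le_card_mul_sum_sq
      _ = K2 * ∑ a ∈ I, v a s ^ 2 := by rw [hIcard]; simp only [sq_abs]
      _ ≤ K2 * ∑ a, v a s ^ 2 := by
          refine mul_le_mul_of_nonneg_left ?_ hK2pos'.le
          exact Finset.sum_le_sum_of_subset_of_nonneg (Finset.subset_univ _)
            fun i _ _ => sq_nonneg _
  have hlow : (K2 : ℝ) * c ≤ ∑ s ∈ U, ∑ a ∈ I, |v a s| := by
    rw [Finset.sum_comm]
    calc (K2 : ℝ) * c = ∑ _a ∈ I, c := by rw [Finset.sum_const, hIcard, nsmul_eq_mul]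
      _ ≤ ∑ a ∈ I, ∑ s ∈ U, |v a s| := by
          refine Finset.sum_le_sum fun a ha => (hT3 a ha).trans ?_
          exact Finset.sum_le_sum_of_subset_of_nonneg
            (Finset.subset_biUnion_of_mem T ha) fun i _ _ => abs_nonneg _
  have hmain : (K2 : ℝ) * c ≤ Real.sqrt K2 * (Real.sqrt 3 * D) := by
    calc (K2 : ℝ) * c ≤ ∑ s ∈ U, ∑ a ∈ I, |v a s| := hlow
      _ ≤ ∑ s ∈ U, Real.sqrt K2 * |Real.sqrt (∑ a, v a s ^ 2)| :=
          Finset.sum_le_sum fun s _ => hpt s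
      _ = Real.sqrt K2 * ∑ s ∈ U, |Real.sqrt (∑ a, v a s ^ 2)| := by rw [Finset.mul_sum]
      _ ≤ Real.sqrt K2 * (Real.sqrt 3 * D) :=
          mul_le_mul_of_nonneg_left hsb (Real.sqrt_nonneg _)
  have hsq : ((K2 : ℝ) * c) ^ 2 ≤ (Real.sqrt K2 * (Real.sqrt 3 * D)) ^ 2 :=
    pow_le_pow_left₀ (by positivity) hmain 2
  rw [mul_pow, mul_pow, mul_pow, Real.sq_sqrt hK2pos'.le, Real.sq_sqrt (by norm_num)] at hsq
  have h5 : (K2 : ℝ) * c ^ 2 ≤ 3 * D ^ 2 := by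
    have : (K2 : ℝ) * ((K2 : ℝ) * c ^ 2) ≤ K2 * (3 * D ^ 2) := by nlinarith
    exact le_of_mul_le_mul_left this hK2pos'
  rw [div_lt_iff₀ hc2] at hK2
  linarith

end Pool.Agent.Comb7f333f.SPart
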