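import Pool.Agent.Lib.MP_7f333f_an.Siz.Defs

set_option autoImplicit false

/-!
Module H7: the combination of the levels of the tower is bounded.
-/

namespace Pool.Agent.Comb7f333f.SPart

open Filter Topology

variable {sf : Siz}

theorem h7_kap_lt (K : ℕ → ℕ) {i j : ℕ} (h : i < j) : K i + 1 ≤ kap K j := by
  unfold kap
  have := Finset.single_le_sum (f := K) (s := Finset.range j) (fun _ _ => Nat.zero_le _)
    (Finset.mem_range.mpr h)
  omega

theorem h7_abs (c : ℝ) (hc : 0 ≤ c) (G : Finset ℕ) (θ : ℕ → ℝ)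
    (hθ : ∀ i, θ i = 1 ∨ θ i = -1) (u : ℕ → ℝ) :
    |c * ∑ i ∈ G, θ i * u i| ≤ c * ∑ i ∈ G, |u i| := by
  rw [abs_mul, abs_of_nonneg hc]
  refine mul_le_mul_of_nonneg_left ((Finset.abs_sum_le_sum_abs _ _).trans ?_) hc
  refine Finset.sum_le_sum fun i _ => ?_
  rw [abs_mul]
  rcases hθ i with h | h <;> simp [h]

/-- H7 (pure functions) -/
theorem h7_lemma (C : ℝ) (hC : 1 ≤ C) (r : ℕ) (F : Fin r → Finset ℕ) (K : ℕ → ℕ)
    (v : Fin r → ℕ → ℕ → ℝ) (h0 : ∀ j, ∀ i ∈ F j, SB sf (v j i) C)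
    (hsum : ∀ j s, ∑ i ∈ F j, |v j i s| ≤ C + 1)
    (htail : ∀ j, ∀ i ∈ F j, ∀ E ∈ (sz sf), (∀ s ∈ E, K j ≤ s) →
      ∑ s ∈ E, |v j i s| ≤ 1 / r)
    (A : Finset (Fin r)) (π : Fin r → Fin r) (hπ : ∀ j ∈ A, π j < j)
    (hπ' : ∀ j' ∈ A, ∀ j ∈ A, j' < j → j' ≤ π j) (G : Fin r → Finset ℕ)
    (hG : ∀ j ∈ A, G j ⊆ F j ∧ (G j).card = 2 ^ r * sf.f (kap K (π j))) (θ : Fin r → ℕ → ℝ)
    (hθ : ∀ j i, θ j i = 1 ∨ θ j i = -1) :
    SB sf (fun s => ∑ j ∈ A, (1 / ((2 ^ r * sf.f (kap K (π j)) : ℕ) : ℝ)) * ∑ i ∈ G j, θ j i * v j i s)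
      (3 * C + 2) := by
  classical
  intro E hE
  have hkap : ∀ j, 1 ≤ sf.f (kap K j) := fun j => sf.pos _
  have hf : ∀ j : Fin r, (0 : ℝ) < ((2 ^ r * sf.f (kap K (π j)) : ℕ) : ℝ) := by
    intro j
    have := hkap (π j)
    have h2 : 0 < 2 ^ r * sf.f (kap K (π j)) := by positivity
    exact_mod_cast h2
  set T : Fin r → ℝ := fun j =>
    ∑ s ∈ E, |(1 / ((2 ^ r * sf.f (kap K (π j)) : ℕ) : ℝ)) * ∑ i ∈ G j, θ j i * v j i s| with hT
  -- the general bound by averages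
  have hT1 : ∀ j, T j ≤ (1 / ((2 ^ r * sf.f (kap K (π j)) : ℕ) : ℝ)) *
      ∑ s ∈ E, ∑ i ∈ G j, |v j i s| := by
    intro j
    rw [Finset.mul_sum]
    exact Finset.sum_le_sum fun s _ => h7_abs _ (by have := hf j; positivity) _ _ (hθ j) _
  -- average
  have hav : ∀ j ∈ A, ∀ b : ℝ, (∀ i ∈ F j, ∑ s ∈ E, |v j i s| ≤ b) → T j ≤ b := by
    intro j hj b hb
    refine (hT1 j).trans ?_
    rw [Finset.sum_comm]
    have h1 : ∑ i ∈ G j, ∑ s ∈ E, |v j i s| ≤ ((2 ^ r * sf.f (kap K (π j)) : ℕ) : ℝ) * b := by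
      rw [← (hG j hj).2]
      have := Finset.sum_le_card_nsmul (G j) (fun i => ∑ s ∈ E, |v j i s|) b
        (fun i hi => hb i ((hG j hj).1 hi))
      simpa [nsmul_eq_mul] using this
    have h2 := mul_le_mul_of_nonneg_left h1 (show 0 ≤ 1 / ((2 ^ r * sf.f (kap K (π j)) : ℕ) : ℝ) by
      have := hf j; positivity)
    have h3 : (1 / ((2 ^ r * sf.f (kap K (π j)) : ℕ) : ℝ)) * (((2 ^ r * sf.f (kap K (π j)) : ℕ) : ℝ) * b) = b := by
      have := (hf j).ne'
      field_simp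
    linarith
  have hTC : ∀ j ∈ A, T j ≤ C := fun j hj => hav j hj C fun i hi => h0 j i hi E hE
  have hTr : ∀ j ∈ A, (∀ s ∈ E, K j ≤ s) → T j ≤ 1 / r :=
    fun j hj h => hav j hj _ fun i hi => htail j i hi E hE h
  -- late levels
  have hTl : ∀ j ∈ A, ∀ j1 : Fin r, j1 < π j → (¬ ∀ s ∈ E, K j1 ≤ s) → T j ≤ (C + 1) / 2 ^ r := by
    intro j hj j1 h1 h2
    push Not at h2
    obtain ⟨s0, hs0, hs0'⟩ := h2
    have hcard : E.card ≤ sf.f (kap K (π j)) := by
      have ha := hE s0 hs0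
      have hb := h7_kap_lt K (i := (j1 : ℕ)) (j := ((π j : Fin r) : ℕ)) h1
      exact ha.trans (sf.mono (by omega))
    refine (hT1 j).trans ?_
    have h3 : ∑ s ∈ E, ∑ i ∈ G j, |v j i s| ≤ sf.f (kap K (π j)) * (C + 1) := by
      have h4 : ∑ s ∈ E, ∑ i ∈ G j, |v j i s| ≤ E.card • (C + 1) := by
        refine Finset.sum_le_card_nsmul _ _ _ fun s _ => ?_
        exact (Finset.sum_le_sum_of_subset_of_nonneg (hG j hj).1 fun _ _ _ => abs_nonneg _).trans
          (hsum j s)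
      rw [nsmul_eq_mul] at h4
      refine h4.trans (mul_le_mul_of_nonneg_right ?_ (by linarith))
      exact_mod_cast hcard
    have hk : (0 : ℝ) < sf.f (kap K (π j)) := by exact_mod_cast hkap (π j)
    calc (1 / ((2 ^ r * sf.f (kap K (π j)) : ℕ) : ℝ)) * ∑ s ∈ E, ∑ i ∈ G j, |v j i s|
        ≤ (1 / ((2 ^ r * sf.f (kap K (π j)) : ℕ) : ℝ)) * (sf.f (kap K (π j)) * (C + 1)) :=
          mul_le_mul_of_nonneg_left h3 (by have := hf j; positivity)
      _ = (C + 1) / 2 ^ r := by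
          push_cast
          field_simp
  -- the exceptional levels
  obtain ⟨D, hDA, hD2, hD⟩ : ∃ D ⊆ A, D.card ≤ 2 ∧ ∀ j ∈ A \ D,
      T j ≤ 1 / r + (C + 1) / 2 ^ r := by
    have hr0 : (0 : ℝ) ≤ 1 / r := by positivity
    have hc0 : (0 : ℝ) ≤ (C + 1) / 2 ^ r := by positivity
    by_cases hB : (A.filter fun j : Fin r => ¬ ∀ s ∈ E, K j ≤ s).Nonempty
    · obtain ⟨j1, hj1, hmin1⟩ : ∃ j1 ∈ A.filter (fun j : Fin r => ¬ ∀ s ∈ E, K j ≤ s),
          ∀ j ∈ A.filter (fun j : Fin r => ¬ ∀ s ∈ E, K j ≤ s), j1 ≤ j :=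
        ⟨_, Finset.min'_mem _ hB, fun j hj => Finset.min'_le _ j hj⟩
      rw [Finset.mem_filter] at hj1
      have hearly : ∀ j ∈ A, j < j1 → T j ≤ 1 / r := by
        intro j hj hlt
        refine hTr j hj ?_
        by_contra hcon
        exact absurd (hmin1 j (Finset.mem_filter.mpr ⟨hj, hcon⟩)) (not_le.mpr hlt)
      by_cases hB2 : (A.filter fun j : Fin r => j1 < j).Nonempty
      · obtain ⟨j2, hj2, hmin2⟩ : ∃ j2 ∈ A.filter (fun j : Fin r => j1 < j),
            ∀ j ∈ A.filter (fun j : Fin r => j1 < j), j2 ≤ j :=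
          ⟨_, Finset.min'_mem _ hB2, fun j hj => Finset.min'_le _ j hj⟩
        rw [Finset.mem_filter] at hj2
        refine ⟨{j1, j2}, ?_, Finset.card_le_two, ?_⟩
        · intro x hx
          simp only [Finset.mem_insert, Finset.mem_singleton] at hx
          rcases hx with rfl | rfl
          · exact hj1.1
          · exact hj2.1
        · intro j hj
          rw [Finset.mem_sdiff] at hj
          simp only [Finset.mem_insert, Finset.mem_singleton, not_or] at hj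
          obtain ⟨hjA, hne1, hne2⟩ := hj
          rcases lt_trichotomy j j1 with h | h | h
          · linarith [hearly j hjA h]
          · exact absurd h hne1
          · have h3 : j2 < j := lt_of_le_of_ne (hmin2 j (Finset.mem_filter.mpr ⟨hjA, h⟩))
              (Ne.symm hne2)
            have h4 := hπ' j2 hj2.1 j hjA h3
            linarith [hTl j hjA j1 (lt_of_lt_of_le hj2.2 h4) hj1.2]
      · refine ⟨{j1}, by simpa using hj1.1, by simp, ?_⟩
        intro j hj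
        rw [Finset.mem_sdiff, Finset.mem_singleton] at hj
        rcases lt_trichotomy j j1 with h | h | h
        · linarith [hearly j hj.1 h]
        · exact absurd h hj.2
        · exact absurd ⟨j, Finset.mem_filter.mpr ⟨hj.1, h⟩⟩ hB2
    · refine ⟨∅, by simp, by simp, ?_⟩
      intro j hj
      rw [Finset.mem_sdiff] at hj
      have : ∀ s ∈ E, K j ≤ s := by
        by_contra hcon
        exact hB ⟨j, Finset.mem_filter.mpr ⟨hj.1, hcon⟩⟩
      linarith [hTr j hj.1 this]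
  -- the sum
  have hsplit : ∑ j ∈ A, T j = ∑ j ∈ A \ D, T j + ∑ j ∈ D, T j :=
    (Finset.sum_sdiff hDA).symm
  have hs1 : ∑ j ∈ D, T j ≤ 2 * C := by
    have h1 := Finset.sum_le_card_nsmul D T C fun j hj => hTC j (hDA hj)
    rw [nsmul_eq_mul] at h1
    have h2 : (D.card : ℝ) ≤ 2 := by exact_mod_cast hD2
    nlinarith
  have hs2 : ∑ j ∈ A \ D, T j ≤ 1 + (C + 1) := by
    have h1 := Finset.sum_le_card_nsmul (A \ D) T _ hD
    rw [nsmul_eq_mul] at h1
    have h2 : (A \ D).card ≤ r := by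
      simpa using Finset.card_le_univ (A \ D)
    rcases Nat.eq_zero_or_pos r with hr | hr
    · subst hr
      have h0' : (A \ D).card = 0 := by omega
      rw [h0'] at h1
      have : (0 : ℝ) ≤ 1 + (C + 1) := by linarith
      simp only [Nat.cast_zero, zero_mul] at h1
      linarith
    · have hr' : (0 : ℝ) < r := by exact_mod_cast hr
      have h3 : ((A \ D).card : ℝ) ≤ r := by exact_mod_cast h2
      have h4 : (r : ℝ) ≤ 2 ^ r := by exact_mod_cast Nat.lt_two_pow_self.le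
      have h5 : (0 : ℝ) ≤ 1 / r + (C + 1) / 2 ^ r := by positivity
      have h6 : ((A \ D).card : ℝ) * (1 / r + (C + 1) / 2 ^ r) ≤
          r * (1 / r + (C + 1) / 2 ^ r) := mul_le_mul_of_nonneg_right h3 h5
      have h7 : (r : ℝ) * (1 / r + (C + 1) / 2 ^ r) = 1 + (r / 2 ^ r) * (C + 1) := by
        field_simp
      have h8 : (r : ℝ) / 2 ^ r ≤ 1 := by
        rw [div_le_one (by positivity)]
        exact h4
      have h9 : (r / 2 ^ r) * (C + 1) ≤ 1 * (C + 1) :=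
        mul_le_mul_of_nonneg_right h8 (by linarith)
      linarith
  calc ∑ k ∈ E, |∑ j ∈ A, (1 / ((2 ^ r * sf.f (kap K (π j)) : ℕ) : ℝ)) * ∑ i ∈ G j, θ j i * v j i k|
      ≤ ∑ k ∈ E, ∑ j ∈ A,
        |(1 / ((2 ^ r * sf.f (kap K (π j)) : ℕ) : ℝ)) * ∑ i ∈ G j, θ j i * v j i k| :=
        Finset.sum_le_sum fun k _ => Finset.abs_sum_le_sum_abs _ _
    _ = ∑ j ∈ A, T j := Finset.sum_comm
    _ ≤ 3 * C + 2 := by
        rw [hsplit]
        linarith

end Pool.Agent.Comb7f333f.SPart
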