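import Pool.Agent.Lib.MP_7f333f_an.Siz.Api
import Pool.Agent.Lib.MP_7f333f_an.Siz.A1
import Pool.Agent.Lib.MP_7f333f_an.Siz.H34
import Pool.Agent.Lib.MP_7f333f_an.Siz.H7

set_option autoImplicit false
set_option linter.unusedSectionVars false
set_option linter.unusedVariables false

/-!
Module S16: from the tower to the data of the finite theorem.
-/

namespace Pool.Agent.Comb7f333f.SPart

open Filter Topology

/-! ### Prefixes -/

section Pre

variable {r M : ℕ} {G : Type*} [Group G] (g : ℕ → Fin M → G)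

/-- The prefix depends only on the first letters. -/
theorem t1_pre_congr {w w' : Fin r → Fin M} {m : ℕ}
    (h : ∀ k : Fin r, (k : ℕ) < m → w k = w' k) : pre g w m = pre g w' m := by
  induction m with
  | zero => rfl
  | succ m ih =>
    simp only [pre]
    rw [ih fun k hk => h k (by omega)]
    congr 1
    unfold stp
    split_ifs with hm
    · rw [h ⟨m, hm⟩ (Nat.lt_succ_self m)]
    · rfl

/-- The suffix depends only on the last letters. -/
theorem t1_suf_congr {w w' : Fin r → Fin M} {j : ℕ}
    (h : ∀ k : Fin r, j < (k : ℕ) → w k = w' k) (m : ℕ) :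
    pre g w (j + 1 + m) * (pre g w (j + 1))⁻¹ = pre g w' (j + 1 + m) * (pre g w' (j + 1))⁻¹ := by
  induction m with
  | zero => simp
  | succ m ih =>
    rw [← add_assoc]
    simp only [pre] at ih ⊢
    rw [mul_assoc, mul_assoc, ih]
    congr 1
    unfold stp
    split_ifs with hm
    · rw [h ⟨j + 1 + m, hm⟩ (by simp only; omega)]
    · rfl

/-- The common suffix of two words which differ only at level `l`. -/
theorem t1_suf (w : Fin r → Fin M) (l : Fin r) (a : Fin M) :
    pre g (Function.update w l a) r * (pre g (Function.update w l a) (l + 1))⁻¹ =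
      pre g w r * (pre g w (l + 1))⁻¹ := by
  have h1 := t1_suf_congr g (w := Function.update w l a) (w' := w) (j := (l : ℕ))
    (fun k hk => Function.update_of_ne (ne_of_gt (show l < k from hk)) _ _) (r - (l + 1))
  have h2 : (l : ℕ) + 1 + (r - (l + 1)) = r := by have := l.2; omega
  rwa [h2] at h1

/-- The prefix after the change of the last letter. -/
theorem t1_last (w : Fin r → Fin M) (l : Fin r) (a : Fin M) :
    pre g (Function.update w l a) (l + 1) = g l a * pre g w l := by
  show stp g (Function.update w l a) l * pre g (Function.update w l a) l = _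
  have h2 : pre g (Function.update w l a) l = pre g w l :=
    t1_pre_congr g fun k hk => Function.update_of_ne (Fin.ne_of_lt hk) _ _
  rw [h2]
  congr 1
  unfold stp
  rw [dif_pos l.2]
  simp

end Pre

theorem t1_kap_mono (K : ℕ → ℕ) : Monotone (kap K) := by
  refine monotone_nat_of_le_succ fun j => ?_
  unfold kap
  rw [Finset.sum_range_succ]
  omega

section Words

variable {r M : ℕ} {N : Fin r → ℕ}

/-- The letters of a word with numbers. -/
def lett (ω : (l : Fin r) → Fin M × Fin (N l)) : Fin r → Fin M := fun l => (ω l).1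

theorem lett_update (ω : (l : Fin r) → Fin M × Fin (N l)) (l : Fin r) (j : Fin M × Fin (N l)) :
    lett (Function.update ω l j) = Function.update (lett ω) l j.1 := by
  funext k
  unfold lett
  by_cases h : k = l
  · subst h
    simp
  · rw [Function.update_of_ne h, Function.update_of_ne h]

end Words

section Group

variable {sf : Siz} {X : Type*} [NormedAddCommGroup X] [NormedSpace ℝ X] {e : ℕ → X}
  (hX : IsCombSpace (sz sf) e) {G : Type*} [Group G] (A : G →* (X →L[ℝ] X)) (C : ℝ)
  (hC : 1 ≤ C) (hA : ∀ g x, ‖A g x‖ ≤ C * ‖x‖) (γ : ℕ → G)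
  (hnull : ∀ x k, Tendsto (fun n => co e (A (γ n) x) k) atTop (𝓝 0))

theorem t1_mul (g h : G) (x : X) : A (g * h) x = A g (A h x) := by
  rw [map_mul]; rfl

include hX hC hA

/-- The square function of the rows of a level. -/
theorem t1_level (r M : ℕ) {Λ : ℝ} (t : Tower sf A e C Λ r M) (w : Fin r → Fin M) (l : Fin r)
    (Z : ℕ) (z : ℕ → ℝ) (B : ℝ) (hz : ∀ s, 0 ≤ z s) (hzB : SB sf z B) :
    ∑ s ∈ Finset.range Z, Real.sqrt (∑ j : Fin M × Fin (t.N l),
      co e (A (pre t.g (Function.update w l j.1) r)⁻¹ (e s))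
        (t.i l (Function.update w l j.1) j.2) ^ 2) * z s ≤ 4 * Real.sqrt 3 * C ^ 2 * B := by
  classical
  have hC0 : 0 < C := by linarith
  have hB : 0 ≤ B := SB_nonneg hzB
  set x : Fin M × Fin (t.N l) → ℕ → ℝ := fun j s =>
    co e (A (pre t.g (Function.update w l j.1) r)⁻¹ (e s))
      (t.i l (Function.update w l j.1) j.2) with hx
  have key : ∀ θ : Fin M × Fin (t.N l) → ℝ, IsSign θ → ∑ s ∈ Finset.range Z,
      |∑ j ∈ (Finset.univ : Finset (Fin M × Fin (t.N l))), θ j * x j s| * z s ≤
        (C + 1) * C * B := by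
    intro θ hθ
    set a : ℕ → ℝ := fun s => SignType.sign (∑ j, θ j * x j s) * z s with ha
    have haB : SB sf a B := by
      refine SB_mono hzB fun k => ?_
      rw [ha]
      simp only
      rw [abs_mul]
      have : |((SignType.sign (∑ j, θ j * x j k) : SignType) : ℝ)| ≤ 1 := by
        rcases SignType.trichotomy (SignType.sign (∑ j, θ j * x j k)) with h | h | h <;>
          rw [h] <;> simp
      exact mul_le_of_le_one_left (abs_nonneg _) this
    have hy : ‖vec e (Finset.range Z) a‖ ≤ B := norm_vec_le hX haB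
    have h1 : ∑ s ∈ Finset.range Z, |∑ j, θ j * x j s| * z s =
        ∑ j : Fin M × Fin (t.N l), θ j *
          co e (A (pre t.g (Function.update w l j.1) r)⁻¹ (vec e (Finset.range Z) a))
            (t.i l (Function.update w l j.1) j.2) := by
      have h2 : ∀ s, |∑ j, θ j * x j s| * z s = ∑ j, θ j * (a s * x j s) := by
        intro s
        rw [← sign_mul_self, ha]
        simp only
        rw [Finset.mul_sum, Finset.sum_mul]
        refine Finset.sum_congr rfl fun i _ => ?_
        ring
      rw [Finset.sum_congr rfl fun s _ => h2 s, Finset.sum_comm]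
      refine Finset.sum_congr rfl fun j _ => ?_
      rw [map_vec, Finset.mul_sum]
    rw [h1]
    set y' := A (pre t.g w r * (pre t.g w (l + 1))⁻¹)⁻¹ (vec e (Finset.range Z) a) with hy'
    have hy'n : ‖y'‖ ≤ C * B := (hA _ _).trans (mul_le_mul_of_nonneg_left hy hC0.le)
    have h3 : ∀ j : Fin M × Fin (t.N l),
        A (pre t.g (Function.update w l j.1) r)⁻¹ (vec e (Finset.range Z) a) =
          A (pre t.g (Function.update w l j.1) (l + 1))⁻¹ y' := by
      intro j
      rw [hy', ← t1_suf t.g w l j.1, ← t1_mul]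
      congr 2
      group
    have hrow := (t.lev l).row w y'
    calc ∑ j : Fin M × Fin (t.N l), θ j *
          co e (A (pre t.g (Function.update w l j.1) r)⁻¹ (vec e (Finset.range Z) a))
            (t.i l (Function.update w l j.1) j.2)
        ≤ ∑ j : Fin M × Fin (t.N l),
          |co e (A (pre t.g (Function.update w l j.1) (l + 1))⁻¹ y')
            (t.i l (Function.update w l j.1) j.2)| := by
          refine Finset.sum_le_sum fun j _ => ?_
          rw [h3 j]
          refine (le_abs_self _).trans ?_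
          rw [abs_mul]
          have h4 : |θ j| = 1 := by rcases hθ j with h | h <;> rw [h] <;> norm_num
          rw [h4, one_mul]
      _ = ∑ a : Fin M, ∑ ν ∈ Finset.range (t.N l),
          |co e (A (pre t.g (Function.update w l a) (l + 1))⁻¹ y')
            (t.i l (Function.update w l a) ν)| := by
          rw [Fintype.sum_prod_type]
          refine Finset.sum_congr rfl fun a _ => ?_
          exact Fin.sum_univ_eq_sum_range
            (fun ν => |co e (A (pre t.g (Function.update w l a) (l + 1))⁻¹ y')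
              (t.i l (Function.update w l a) ν)|) (t.N l)
      _ ≤ (C + 1) * ‖y'‖ := hrow
      _ ≤ (C + 1) * (C * B) := mul_le_mul_of_nonneg_left hy'n (by linarith)
      _ = (C + 1) * C * B := by ring
  refine (khintchine_weighted Finset.univ (Finset.range Z) z (fun s _ => hz s) x
    ((C + 1) * C * B) key).trans ?_
  have h5 : (C + 1) * C ≤ 4 * C ^ 2 := by nlinarith
  have h6 : (C + 1) * C * B ≤ 4 * C ^ 2 * B := mul_le_mul_of_nonneg_right h5 hB
  calc Real.sqrt 3 * ((C + 1) * C * B) ≤ Real.sqrt 3 * (4 * C ^ 2 * B) :=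
        mul_le_mul_of_nonneg_left h6 (Real.sqrt_nonneg _)
    _ = _ := by ring

/-- The functional of a column is at least one half on the truncated vector. -/
theorem t1_half (P Q : X →L[ℝ] X) (hP : ∀ x, ‖P x‖ ≤ C * ‖x‖) (i Z : ℕ)
    (hPQ : P (Q (e i)) = e i)
    (hZ : ‖Q (e i) - vec e (Finset.range Z) (co e (Q (e i)))‖ ≤ 1 / (2 * C)) :
    1 / 2 ≤ ∑ s ∈ Finset.range Z, |co e (P (e s)) i| * |co e (Q (e i)) s| := by
  have hC0 : 0 < C := by linarith
  have h1 : |1 - co e (P (vec e (Finset.range Z) (co e (Q (e i))))) i| ≤ 1 / 2 := by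
    have h2 : co e (P (Q (e i))) i = 1 := by rw [hPQ, co_basis hX, if_pos rfl]
    have h5 : 1 - co e (P (vec e (Finset.range Z) (co e (Q (e i))))) i =
        co e (P (Q (e i) - vec e (Finset.range Z) (co e (Q (e i))))) i := by
      rw [map_sub, co_sub, h2]
    rw [h5]
    refine (abs_co_le hX _ _).trans ((hP _).trans ?_)
    refine (mul_le_mul_of_nonneg_left hZ hC0.le).trans (le_of_eq ?_)
    field_simp
  rw [map_vec] at h1
  have h3 : (1 : ℝ) / 2 ≤ |∑ k ∈ Finset.range Z, co e (Q (e i)) k * co e (P (e k)) i| := by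
    have h4 := abs_sub_abs_le_abs_sub (1 : ℝ)
      (∑ k ∈ Finset.range Z, co e (Q (e i)) k * co e (P (e k)) i)
    rw [abs_one] at h4
    linarith
  refine h3.trans ((Finset.abs_sum_le_sum_abs _ _).trans (le_of_eq ?_))
  refine Finset.sum_congr rfl fun s _ => ?_
  rw [abs_mul]
  ring

omit hC in
/-- A truncation which is good for all the words. -/
theorem t1_trunc {r M : ℕ} {Λ : ℝ} (hC0 : 0 < C) (t : Tower sf A e C Λ r M) :
    ∃ Z : ℕ, ∀ ω : (l : Fin r) → Fin M × Fin (t.N l), ∀ l : Fin r,
      ‖A (pre t.g (lett ω) r) (e (t.i l (lett ω) (ω l).2)) - vec e (Finset.range Z)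
        (co e (A (pre t.g (lett ω) r) (e (t.i l (lett ω) (ω l).2))))‖ ≤ 1 / (2 * C) := by
  have h2 : ∀ᶠ Z in atTop, ∀ p : ((l : Fin r) → Fin M × Fin (t.N l)) × Fin r,
      ‖A (pre t.g (lett p.1) r) (e (t.i p.2 (lett p.1) (p.1 p.2).2)) - vec e (Finset.range Z)
        (co e (A (pre t.g (lett p.1) r) (e (t.i p.2 (lett p.1) (p.1 p.2).2))))‖ ≤
        1 / (2 * C) := by
    rw [Filter.eventually_all]
    intro p
    obtain ⟨Z0, hZ0⟩ := exists_tr hX (A (pre t.g (lett p.1) r) (e (t.i p.2 (lett p.1) (p.1 p.2).2)))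
      (1 / (2 * C)) (by positivity)
    filter_upwards [eventually_ge_atTop Z0] with Z hZ
    exact hZ0 _ fun k hk => Finset.mem_range.mpr (by omega)
  obtain ⟨Z, hZ⟩ := h2.exists
  exact ⟨Z, fun ω l => hZ (ω, l)⟩

include hnull

omit hnull in
/-! ### Module S16: from the tower to the data -/

theorem exists_coreData (Λ : ℝ) (r M : ℕ) (hr : 1 ≤ r) (hM : 1 ≤ M)
    (t : Tower sf A e C Λ r M) :
    Nonempty (CoreData sf C (4 * Real.sqrt 3 * C ^ 2) (C * (C ^ 2 + 1)) (C * (3 * C + 2))
      Λ r M) := by
  classical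
  have hC0 : 0 < C := by linarith
  have hnA : ∀ (g : G) (i : ℕ), ‖A g (e i)‖ ≤ C := fun g i => by
    have h1 := hA g (e i)
    have h2 := norm_e_le hX i
    nlinarith
  obtain ⟨Z, hZ⟩ := t1_trunc hX A C hA hC0 t
  refine ⟨{
    Z := Z
    N := fun l => t.N l
    f := fun l => 2 ^ r * sf.f (kap t.K l)
    v := fun ω l s => co e (A (pre t.g (lett ω) r) (e (t.i l (lett ω) (ω l).2))) s
    ζ := fun ω l s => co e (A (pre t.g (lett ω) r)⁻¹ (e s)) (t.i l (lett ω) (ω l).2)
    f_pos := ?_
    f_mono := ?_
    hn := ?_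
    h0 := ?_
    h1 := ?_
    h2 := ?_
    h3 := ?_
    h4 := ?_
    h4' := ?_
    h5 := ?_ }⟩
  · intro l
    have h1 := sf.pos (kap t.K l)
    have h2 : 1 ≤ 2 ^ r := Nat.one_le_two_pow
    exact Nat.one_le_iff_ne_zero.mpr (Nat.mul_ne_zero (by omega) (by omega))
  · intro l l' hll
    exact Nat.mul_le_mul_left _ (sf.mono (t1_kap_mono t.K hll))
  · intro l
    have h1 := t.card_N l l.2
    push_cast
    rw [← mul_assoc]
    exact h1
  · intro ω l F hF
    exact (SB_co hX _ F hF).trans (hnA _ _)
  · intro ω l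
    refine t1_half hX A C hC hA (A (pre t.g (lett ω) r)⁻¹) (A (pre t.g (lett ω) r)) (hA _) _ Z ?_
      (hZ ω l)
    rw [← t1_mul, inv_mul_cancel, map_one]
    rfl
  · intro ω z B hz hzB
    have h1 := h34_lemma hX C hC (A (pre t.g (lett ω) r)⁻¹) (hA _) (Finset.univ : Finset (Fin r))
      (fun l => t.i l (lett ω) (ω l).2) ?_ ?_ (fun _ => 1) ?_ Z z B hz hzB
    · simpa using h1
    · intro l _ l' _ hll
      have h2 := (t.lev l).range (lett ω) (ω l).2 (ω l).2.2
      have h3 := (t.lev l').range (lett ω) (ω l').2 (ω l').2.2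
      have h4 : t.i l (lett ω) (ω l).2 = t.i l' (lett ω) (ω l').2 := hll
      rcases lt_trichotomy l l' with h5 | h5 | h5
      · have := h7_kap_lt t.K (i := (l : ℕ)) (j := (l' : ℕ)) h5
        omega
      · exact h5
      · have := h7_kap_lt t.K (i := (l' : ℕ)) (j := (l : ℕ)) h5
        omega
    · intro l _
      rw [Finset.card_univ, Fintype.card_fin]
      exact (t.lev l).size (lett ω) (ω l).2 (ω l).2.2
    · intro l _
      rw [abs_one, div_le_one (by positivity)]
      linarith
  · intro ω l z B hz hzB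
    have h1 := t1_level hX A C hC hA r M t (lett ω) l Z z B hz hzB
    refine le_trans (le_of_eq ?_) h1
    refine Finset.sum_congr rfl fun s _ => ?_
    congr 2
    refine Finset.sum_congr rfl fun j _ => ?_
    simp only [lett_update, Function.update_self]
  · intro ω k l hkl θ hθ
    have hkl' : (k : ℕ) < l := hkl
    set w := lett ω with hw
    have h1 : ∀ a : Fin M,
        A (pre t.g (lett (Function.update ω l (a, (ω l).2))) r)
          (e (t.i k (lett (Function.update ω l (a, (ω l).2)))
            ((Function.update ω l (a, (ω l).2)) k).2)) =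
        A (pre t.g w r * (pre t.g w (l + 1))⁻¹)
          (A (t.g l a) (A (pre t.g w l) (e (t.i k w (ω k).2)))) := by
      intro a
      rw [lett_update, Function.update_of_ne (ne_of_lt hkl)]
      simp only
      rw [← hw]
      have h2 : t.i k (Function.update w l a) = t.i k w :=
        (t.lev k).dep _ _ fun k' hk' =>
          Function.update_of_ne (ne_of_lt (lt_of_le_of_lt hk' hkl)) _ _
      rw [h2, ← t1_suf t.g w l a, t1_last, ← t1_mul, ← t1_mul]
      congr 2
      group
    have h6 : (fun s => ∑ a, θ a * co e (A (pre t.g (lett (Function.update ω l (a, (ω l).2))) r)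
          (e (t.i k (lett (Function.update ω l (a, (ω l).2)))
            ((Function.update ω l (a, (ω l).2)) k).2))) s) =
        co e (A (pre t.g w r * (pre t.g w (l + 1))⁻¹)
          (∑ a, θ a • A (t.g l a) (A (pre t.g w l) (e (t.i k w (ω k).2))))) := by
      funext s
      rw [map_sum, co_sum]
      refine Finset.sum_congr rfl fun a _ => ?_
      rw [map_smul, co_smul, h1 a]
    show SB sf (fun s => ∑ a, θ a * co e (A (pre t.g (lett (Function.update ω l (a, (ω l).2))) r)
          (e (t.i k (lett (Function.update ω l (a, (ω l).2)))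
            ((Function.update ω l (a, (ω l).2)) k).2))) s) _
    rw [h6]
    intro F hF
    refine (SB_co hX _ F hF).trans ((hA _ _).trans ?_)
    exact mul_le_mul_of_nonneg_left (t.signs l l.2 w k hkl' (ω k).2 (ω k).2.2 θ hθ) hC0.le
  · intro ω k l hkl a ν ν'
    funext s
    rw [lett_update, lett_update, Function.update_of_ne (ne_of_lt hkl),
      Function.update_of_ne (ne_of_lt hkl)]
  · intro ω S π hπ hπ' a I hI θ hθ
    set w := lett ω with hw
    -- the pulled back vectors
    set u : (l : Fin r) → ℕ → X := fun l ν =>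
      A ((pre t.g w (l + 1))⁻¹ * pre t.g (Function.update w l (a l)) (l + 1))
        (e (t.i l (Function.update w l (a l)) ν)) with hu
    set θ' : Fin r → ℕ → ℝ := fun l ν => if h : ν < t.N l then θ l ⟨ν, h⟩ else 1 with hθ'
    have hθ'1 : ∀ l ν, θ' l ν = 1 ∨ θ' l ν = -1 := by
      intro l ν
      rw [hθ']
      simp only
      split_ifs with h
      · exact hθ l _
      · exact Or.inl rfl
    have h1 := h7_lemma C hC r (fun l => Finset.range (t.N l)) t.K (fun l ν s => co e (u l ν) s)
      (fun l ν _ F hF => (SB_co hX (u l ν) F hF).trans (hnA _ _))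
      (fun l s => (t.lev l).sum_le w (Function.update w l (a l)) s)
      (fun l ν hν E hE hE' =>
        (t.lev l).tail w (Function.update w l (a l)) ν (Finset.mem_range.mp hν) E hE hE')
      S π hπ hπ' (fun l => (I l).map Fin.valEmbedding)
      (fun l hl => by
        refine ⟨fun ν hν => ?_, ?_⟩
        · rw [Finset.mem_map] at hν
          obtain ⟨ν', _, rfl⟩ := hν
          exact Finset.mem_range.mpr ν'.2
        · rw [Finset.card_map]
          exact hI l hl) θ' hθ'1
    have hsumI : ∀ (l : Fin r) (F : ℕ → ℝ), ∑ ν ∈ (I l).map Fin.valEmbedding, θ' l ν * F ν =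
        ∑ ν ∈ I l, θ l ν * F ν := by
      intro l F
      rw [Finset.sum_map]
      refine Finset.sum_congr rfl fun ν _ => ?_
      have : θ' l (Fin.valEmbedding ν) = θ l ν := by
        rw [hθ']
        simp
      rw [this]
      rfl
    have h1' : SB sf (fun s => ∑ l ∈ S, (1 / ((2 ^ r * sf.f (kap t.K (π l)) : ℕ) : ℝ)) *
        ∑ ν ∈ I l, θ l ν * co e (u l ν) s) (3 * C + 2) := by
      have h2 : (fun s => ∑ l ∈ S, (1 / ((2 ^ r * sf.f (kap t.K (π l)) : ℕ) : ℝ)) *
          ∑ ν ∈ I l, θ l ν * co e (u l ν) s) =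
          (fun s => ∑ l ∈ S, (1 / ((2 ^ r * sf.f (kap t.K (π l)) : ℕ) : ℝ)) *
          ∑ ν ∈ (I l).map Fin.valEmbedding, θ' l ν * co e (u l ν) s) := by
        funext s
        refine Finset.sum_congr rfl fun l _ => ?_
        rw [hsumI l fun ν => co e (u l ν) s]
      rw [h2]
      exact h1
    -- the vectors of the words
    set xv : (l : Fin r) → Fin (t.N l) → X := fun l ν =>
      A (pre t.g (Function.update w l (a l)) r) (e (t.i l (Function.update w l (a l)) ν)) with hxv
    have hpull : ∀ (l : Fin r) (ν : Fin (t.N l)), A (pre t.g w r) (u l ν) = xv l ν := by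
      intro l ν
      simp only [hu, hxv]
      rw [← t1_mul]
      congr 2
      have h3 := t1_suf t.g w l (a l)
      have h4 : pre t.g (Function.update w l (a l)) r =
          (pre t.g (Function.update w l (a l)) r *
            (pre t.g (Function.update w l (a l)) (l + 1))⁻¹) *
            pre t.g (Function.update w l (a l)) (l + 1) := by group
      rw [h4, h3]
      group
    have hco : ∀ v : (l : Fin r) → Fin (t.N l) → X,
        (fun s => ∑ l ∈ S, (1 / ((2 ^ r * sf.f (kap t.K (π l)) : ℕ) : ℝ)) *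
          ∑ ν ∈ I l, θ l ν * co e (v l ν) s) =
        co e (∑ l ∈ S, (1 / ((2 ^ r * sf.f (kap t.K (π l)) : ℕ) : ℝ)) •
          ∑ ν ∈ I l, θ l ν • v l ν) := by
      intro v
      funext s
      rw [co_sum]
      refine Finset.sum_congr rfl fun j _ => ?_
      rw [co_smul, co_sum]
      congr 1
      refine Finset.sum_congr rfl fun i _ => ?_
      rw [co_smul]
    have h3 := norm_le_of_SB hX (x := ∑ l ∈ S, (1 / ((2 ^ r * sf.f (kap t.K (π l)) : ℕ) : ℝ)) •
      ∑ ν ∈ I l, θ l ν • u l ν) (B := 3 * C + 2) (by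
        rw [← hco (fun l ν => u l ν)]
        exact h1')
    have h4 : A (pre t.g w r) (∑ l ∈ S, (1 / ((2 ^ r * sf.f (kap t.K (π l)) : ℕ) : ℝ)) •
        ∑ ν ∈ I l, θ l ν • u l ν) =
        ∑ l ∈ S, (1 / ((2 ^ r * sf.f (kap t.K (π l)) : ℕ) : ℝ)) •
          ∑ ν ∈ I l, θ l ν • xv l ν := by
      rw [map_sum]
      refine Finset.sum_congr rfl fun j _ => ?_
      rw [map_smul, map_sum]
      congr 1
      refine Finset.sum_congr rfl fun i _ => ?_
      rw [map_smul, hpull]
    have h5 : (fun s => ∑ l ∈ S, (1 / ((2 ^ r * sf.f (kap t.K (π l)) : ℕ) : ℝ)) *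
        ∑ ν ∈ I l, θ l ν * co e (A (pre t.g (lett (Function.update ω l (a l, ν))) r)
          (e (t.i l (lett (Function.update ω l (a l, ν)))
            ((Function.update ω l (a l, ν)) l).2))) s) =
        (fun s => ∑ l ∈ S, (1 / ((2 ^ r * sf.f (kap t.K (π l)) : ℕ) : ℝ)) *
        ∑ ν ∈ I l, θ l ν * co e (xv l ν) s) := by
      funext s
      refine Finset.sum_congr rfl fun l _ => ?_
      congr 1
      refine Finset.sum_congr rfl fun ν _ => ?_
      rw [lett_update, Function.update_self]
    show SB sf (fun s => ∑ l ∈ S, (1 / ((2 ^ r * sf.f (kap t.K (π l)) : ℕ) : ℝ)) *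
        ∑ ν ∈ I l, θ l ν * co e (A (pre t.g (lett (Function.update ω l (a l, ν))) r)
          (e (t.i l (lett (Function.update ω l (a l, ν)))
            ((Function.update ω l (a l, ν)) l).2))) s) _
    rw [h5, hco xv, ← h4]
    intro F hF
    exact (SB_co hX _ F hF).trans ((hA _ _).trans (mul_le_mul_of_nonneg_left h3 hC0.le))

end Group

end Pool.Agent.Comb7f333f.SPart
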