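import Pool.Agent.Lib.MP_7f333f_an.Siz.Coup

set_option autoImplicit false
set_option linter.unusedSectionVars false
set_option linter.unusedVariables false

/-!
The room: few letters occupy many elements of a set.
-/

namespace Pool.Agent.Comb7f333f.SPart

section Lev

variable {sf : Siz} {Z : ℕ} {C B₁ : ℝ} {J : Type} [Fintype J] (L : Lev sf Z C B₁ J)

namespace Lev

open scoped Classical in
/-- The number of letters without room. -/
theorem room_card (hC : 1 ≤ C) (hB : 1 ≤ B₁) (K₁ : ℕ)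
    (hK₁ : 16 / (dl C B₁ * ep C B₁ ^ 2) ≤ (K₁ : ℝ)) (A' : Finset ℕ) (hA' : A' ∈ sets sf Z) :
    ((Finset.univ.filter (fun j => ¬ L.room K₁ j A')).card : ℝ) ≤
      e0 C B₁ * Fintype.card J := by
  have hBC : 0 < B₁ * C := by positivity
  have hep : 0 < ep C B₁ := by unfold ep; positivity
  have hdl : 0 < dl C B₁ := by unfold dl; positivity
  have he0 : e0 C B₁ = dl C B₁ / 16 := by
    unfold e0 dl
    field_simp
    norm_num
  have hK1 : 0 < (K₁ : ℝ) := lt_of_lt_of_le (by positivity) hK₁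
  have hK₁' : 1 / (K₁ * ep C B₁ ^ 2) ≤ dl C B₁ / 16 := by
    rw [div_le_iff₀ (by positivity)] at hK₁ ⊢
    nlinarith
  rcases Finset.eq_empty_or_nonempty (Finset.univ.filter (fun j => ¬ L.room K₁ j A')) with h0 | h0
  · rw [h0]
    simp only [Finset.card_empty, Nat.cast_zero]
    rw [he0]
    positivity
  obtain ⟨j0, hj0⟩ := h0
  have hA0 : A'.Nonempty := by
    rw [Finset.nonempty_iff_ne_empty]
    rintro rfl
    apply (Finset.mem_filter.1 hj0).2
    unfold Lev.room
    simp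
  have hmn : mn A' ∈ A' := by
    have := Nat.sInf_mem (s := (A' : Set ℕ)) (by simpa using hA0)
    exact this
  obtain ⟨hAr, hAs⟩ := Finset.mem_filter.1 hA'
  have hcard : A'.card ≤ sf.f (mn A') := hAs _ hmn
  have hApos : 0 < (A'.card : ℝ) := by exact_mod_cast Finset.card_pos.2 hA0
  have hAZ : ∀ s ∈ A', s < Z := fun s hs => Finset.mem_range.1 (Finset.mem_powerset.1 hAr hs)
  have h1 : ∀ j ∈ Finset.univ.filter (fun j => ¬ L.room K₁ j A'), (K₁ : ℝ) * A'.card ≤
      ((A'.filter (fun s => ep C B₁ ≤ L.ej j s)).card : ℝ) * Fintype.card J := by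
    intro j hj
    have h2 := (Finset.mem_filter.1 hj).2
    unfold Lev.room at h2
    push Not at h2
    have h3 : K₁ * A'.card ≤ (A'.filter (fun s => ep C B₁ ≤ L.ej j s)).card * Fintype.card J :=
      (Nat.mul_le_mul_left _ hcard).trans h2.le
    exact_mod_cast h3
  have h2 : ∀ s ∈ A', ((Finset.univ.filter (fun j => ep C B₁ ≤ L.ej j s)).card : ℝ) *
      ep C B₁ ^ 2 ≤ 1 := by
    intro s hs
    refine le_trans ?_ (L.sum_ej_sq_le hC hB s (hAZ s hs))
    rw [← nsmul_eq_mul, ← Finset.sum_const]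
    refine le_trans (Finset.sum_le_sum (g := fun j => L.ej j s ^ 2) fun j hj => ?_)
      (Finset.sum_le_sum_of_subset_of_nonneg (Finset.filter_subset _ _)
        (fun j _ _ => sq_nonneg _))
    exact pow_le_pow_left₀ hep.le (Finset.mem_filter.1 hj).2 2
  have h3 : (∑ j : J, ((A'.filter (fun s => ep C B₁ ≤ L.ej j s)).card : ℝ)) =
      ∑ s ∈ A', ((Finset.univ.filter (fun j => ep C B₁ ≤ L.ej j s)).card : ℝ) := by
    have e1 : ∀ j : J, ((A'.filter (fun s => ep C B₁ ≤ L.ej j s)).card : ℝ) =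
        ∑ s ∈ A', if ep C B₁ ≤ L.ej j s then (1 : ℝ) else 0 := by
      intro j
      rw [Finset.sum_boole]
    have e2 : ∀ s : ℕ, ((Finset.univ.filter (fun j => ep C B₁ ≤ L.ej j s)).card : ℝ) =
        ∑ j, if ep C B₁ ≤ L.ej j s then (1 : ℝ) else 0 := by
      intro s
      rw [Finset.sum_boole]
    simp only [e1, e2]
    exact Finset.sum_comm
  have h4 : ((Finset.univ.filter (fun j => ¬ L.room K₁ j A')).card : ℝ) * (K₁ * A'.card) ≤
      (∑ s ∈ A', ((Finset.univ.filter (fun j => ep C B₁ ≤ L.ej j s)).card : ℝ)) *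
        Fintype.card J := by
    rw [← h3, Finset.sum_mul, ← nsmul_eq_mul, ← Finset.sum_const]
    refine le_trans (Finset.sum_le_sum h1) ?_
    exact Finset.sum_le_sum_of_subset_of_nonneg (Finset.filter_subset _ _)
      (fun j _ _ => by positivity)
  have h5 : (∑ s ∈ A', ((Finset.univ.filter (fun j => ep C B₁ ≤ L.ej j s)).card : ℝ)) *
      ep C B₁ ^ 2 ≤ A'.card := by
    rw [Finset.sum_mul]
    refine (Finset.sum_le_sum h2).trans ?_
    simp
  have h6 : ((Finset.univ.filter (fun j => ¬ L.room K₁ j A')).card : ℝ) * (K₁ * ep C B₁ ^ 2) *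
      A'.card ≤ Fintype.card J * A'.card := by
    calc ((Finset.univ.filter (fun j => ¬ L.room K₁ j A')).card : ℝ) * (K₁ * ep C B₁ ^ 2) *
      A'.card = (((Finset.univ.filter (fun j => ¬ L.room K₁ j A')).card : ℝ) *
        (K₁ * A'.card)) * ep C B₁ ^ 2 := by ring
      _ ≤ ((∑ s ∈ A', ((Finset.univ.filter (fun j => ep C B₁ ≤ L.ej j s)).card : ℝ)) *
        Fintype.card J) * ep C B₁ ^ 2 := mul_le_mul_of_nonneg_right h4 (by positivity)
      _ = ((∑ s ∈ A', ((Finset.univ.filter (fun j => ep C B₁ ≤ L.ej j s)).card : ℝ)) *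
        ep C B₁ ^ 2) * Fintype.card J := by ring
      _ ≤ A'.card * Fintype.card J := mul_le_mul_of_nonneg_right h5 (by positivity)
      _ = Fintype.card J * A'.card := by ring
  have h7 := le_of_mul_le_mul_right h6 hApos
  rw [he0]
  have h8 : ((Finset.univ.filter (fun j => ¬ L.room K₁ j A')).card : ℝ) ≤
      1 / (K₁ * ep C B₁ ^ 2) * Fintype.card J := by
    rw [one_div, inv_mul_eq_div, le_div_iff₀ (by positivity)]
    exact h7
  exact h8.trans (mul_le_mul_of_nonneg_right hK₁' (by positivity))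

open scoped Classical in
theorem disc4 (hC : 1 ≤ C) (hB : 1 ≤ B₁) (K₁ : ℕ)
    (hK₁ : 16 / (dl C B₁ * ep C B₁ ^ 2) ≤ (K₁ : ℝ)) :
    ∑ j, ∑ A' ∈ (sets sf Z).filter (fun A' => ¬ L.room K₁ j A'), ∑ A ∈ sets sf Z, L.kp j A A' ≤
      e0 C B₁ * Fintype.card J := by
  calc ∑ j, ∑ A' ∈ (sets sf Z).filter (fun A' => ¬ L.room K₁ j A'), ∑ A ∈ sets sf Z, L.kp j A A'
      ≤ ∑ j, ∑ A' ∈ (sets sf Z).filter (fun A' => ¬ L.room K₁ j A'), L.gam A' := by
        refine Finset.sum_le_sum fun j _ => Finset.sum_le_sum fun A' hA' => ?_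
        exact L.sum_kp_j_le hC hB j A' (Finset.mem_filter.1 hA').1
    _ = ∑ A' ∈ sets sf Z, ∑ j ∈ Finset.univ.filter (fun j => ¬ L.room K₁ j A'), L.gam A' := by
        simp only [Finset.sum_filter]
        exact Finset.sum_comm
    _ = ∑ A' ∈ sets sf Z, ((Finset.univ.filter (fun j => ¬ L.room K₁ j A')).card : ℝ) *
          L.gam A' := by
        refine Finset.sum_congr rfl fun A' _ => ?_
        rw [Finset.sum_const, nsmul_eq_mul]
    _ ≤ ∑ A' ∈ sets sf Z, (e0 C B₁ * Fintype.card J) * L.gam A' := by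
        refine Finset.sum_le_sum fun A' hA' => ?_
        exact mul_le_mul_of_nonneg_right (L.room_card hC hB K₁ hK₁ A' hA') (L.gam_nonneg A')
    _ = e0 C B₁ * Fintype.card J := by
        rw [← Finset.mul_sum, L.gam_sum, mul_one]

end Lev

end Lev

end Pool.Agent.Comb7f333f.SPart
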