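import Pool.Agent.Lib.MP_7f333f_an.Siz.Api

set_option autoImplicit false
set_option linter.unusedSectionVars false

/-!
The functional of a good position is at least one half on the truncated vector.
-/

namespace Pool.Agent.Comb7f333f.SPart

open Filter Topology

variable {sf : Siz}

section H

variable {X : Type*} [NormedAddCommGroup X] [NormedSpace ℝ X] {e : ℕ → X}
  (hX : IsCombSpace (sz sf) e)

include hX

/-- H1 -/
theorem h1_lemma (C : ℝ) (hC : 1 ≤ C) (P : X →L[ℝ] X) (hP : ∀ x, ‖P x‖ ≤ C * ‖x‖) (x : X)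
    (sg Z : ℕ) (hsg : 1 / (4 * C) ≤ |co e (P x) sg|)
    (hZ : ‖x - vec e (Finset.range Z) (co e x)‖ ≤ 1 / (8 * C ^ 2)) :
    1 / 2 ≤ ∑ s ∈ Finset.range Z, |co e (P (e s)) sg / co e (P x) sg| * |co e x s| := by
  have hC0 : 0 < C := by linarith
  set w := co e (P x) sg with hw
  have hwpos : 0 < |w| := lt_of_lt_of_le (by positivity) hsg
  have h1 : |w - co e (P (vec e (Finset.range Z) (co e x))) sg| ≤ 1 / (8 * C) := by
    rw [hw, ← co_sub, ← map_sub]
    refine (abs_co_le hX _ _).trans ((hP _).trans ?_)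
    refine (mul_le_mul_of_nonneg_left hZ hC0.le).trans (le_of_eq ?_)
    field_simp
  rw [map_vec] at h1
  have h2 : |w| - 1 / (8 * C) ≤ |∑ k ∈ Finset.range Z, co e x k * co e (P (e k)) sg| := by
    have := abs_sub_abs_le_abs_sub w (∑ k ∈ Finset.range Z, co e x k * co e (P (e k)) sg)
    linarith
  have h3 : 1 / (8 * C) ≤ |w| / 2 := by
    have : 1 / (8 * C) = (1 / (4 * C)) / 2 := by
      field_simp
      norm_num
    rw [this]
    linarith
  have h4 : ∑ s ∈ Finset.range Z, |co e (P (e s)) sg / w| * |co e x s| =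
      (∑ s ∈ Finset.range Z, |co e x s * co e (P (e s)) sg|) / |w| := by
    rw [Finset.sum_div]
    refine Finset.sum_congr rfl fun s _ => ?_
    rw [abs_div, abs_mul]
    ring
  rw [h4, le_div_iff₀ hwpos]
  have h5 := Finset.abs_sum_le_sum_abs (fun k => co e x k * co e (P (e k)) sg) (Finset.range Z)
  linarith

end H

end Pool.Agent.Comb7f333f.SPart
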