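import Pool.Agent.Lib.MP_7f333f_an.Siz.CDefs

set_option autoImplicit false

/-!
Finite duality: a functional dominated by the norm is dominated by the marginals of a probability
measure on the sets of the family.
-/

namespace Pool.Agent.Comb7f333f.SPart

open Filter Topology
open scoped Pointwise

namespace MeasAux

/-- The marginals as a linear map. -/
noncomputable def marg (sf : Siz) (Z : ℕ) :
    ({A // A ∈ sets sf Z} → ℝ) →ₗ[ℝ] (Fin Z → ℝ) where
  toFun := fun lam s => ∑ A : {A // A ∈ sets sf Z}, if (s : ℕ) ∈ A.1 then lam A else 0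
  map_add' := by
    intro a b
    funext s
    simp only [Pi.add_apply]
    rw [← Finset.sum_add_distrib]
    refine Finset.sum_congr rfl fun A _ => ?_
    split_ifs <;> simp
  map_smul' := by
    intro c a
    funext s
    simp only [Pi.smul_apply, smul_eq_mul, RingHom.id_apply]
    rw [Finset.mul_sum]
    refine Finset.sum_congr rfl fun A _ => ?_
    split_ifs <;> simp

theorem empty_mem (sf : Siz) (Z : ℕ) : (∅ : Finset ℕ) ∈ sets sf Z := by
  classical
  unfold sets
  rw [Finset.mem_filter, Finset.mem_powerset]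
  exact ⟨Finset.empty_subset _, fun k hk => absurd hk (Finset.notMem_empty k)⟩

theorem mem_sets {sf : Siz} {Z : ℕ} {A : Finset ℕ} :
    A ∈ sets sf Z ↔ A ⊆ Finset.range Z ∧ A ∈ sz sf := by
  classical
  unfold sets
  rw [Finset.mem_filter, Finset.mem_powerset]

/-- The vectors dominated by marginals. -/
def dom (sf : Siz) (Z : ℕ) : Set (Fin Z → ℝ) :=
  (marg sf Z) '' (stdSimplex ℝ {A // A ∈ sets sf Z}) + Set.Iic 0

theorem dom_convex (sf : Siz) (Z : ℕ) : Convex ℝ (dom sf Z) :=
  ((convex_stdSimplex ℝ _).linear_image _).add (convex_Iic _)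

theorem dom_closed (sf : Siz) (Z : ℕ) : IsClosed (dom sf Z) := by
  refine IsClosed.add_left_of_isCompact isClosed_Iic ?_
  exact (isCompact_stdSimplex ℝ _).image (LinearMap.continuous_of_finiteDimensional _)

theorem apply_eq_sum {Z : ℕ} (f : (Fin Z → ℝ) →L[ℝ] ℝ) (x : Fin Z → ℝ) :
    f x = ∑ s, x s * f (Pi.single s 1) := by
  have h : x = ∑ s, x s • (Pi.single s 1 : Fin Z → ℝ) := by
    funext t
    simp [Finset.sum_apply, Pi.single_apply]
  conv_lhs => rw [h]
  rw [map_sum]
  refine Finset.sum_congr rfl fun s _ => ?_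
  rw [map_smul, smul_eq_mul]

end MeasAux

open MeasAux

theorem exists_measure (sf : Siz) (Z : ℕ) (B₁ : ℝ) (hB₁ : 0 < B₁) (h : ℕ → ℝ)
    (hh : ∀ s, 0 ≤ h s)
    (hb : ∀ (z : ℕ → ℝ) (B : ℝ), (∀ s, 0 ≤ z s) → SB sf z B →
      ∑ s ∈ Finset.range Z, h s * z s ≤ B₁ * B) :
    ∃ lam : Finset ℕ → ℝ, (∀ A, 0 ≤ lam A) ∧ ∑ A ∈ sets sf Z, lam A = 1 ∧
      ∀ s < Z, h s ≤ B₁ * mg (sets sf Z) lam s := by
  classical
  by_cases hx : (fun s : Fin Z => h s / B₁) ∈ dom sf Z
  · obtain ⟨a, ⟨lam, hlam, rfl⟩, q, hq, haq⟩ := Set.mem_add.mp hx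
    refine ⟨fun A => if hA : A ∈ sets sf Z then lam ⟨A, hA⟩ else 0, ?_, ?_, ?_⟩
    · intro A
      dsimp only
      split_ifs with hA
      · exact hlam.1 _
      · exact le_rfl
    · rw [← Finset.sum_coe_sort]
      rw [← hlam.2]
      refine Finset.sum_congr rfl fun A _ => ?_
      rw [dif_pos A.2]
    · intro s hs
      have h1 := congrFun haq ⟨s, hs⟩
      have h2 : q ⟨s, hs⟩ ≤ 0 := hq ⟨s, hs⟩
      have h3 : mg (sets sf Z) (fun A => if hA : A ∈ sets sf Z then lam ⟨A, hA⟩ else 0) s =
          marg sf Z lam ⟨s, hs⟩ := by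
        unfold mg
        rw [Finset.sum_filter, ← Finset.sum_coe_sort]
        refine Finset.sum_congr rfl fun A _ => ?_
        rw [dif_pos A.2]
      rw [h3]
      simp only [Pi.add_apply] at h1
      have h4 : h s / B₁ ≤ marg sf Z lam ⟨s, hs⟩ := by linarith
      rw [div_le_iff₀ hB₁] at h4
      linarith
  · exfalso
    obtain ⟨f, u, hfu, hux⟩ := geometric_hahn_banach_closed_point (dom_convex sf Z)
      (dom_closed sf Z) hx
    let z : ℕ → ℝ := fun s => if hs : s < Z then f (Pi.single ⟨s, hs⟩ 1) else 0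
    have hzf : ∀ s : Fin Z, z s = f (Pi.single s 1) := fun s => by
      simp only [z]
      rw [dif_pos s.2]
    have hsingle : ∀ A (hA : A ∈ sets sf Z),
        marg sf Z (Pi.single ⟨A, hA⟩ 1) = fun s : Fin Z => if (s : ℕ) ∈ A then (1 : ℝ) else 0 := by
      intro A hA
      funext s
      change ∑ A' : {A // A ∈ sets sf Z}, (if (s : ℕ) ∈ A'.1 then
        (Pi.single (⟨A, hA⟩ : {A // A ∈ sets sf Z}) (1 : ℝ) : {A // A ∈ sets sf Z} → ℝ) A'
          else 0) = _
      rw [Finset.sum_eq_single (⟨A, hA⟩ : {A // A ∈ sets sf Z})]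
      · rw [Pi.single_eq_same]
      · intro A' _ hne
        rw [Pi.single_eq_of_ne hne]
        simp
      · intro hn
        exact absurd (Finset.mem_univ _) hn
    have hmem : ∀ A (hA : A ∈ sets sf Z), ∀ q : Fin Z → ℝ, q ≤ 0 →
        (fun s : Fin Z => if (s : ℕ) ∈ A then (1 : ℝ) else 0) + q ∈ dom sf Z := by
      intro A hA q hq
      refine Set.add_mem_add ?_ hq
      rw [← hsingle A hA]
      exact ⟨_, single_mem_stdSimplex ℝ _, rfl⟩
    have hz0 : ∀ s, 0 ≤ z s := by
      intro s
      by_cases hs : s < Z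
      · by_contra hneg
        push Not at hneg
        have h0 := hfu _ (hmem ∅ (empty_mem sf Z) 0 le_rfl)
        set a0 : Fin Z → ℝ := (fun s : Fin Z => if (s : ℕ) ∈ (∅ : Finset ℕ) then (1 : ℝ) else 0)
          with ha0
        rw [add_zero] at h0
        have hzs := hzf ⟨s, hs⟩
        simp only at hzs
        have ht : 0 ≤ (u - f a0) / (-z s) := div_nonneg (by linarith) (by linarith)
        have hq : -(((u - f a0) / (-z s)) • (Pi.single (⟨s, hs⟩ : Fin Z) (1 : ℝ) : Fin Z → ℝ))
            ≤ 0 := by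
          rw [neg_nonpos]
          refine smul_nonneg ht ?_
          exact Pi.single_nonneg.mpr zero_le_one
        have h1 := hfu _ (hmem ∅ (empty_mem sf Z) _ hq)
        rw [map_add, map_neg, map_smul, ← hzs, smul_eq_mul] at h1
        have h2 : (u - f a0) / (-z s) * z s = -(u - f a0) := by
          have : z s ≠ 0 := ne_of_lt hneg
          field_simp
        rw [h2] at h1
        linarith
      · simp only [z]
        rw [dif_neg hs]
    have hSBu : ∀ A ∈ sets sf Z, ∑ k ∈ A, z k ≤ u := by
      intro A hA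
      have h1 := hfu _ (hmem A hA 0 le_rfl)
      rw [add_zero, apply_eq_sum] at h1
      refine le_trans (le_of_eq ?_) h1.le
      have hsub : A ⊆ Finset.range Z := (mem_sets.mp hA).1
      have e1 : ∑ s : Fin Z, (if (s : ℕ) ∈ A then (1 : ℝ) else 0) * f (Pi.single s 1) =
          ∑ s : Fin Z, (fun t : ℕ => if t ∈ A then z t else 0) s := by
        refine Finset.sum_congr rfl fun s _ => ?_
        rw [← hzf s]
        change _ = (if (s : ℕ) ∈ A then z s else 0)
        split_ifs <;> ring
      rw [e1, Fin.sum_univ_eq_sum_range (fun t : ℕ => if t ∈ A then z t else 0) Z,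
        ← Finset.sum_filter]
      congr 1
      ext t
      simp only [Finset.mem_filter, Finset.mem_range]
      constructor
      · intro ht
        exact ⟨Finset.mem_range.mp (hsub ht), ht⟩
      · exact fun ht => ht.2
    have hSB : SB sf z u := by
      intro F hF
      have h1 : ∑ k ∈ F, |z k| = ∑ k ∈ F.filter (fun k => k < Z), z k := by
        rw [Finset.sum_filter]
        refine Finset.sum_congr rfl fun k _ => ?_
        rw [abs_of_nonneg (hz0 k)]
        split_ifs with hk
        · rfl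
        · simp only [z]
          rw [dif_neg hk]
      rw [h1]
      apply hSBu
      rw [mem_sets]
      refine ⟨?_, (sz_regular sf).hereditary F hF _ (Finset.filter_subset _ _)⟩
      intro k hk
      exact Finset.mem_range.mpr (Finset.mem_filter.mp hk).2
    have h1 := hb z u hz0 hSB
    rw [apply_eq_sum] at hux
    have h2 : ∑ s : Fin Z, h s / B₁ * f (Pi.single s 1) =
        (∑ s ∈ Finset.range Z, h s * z s) / B₁ := by
      rw [← Fin.sum_univ_eq_sum_range (fun t : ℕ => h t * z t) Z, Finset.sum_div]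
      refine Finset.sum_congr rfl fun s _ => ?_
      rw [← hzf s]
      ring
    rw [h2, lt_div_iff₀ hB₁] at hux
    linarith

end Pool.Agent.Comb7f333f.SPart
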