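import Pool.Agent.Lib.MP_7f333f_an.Siz.CDefs
import Pool.Agent.Lib.MP_7f333f_an.Siz.Meas

set_option autoImplicit false
set_option linter.unusedSectionVars false
set_option linter.unusedVariables false

/-!
The levels of the data with their measures, and averages over the words.
-/

namespace Pool.Agent.Comb7f333f.SPart

section Data

variable {sf : Siz} {C B₁ D B₂ Λ : ℝ} {r M : ℕ}

theorem exists_levs (d : CoreData sf C B₁ D B₂ Λ r M) (hΛ : 0 < Λ) (hM : 1 ≤ M)
    (hB : 1 ≤ B₁) :
    ∃ (lam : ((l : Fin r) → Fin M × Fin (d.N l)) → Finset ℕ → ℝ)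
      (L : ((l : Fin r) → Fin M × Fin (d.N l)) → (l : Fin r) →
        Lev sf d.Z C B₁ (Fin M × Fin (d.N l))),
      (∀ ω l j, (L ω l).lam j = lam (Function.update ω l j)) ∧
      (∀ ω l j, (L ω l).v j = d.v (Function.update ω l j) l) ∧
      ∀ ω l j, L (Function.update ω l j) l = L ω l := by
  have hB0 : 0 < B₁ := by linarith
  have hN : ∀ l, 0 < d.N l := by
    intro l
    have h1 := d.hn l
    have h2 : (1 : ℝ) ≤ d.f l := by exact_mod_cast d.f_pos l
    have h3 : (0 : ℝ) < d.N l := lt_of_lt_of_le (by positivity) h1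
    exact_mod_cast h3
  have hlam : ∀ ω : (l : Fin r) → Fin M × Fin (d.N l), ∃ lam : Finset ℕ → ℝ,
      (∀ A, 0 ≤ lam A) ∧ ∑ A ∈ sets sf d.Z, lam A = 1 ∧
      ∀ s < d.Z, Real.sqrt (∑ l, d.ζ ω l s ^ 2) ≤ B₁ * mg (sets sf d.Z) lam s := fun ω =>
    exists_measure sf d.Z B₁ hB0 _ (fun s => Real.sqrt_nonneg _) (d.h2 ω)
  choose lam hlam0 hlam1 hlam2 using hlam
  have hgam : ∀ (ω : (l : Fin r) → Fin M × Fin (d.N l)) (l : Fin r), ∃ gam : Finset ℕ → ℝ,
      (∀ A, 0 ≤ gam A) ∧ ∑ A ∈ sets sf d.Z, gam A = 1 ∧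
      ∀ s < d.Z, Real.sqrt (∑ j : Fin M × Fin (d.N l), d.ζ (Function.update ω l j) l s ^ 2)
        ≤ B₁ * mg (sets sf d.Z) gam s := fun ω l =>
    exists_measure sf d.Z B₁ hB0 _ (fun s => Real.sqrt_nonneg _) (d.h3 ω l)
  choose gam hgam0 hgam1 hgam2 using hgam
  let L0 : ((l : Fin r) → Fin M × Fin (d.N l)) → (l : Fin r) →
      Lev sf d.Z C B₁ (Fin M × Fin (d.N l)) := fun ω l =>
    { gam := gam ω l
      lam := fun j => lam (Function.update ω l j)
      ζ := fun j => d.ζ (Function.update ω l j) l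
      v := fun j => d.v (Function.update ω l j) l
      gam_nonneg := hgam0 ω l
      gam_sum := hgam1 ω l
      lam_nonneg := fun j => hlam0 _
      lam_sum := fun j => hlam1 _
      hr := by
        intro j s hs
        refine le_trans ?_ (hlam2 (Function.update ω l j) s hs)
        rw [← Real.sqrt_sq_eq_abs]
        exact Real.sqrt_le_sqrt (Finset.single_le_sum
          (f := fun l' => d.ζ (Function.update ω l j) l' s ^ 2)
          (fun i _ => sq_nonneg _) (Finset.mem_univ l))
      hj := hgam2 ω l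
      hv := fun j => d.h0 _ l
      hz := fun j => d.h1 _ l }
  let j0 : (l : Fin r) → Fin M × Fin (d.N l) := fun l => (⟨0, hM⟩, ⟨0, hN l⟩)
  refine ⟨lam, fun ω l => L0 (Function.update ω l (j0 l)) l, ?_, ?_, ?_⟩
  · intro ω l j
    change lam (Function.update (Function.update ω l (j0 l)) l j) = _
    rw [Function.update_idem]
  · intro ω l j
    change d.v (Function.update (Function.update ω l (j0 l)) l j) l = _
    rw [Function.update_idem]
  · intro ω l j
    simp only [Function.update_idem]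

/-! ### Module S10: averages over the words -/

theorem sum_update {r : ℕ} {J : Fin r → Type} [∀ l, Fintype (J l)]
    (F : ((l : Fin r) → J l) → ℝ) (l : Fin r) :
    ∑ ω, ∑ j : J l, F (Function.update ω l j) = Fintype.card (J l) * ∑ ω, F ω := by
  classical
  have h1 : ∑ ω, ∑ j : J l, F (Function.update ω l j)
      = ∑ p : ((l : Fin r) → J l) × J l, F (Function.update p.1 l p.2) := by
    rw [Fintype.sum_prod_type]
  have h2 : ∑ p : ((l : Fin r) → J l) × J l, F (Function.update p.1 l p.2)
      = ∑ p : ((l : Fin r) → J l) × J l, F p.1 := by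
    let e : ((l : Fin r) → J l) × J l → ((l : Fin r) → J l) × J l :=
      fun p => (Function.update p.1 l p.2, p.1 l)
    have he : Function.Involutive e := by
      rintro ⟨ω, j⟩
      simp [e]
    refine Fintype.sum_bijective e he.bijective _ _ ?_
    rintro ⟨ω, j⟩
    rfl
  rw [h1, h2, Fintype.sum_prod_type]
  simp only [Finset.sum_const, Finset.card_univ, nsmul_eq_mul]
  rw [Finset.mul_sum]

/-- The averages over one letter (uses `sum_update`). -/
theorem sum_letter {r : ℕ} {J : Fin r → Type} [∀ l, Fintype (J l)] (l : Fin r)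
    (F : ((l : Fin r) → J l) → J l → ℝ)
    (hF : ∀ ω j j', F (Function.update ω l j') j = F ω j) :
    ∑ ω, ∑ j : J l, F ω j = Fintype.card (J l) * ∑ ω, F ω (ω l) := by
  rw [← sum_update (fun ω => F ω (ω l)) l]
  refine Finset.sum_congr rfl fun ω _ => Finset.sum_congr rfl fun j _ => ?_
  rw [Function.update_self, hF]

end Data

end Pool.Agent.Comb7f333f.SPart
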