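import Pool.Agent.Lib.MP_7f333f_an.Siz.B2

set_option autoImplicit false

/-!
Far rows with disjoint essential supports, for finitely many operators.
-/

namespace Pool.Agent.Comb7f333f.SPart

open Filter Topology

section Space

variable {sf : Siz} {X : Type*} [NormedAddCommGroup X] [NormedSpace ℝ X] {e : ℕ → X}
  (hX : IsCombSpace (sz sf) e)

/-- A sequence of rows `s j` with the essential supports in `[b j, b (j+1))`. -/
theorem rs_seq (U : ℕ → Finset ℕ) (hU : ∀ K : ℕ, ∃ m1 : ℕ, ∀ m ≥ m1, ∀ i ∈ U m, K ≤ i)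
    (m0 k0 : ℕ) : ∃ s b : ℕ → ℕ, StrictMono s ∧ Monotone b ∧ (∀ j, m0 ≤ s j) ∧
      (∀ j, k0 ≤ b j) ∧ ∀ j, ∀ i ∈ U (s j), b j ≤ i ∧ i < b (j + 1) := by
  choose M1 hM1 using hU
  let st : ℕ → ℕ × ℕ := fun j => Nat.rec (motive := fun _ => ℕ × ℕ) (max m0 (M1 k0), k0)
    (fun _ p => (max (p.1 + 1) (M1 (max p.2 ((U p.1).sup id + 1))),
      max p.2 ((U p.1).sup id + 1))) j
  have hs0 : st 0 = (max m0 (M1 k0), k0) := rfl
  have hs1 : ∀ j, st (j + 1) = (max ((st j).1 + 1) (M1 (max (st j).2 ((U (st j).1).sup id + 1))),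
      max (st j).2 ((U (st j).1).sup id + 1)) := fun j => rfl
  have hb : Monotone fun j => (st j).2 := by
    apply monotone_nat_of_le_succ
    intro j
    show (st j).2 ≤ (st (j + 1)).2
    rw [hs1]
    exact le_max_left _ _
  have hs : StrictMono fun j => (st j).1 := by
    apply strictMono_nat_of_lt_succ
    intro j
    show (st j).1 < (st (j + 1)).1
    rw [hs1]
    exact lt_of_lt_of_le (Nat.lt_succ_self _) (le_max_left _ _)
  refine ⟨fun j => (st j).1, fun j => (st j).2, hs, hb, fun j => ?_, fun j => ?_,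
    fun j i hi => ⟨?_, ?_⟩⟩
  · exact le_trans (le_max_left m0 (M1 k0)) (hs.monotone (Nat.zero_le j))
  · exact hb (Nat.zero_le j)
  · have h1 : M1 (st j).2 ≤ (st j).1 := by
      cases j with
      | zero =>
        rw [hs0]
        exact le_max_right _ _
      | succ j =>
        rw [hs1]
        exact le_max_right _ _
    exact hM1 _ _ h1 i hi
  · show i < (st (j + 1)).2
    rw [hs1]
    have h2 : i ≤ (U (st j).1).sup id := Finset.le_sup (f := id) hi
    exact lt_of_lt_of_le (Nat.lt_succ_of_le h2) (le_max_right _ _)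

include hX

/-- For finitely many operators there is an infinite set of rows whose essential supports are
disjoint and together in the family, for any `n` of them. -/
theorem rows_set (C : ℝ) (hC : 1 ≤ C) (n : ℕ) (hn : 1 ≤ n) {Ω : Type} [Fintype Ω]
    (T : Ω → X →L[ℝ] X) (hT : ∀ w x, ‖T w x‖ ≤ C * ‖x‖) :
    ∃ J : Set ℕ, J.Infinite ∧ ∀ (I : Finset ℕ), (∀ i ∈ I, i ∈ J) → I.card ≤ n →
      ∀ (w : ℕ → Ω) (y : X), ∑ i ∈ I, |co e (T (w i) y) i| ≤ (C + 1) * ‖y‖ := by
  classical
  have hn0 : (0 : ℝ) < n := by exact_mod_cast hn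
  choose δ R m0 E _ hE hfar using fun w : Ω => rows hX C hC (T w) (hT w) (1 / (n : ℝ))
    (by positivity)
  obtain ⟨k0, hk0⟩ := sf.unb (n * ∑ w, R w)
  choose m1 hm1 using hfar
  obtain ⟨s, b, hs, hb, hsm, hbk, hsb⟩ := rs_seq
    (fun m => (Finset.univ : Finset Ω).biUnion (fun w => E w m))
    (fun K => ⟨∑ w, m1 w K, fun m hm i hi => by
      obtain ⟨w, -, hw⟩ := Finset.mem_biUnion.1 hi
      exact hm1 w K m (le_trans (Finset.single_le_sum (f := fun w => m1 w K)
        (fun _ _ => Nat.zero_le _) (Finset.mem_univ w)) hm) i hw⟩)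
    (∑ w, m0 w) k0
  refine ⟨Set.range s, Set.infinite_range_of_injective hs.injective, ?_⟩
  intro I hI hIn w y
  have hmem : ∀ i ∈ I, ∃ j, s j = i := fun i hi => hI i hi
  have hm0 : ∀ i ∈ I, m0 (w i) ≤ i := by
    intro i hi
    obtain ⟨j, hj⟩ := hmem i hi
    rw [← hj]
    exact le_trans (Finset.single_le_sum (f := fun w => m0 w)
        (fun _ _ => Nat.zero_le _) (Finset.mem_univ (w (s j)))) (hsm j)
  have hEb : ∀ j, ∀ v : Ω, ∀ i ∈ E v (s j), b j ≤ i ∧ i < b (j + 1) := fun j v i hi =>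
    hsb j i (Finset.mem_biUnion.2 ⟨v, Finset.mem_univ _, hi⟩)
  have hdisj : (I : Set ℕ).PairwiseDisjoint (fun i => E (w i) i) := by
    have key : ∀ j j' : ℕ, j < j' → ∀ v v' : Ω, Disjoint (E v (s j)) (E v' (s j')) := by
      intro j j' hjj v v'
      rw [Finset.disjoint_left]
      intro i hi hi'
      have h1 := (hEb j v i hi).2
      have h2 := (hEb j' v' i hi').1
      have h3 : b (j + 1) ≤ b j' := hb hjj
      omega
    intro i hi i' hi' hne
    obtain ⟨j, hj⟩ := hmem i hi
    obtain ⟨j', hj'⟩ := hmem i' hi'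
    have hjj : j ≠ j' := by
      rintro rfl
      exact hne (hj.symm.trans hj')
    show Disjoint (E (w i) i) (E (w i') i')
    rw [← hj, ← hj']
    rcases lt_or_gt_of_ne hjj with h | h
    · exact key _ _ h _ _
    · exact (key _ _ h _ _).symm
  have hsz : I.biUnion (fun i => E (w i) i) ∈ sz sf := by
    intro k hk
    obtain ⟨i, hi, hki⟩ := Finset.mem_biUnion.1 hk
    obtain ⟨j, hj⟩ := hmem i hi
    have h1 : k0 ≤ k := by
      refine le_trans (hbk j) ?_
      rw [← hj] at hki
      exact (hEb j _ k hki).1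
    have h2 : (I.biUnion (fun i => E (w i) i)).card ≤ n * ∑ w, R w := by
      refine Finset.card_biUnion_le.trans ?_
      calc ∑ i ∈ I, (E (w i) i).card ≤ ∑ _i ∈ I, ∑ w, R w := by
            apply Finset.sum_le_sum
            intro i hi
            exact le_trans (hE (w i) i (hm0 i hi)).2.1 (Finset.single_le_sum (f := fun w => R w)
              (fun _ _ => Nat.zero_le _) (Finset.mem_univ (w i)))
        _ = I.card * ∑ w, R w := by rw [Finset.sum_const, smul_eq_mul]
        _ ≤ n * ∑ w, R w := Nat.mul_le_mul_right _ hIn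
    exact h2.trans (hk0.trans (sf.mono h1))
  have hC0 : 0 ≤ C := by linarith
  have hone : ∀ i ∈ I, |co e (T (w i) y) i| ≤
      1 / (n : ℝ) * ‖y‖ + C * ∑ k ∈ E (w i) i, |co e y k| := by
    intro i hi
    have h1 := (hE (w i) i (hm0 i hi)).2.2 y
    have h2 : |∑ k ∈ E (w i) i, co e (T (w i) (e k)) i * co e y k| ≤
        C * ∑ k ∈ E (w i) i, |co e y k| := by
      refine (Finset.abs_sum_le_sum_abs _ _).trans ?_
      rw [Finset.mul_sum]
      apply Finset.sum_le_sum
      intro k _
      rw [abs_mul]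
      apply mul_le_mul_of_nonneg_right _ (abs_nonneg _)
      refine (abs_co_le hX _ _).trans ((hT _ _).trans ?_)
      calc C * ‖e k‖ ≤ C * 1 := mul_le_mul_of_nonneg_left (norm_e_le hX k) hC0
        _ = C := mul_one C
    have h3 : |co e (T (w i) y) i| ≤ |co e (T (w i) y) i -
        ∑ k ∈ E (w i) i, co e (T (w i) (e k)) i * co e y k| +
        |∑ k ∈ E (w i) i, co e (T (w i) (e k)) i * co e y k| := by
      have := abs_add_le (co e (T (w i) y) i -
        ∑ k ∈ E (w i) i, co e (T (w i) (e k)) i * co e y k)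
        (∑ k ∈ E (w i) i, co e (T (w i) (e k)) i * co e y k)
      rwa [sub_add_cancel] at this
    linarith
  calc ∑ i ∈ I, |co e (T (w i) y) i|
      ≤ ∑ i ∈ I, (1 / (n : ℝ) * ‖y‖ + C * ∑ k ∈ E (w i) i, |co e y k|) :=
        Finset.sum_le_sum hone
    _ = I.card * (1 / (n : ℝ) * ‖y‖) + C * ∑ k ∈ I.biUnion (fun i => E (w i) i), |co e y k| := by
        rw [Finset.sum_add_distrib, Finset.sum_const, nsmul_eq_mul, ← Finset.mul_sum,
          Finset.sum_biUnion hdisj]
    _ ≤ n * (1 / (n : ℝ) * ‖y‖) + C * ‖y‖ := by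
        apply add_le_add
        · apply mul_le_mul_of_nonneg_right
          · exact_mod_cast hIn
          · positivity
        · exact mul_le_mul_of_nonneg_left (SB_co hX y _ hsz) hC0
    _ = (C + 1) * ‖y‖ := by
        field_simp
        ring

end Space

end Pool.Agent.Comb7f333f.SPart
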