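import Pool.Agent.Lib.MP_7f333f_an.Siz.Api
import Pool.Agent.Lib.MP_7f333f_an.Siz.RowsSet
import Pool.Agent.Lib.MP_7f333f_an.Siz.B6
import Pool.Agent.Lib.MP_7f333f_an.Siz.B8

set_option autoImplicit false
set_option linter.unusedSectionVars false

/-!
One level of the tower.
-/

namespace Pool.Agent.Comb7f333f.SPart

open Filter Topology

section Space

variable {sf : Siz} {X : Type*} [NormedAddCommGroup X] [NormedSpace ℝ X] {e : ℕ → X}
  (hX : IsCombSpace (sz sf) e)

include hX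

/-- The tails of finitely many vectors. -/
theorem ts_tails {ι : Type*} (I : Finset ι) (x : ι → X) (ε : ℝ) (hε : 0 < ε) : ∃ K : ℕ,
    ∀ i ∈ I, ∀ E ∈ sz sf, (∀ s ∈ E, K ≤ s) → ∑ s ∈ E, |co e (x i) s| ≤ ε := by
  choose K hK using fun i => exists_tail_le hX (x i) ε hε
  refine ⟨I.sup K, fun i hi E hE hE' => hK i E hE fun s hs => ?_⟩
  exact le_trans (Finset.le_sup (f := K) hi) (hE' s hs)

/-- The low coordinates of the columns of finitely many operators are small from one position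
on. -/
theorem ts_low {Ω : Type} [Fintype Ω] (T : Ω → X →L[ℝ] X) (K0 : ℕ) (τ : ℝ) (hτ : 0 < τ) :
    ∃ I0 : ℕ, ∀ i ≥ I0, ∀ w, ∑ s ∈ Finset.range K0, |co e (T w (e i)) s| ≤ τ := by
  have h1 : ∀ w, ∀ᶠ i in atTop, ∑ s ∈ Finset.range K0, |co e (T w (e i)) s| ≤ τ := by
    intro w
    have h2 : Tendsto (fun i => ∑ s ∈ Finset.range K0, |co e (T w (e i)) s|) atTop
        (𝓝 (∑ s ∈ Finset.range K0, |(0 : ℝ)|)) :=
      tendsto_finsetSum _ fun s _ => (tendsto_row hX (T w) s).abs
    rw [abs_zero, Finset.sum_const_zero] at h2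
    exact (h2.eventually (gt_mem_nhds hτ)).mono fun i hi => le_of_lt hi
  obtain ⟨I0, hI0⟩ := eventually_atTop.mp (eventually_all.mpr h1)
  exact ⟨I0, hI0⟩

end Space

section Group

variable {sf : Siz} {X : Type*} [NormedAddCommGroup X] [NormedSpace ℝ X] {e : ℕ → X}
  (hX : IsCombSpace (sz sf) e) {G : Type*} [Group G] (A : G →* (X →L[ℝ] X)) (C : ℝ)
  (hC : 1 ≤ C) (hA : ∀ g x, ‖A g x‖ ≤ C * ‖x‖) (γ : ℕ → G)
  (hnull : ∀ x k, Tendsto (fun n => co e (A (γ n) x) k) atTop (𝓝 0))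

include hX hC hA hnull

theorem tower_step (r M : ℕ) (hr : 1 ≤ r) (hM : 1 ≤ M) (K0 : ℕ) (τ : ℝ) (hτ : 0 < τ)
    (htail : ∀ y : X, ‖y‖ ≤ C → ∑ s ∈ Finset.range K0, |co e y s| ≤ τ →
      Sm e (fun n => A (γ n)) (1 / (4 * M)) y)
    (l : Fin r) (p : (Fin r → Fin M) → G)
    (hp : ∀ w w' : Fin r → Fin M, (∀ k < l, w k = w' k) → p w = p w')
    (Y : Finset X)
    (hY : ∀ y ∈ Y, Sm e (fun n => A (γ n)) (1 / (4 * M)) y ∧ ∃ h i, y = A h (e i)) (kp : ℕ)
    (Λ' : ℝ) :
    ∃ (g : Fin M → G) (N : ℕ) (i : (Fin r → Fin M) → ℕ → ℕ) (K : ℕ),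
      (∀ y ∈ Y, ∀ θ : Fin M → ℝ, IsSign θ → ‖∑ a, θ a • A (g a) y‖ ≤ C ^ 2 + 1) ∧
      (∀ y ∈ Y, ∀ a, Sm e (fun n => A (γ n)) (1 / (4 * M)) (A (g a) y)) ∧
      (∀ w : Fin r → Fin M, ∀ ν < N,
        Sm e (fun n => A (γ n)) (1 / (4 * M)) (A (g (w l) * p w) (e (i w ν)))) ∧
      Λ' ≤ (N : ℝ) ∧ LevelProps sf A e C l (fun w => g (w l) * p w) N i kp K := by
  classical
  have hC0 : 0 < C := by linarith
  obtain ⟨n, hn⟩ := selection_seq hX C hC (fun n => A (γ n)) (fun n x => hA (γ n) x) hnull M hM Y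
    (fun y hy => (hY y hy).1) K0 τ hτ
  have hAmul : ∀ (g h : G) (x : X), A (g * h) x = A g (A h x) := by
    intro g h x
    rw [map_mul]
    rfl
  have hAe : ∀ (g : G) (i : ℕ), ‖A g (e i)‖ ≤ C := by
    intro g i
    have h1 := hA g (e i)
    have h2 := norm_e_le hX i
    nlinarith
  have hYn : ∀ y ∈ Y, ∀ g : G, ‖A g y‖ ≤ C := by
    intro y hy g
    obtain ⟨-, h, i, rfl⟩ := hY y hy
    rw [← hAmul]
    exact hAe _ _
  have hY1 : ∀ y ∈ Y, ‖y‖ ≤ C := by
    intro y hy
    obtain ⟨-, h, i, rfl⟩ := hY y hy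
    exact hAe _ _
  set g : Fin M → G := fun a => γ (n a) with hg
  set q : (Fin r → Fin M) → G := fun w => g (w l) * p w with hq
  have hqdep : ∀ w w' : Fin r → Fin M, (∀ k ≤ l, w k = w' k) → q w = q w' := by
    intro w w' h
    simp only [hq]
    rw [h l le_rfl, hp w w' fun k hk => h k hk.le]
  obtain ⟨N, hN1, hNΛ⟩ : ∃ N : ℕ, 1 ≤ N ∧ Λ' ≤ (N : ℝ) :=
    ⟨⌈Λ'⌉₊ + 1, by omega, by
      have := Nat.le_ceil Λ'
      push_cast
      linarith⟩
  have : Nonempty (Fin M) := ⟨⟨0, hM⟩⟩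
  set m : ℕ := Fintype.card ((Fin r → Fin M) × Fin N) with hm
  have hm1 : 1 ≤ m := by
    have : Nonempty (Fin N) := ⟨⟨0, hN1⟩⟩
    exact Fintype.card_pos
  obtain ⟨J, hJinf, hJ⟩ := rows_set hX C hC m hm1 (fun w => A (q w)⁻¹) (fun w x => hA _ x)
  obtain ⟨I0, hI0⟩ := ts_low hX (fun w => A (q w)) K0 τ hτ
  obtain ⟨k0, hk0⟩ := sf.unb r
  obtain ⟨F, hFc, hFJ, -, -, hFsum⟩ := sparse hX C hC
    (fun ww : (Fin r → Fin M) × (Fin r → Fin M) => A ((q ww.1)⁻¹ * q ww.2))
    (fun w x => hA _ x) J hJinf m (kp + I0 + k0) hm1 (1 / 2) (by norm_num) (by norm_num)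
  have hr' : (0 : ℝ) < 1 / r := by
    have : (0 : ℝ) < r := by exact_mod_cast hr
    positivity
  obtain ⟨K1, hK1⟩ := ts_tails hX
    ((Finset.univ : Finset ((Fin r → Fin M) × (Fin r → Fin M))) ×ˢ F)
    (fun wi : ((Fin r → Fin M) × (Fin r → Fin M)) × ℕ =>
      A ((q wi.1.1)⁻¹ * q wi.1.2) (e wi.2)) (1 / (r : ℝ)) hr'
  set K : ℕ := K1 + F.sup id + 1 with hK
  have hKF : ∀ i ∈ F, i < K := by
    intro i hi
    have : i ≤ F.sup id := Finset.le_sup (f := id) hi
    omega
  -- the columns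
  set idx : (Fin r → Fin M) × Fin N ≃ F :=
    (Fintype.equivFinOfCardEq hm.symm).trans (F.equivFinOfCardEq hFc).symm with hidx
  set tr : (Fin r → Fin M) → (Fin r → Fin M) :=
    fun w k => if k ≤ l then w k else Classical.arbitrary (Fin M) with htr
  have htr_q : ∀ w, q (tr w) = q w := by
    intro w
    refine hqdep _ _ fun k hk => ?_
    simp only [htr]
    rw [if_pos hk]
  have htr_dep : ∀ w w' : Fin r → Fin M, (∀ k ≤ l, w k = w' k) → tr w = tr w' := by
    intro w w' h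
    funext k
    simp only [htr]
    split_ifs with hk
    · exact h k hk
    · rfl
  have htr_l : ∀ w, tr w l = w l := by
    intro w
    simp only [htr]
    rw [if_pos le_rfl]
  set i : (Fin r → Fin M) → ℕ → ℕ :=
    fun w ν => if h : ν < N then (idx (tr w, ⟨ν, h⟩) : ℕ) else 0 with hi
  have hi1 : ∀ w ν (h : ν < N), i w ν = (idx (tr w, ⟨ν, h⟩) : ℕ) := by
    intro w ν h
    simp only [hi]
    rw [dif_pos h]
  have hiF : ∀ w, ∀ ν < N, i w ν ∈ F := by
    intro w ν h
    rw [hi1 w ν h]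
    exact (idx (tr w, ⟨ν, h⟩)).2
  have hinj : ∀ w ν ν', ν < N → ν' < N → i w ν = i w ν' → ν = ν' := by
    intro w ν ν' h h' heq
    rw [hi1 w ν h, hi1 w ν' h'] at heq
    have h2 := idx.injective (Subtype.ext heq)
    have h3 := congrArg (fun x => (x.2 : ℕ)) h2
    exact h3
  refine ⟨g, N, i, K, ?_, ?_, ?_, hNΛ, ?_⟩
  · intro y hy θ hθ
    have h1 := (hn y hy).1 θ (fun a => by
      rcases hθ a with h | h <;> rw [h] <;> norm_num)
    refine h1.trans ?_
    have := hY1 y hy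
    nlinarith
  · intro y hy a
    exact htail _ (hYn y hy _) ((hn y hy).2 a)
  · intro w ν hν
    refine htail _ (hAe _ _) (hI0 _ ?_ w)
    have := (hFJ _ (hiF w ν hν)).2
    omega
  · refine ⟨?_, hinj, ?_, ?_, ?_, ?_, ?_⟩
    · intro w w' h
      funext ν
      simp only [hi]
      rw [htr_dep w w' h]
    · intro w ν hν
      have h1 := (hFJ _ (hiF w ν hν)).2
      exact ⟨by omega, hKF _ (hiF w ν hν)⟩
    · intro w ν hν
      have h1 := (hFJ _ (hiF w ν hν)).2
      exact hk0.trans (sf.mono (by omega))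
    · intro w y
      set wf : ℕ → (Fin r → Fin M) := fun j => if h : j ∈ F then (idx.symm ⟨j, h⟩).1 else w
        with hwf
      have h1 := hJ F (fun j hj => (hFJ j hj).1) hFc.le wf y
      refine le_trans ?_ h1
      set H : ℕ → ℝ := fun j => |co e (A (q (wf j))⁻¹ y) j| with hH
      have h2 : ∀ (a : Fin M) (ν : Fin N),
          |co e (A (q (Function.update w l a))⁻¹ y) (i (Function.update w l a) ν)| =
            H (idx (tr (Function.update w l a), ν)) := by
        intro a ν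
        rw [hi1 _ _ ν.2]
        have h3 : wf (idx (tr (Function.update w l a), ν) : ℕ) = tr (Function.update w l a) := by
          simp only [hwf]
          rw [dif_pos (idx (tr (Function.update w l a), ν)).2]
          simp
        simp only [hH]
        rw [h3, htr_q]
      have h3 : ∑ a : Fin M, ∑ ν ∈ Finset.range N,
          |co e (A (q (Function.update w l a))⁻¹ y) (i (Function.update w l a) ν)| =
          ∑ x : Fin M × Fin N, H (idx (tr (Function.update w l x.1), x.2)) := by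
        rw [Fintype.sum_prod_type]
        refine Finset.sum_congr rfl fun a _ => ?_
        rw [Finset.sum_range]
        exact Finset.sum_congr rfl fun ν _ => h2 a ν
      rw [h3]
      have hφ : Function.Injective (fun x : Fin M × Fin N =>
          (idx (tr (Function.update w l x.1), x.2) : ℕ)) := by
        intro x x' hxx
        have h4 := idx.injective (Subtype.ext hxx)
        have h5 := congrArg (fun z => z.1 l) h4
        have h6 := congrArg Prod.snd h4
        simp only [htr_l, Function.update_self] at h5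
        exact Prod.ext h5 h6
      rw [← Finset.sum_image (f := H) (s := (Finset.univ : Finset (Fin M × Fin N)))
        (g := fun x : Fin M × Fin N => (idx (tr (Function.update w l x.1), x.2) : ℕ))
        (fun x _ x' _ h => hφ h)]
      refine Finset.sum_le_sum_of_subset_of_nonneg ?_ fun _ _ _ => abs_nonneg _
      intro j hj
      obtain ⟨x, -, rfl⟩ := Finset.mem_image.mp hj
      exact (idx _).2
    · intro w w' s
      refine le_trans ?_ (hFsum (w, w') s)
      rw [← Finset.sum_image (f := fun j => |co e (A ((q w)⁻¹ * q w') (e j)) s|)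
        (s := Finset.range N) (g := i w')
        (fun ν hν ν' hν' h => hinj w' ν ν' (Finset.mem_range.mp hν) (Finset.mem_range.mp hν') h)]
      refine Finset.sum_le_sum_of_subset_of_nonneg ?_ fun _ _ _ => abs_nonneg _
      intro j hj
      obtain ⟨ν, hν, rfl⟩ := Finset.mem_image.mp hj
      exact hiF w' ν (Finset.mem_range.mp hν)
    · intro w w' ν hν E hE hE'
      refine hK1 ((w, w'), i w' ν) (Finset.mem_product.2 ⟨Finset.mem_univ _, hiF w' ν hν⟩) E hE
        fun s hs => ?_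
      have := hE' s hs
      omega

end Group

end Pool.Agent.Comb7f333f.SPart
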