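import Pool.Agent.Lib.MP_7f333f_an.Siz.CDefs
import Pool.Agent.Lib.MP_7f333f_an.Siz.B5d
import Pool.Agent.Lib.MP_7f333f_an.Siz.TStep

set_option autoImplicit false
set_option linter.unusedSectionVars false

/-!
Existence of the tower.
-/

namespace Pool.Agent.Comb7f333f.SPart

open Filter Topology



theorem tw_pre_congr {r M : ℕ} {G : Type*} [Group G] {g g' : ℕ → Fin M → G}
    (w : Fin r → Fin M) (j : ℕ) (h : ∀ i < j, g i = g' i) : pre g w j = pre g' w j := by
  induction j with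
  | zero => rfl
  | succ j ih =>
    rw [pre, pre, ih fun i hi => h i (by omega), stp, stp, h j (by omega)]

theorem tw_pre_dep {r M : ℕ} {G : Type*} [Group G] (g : ℕ → Fin M → G)
    {w w' : Fin r → Fin M} (j : ℕ) (h : ∀ k : Fin r, (k : ℕ) < j → w k = w' k) :
    pre g w j = pre g w' j := by
  induction j with
  | zero => rfl
  | succ j ih =>
    rw [pre, pre, ih fun k hk => h k (by omega), stp, stp]
    by_cases hj : j < r
    · rw [dif_pos hj, dif_pos hj, h ⟨j, hj⟩ (by simp)]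
    · rw [dif_neg hj, dif_neg hj]

theorem tw_kap_congr {K K' : ℕ → ℕ} (j : ℕ) (h : ∀ i < j, K i = K' i) : kap K j = kap K' j := by
  rw [kap, kap]
  congr 1
  exact Finset.sum_congr rfl fun i hi => h i (Finset.mem_range.mp hi)

section Group

variable {sf : Siz} {X : Type*} [NormedAddCommGroup X] [NormedSpace ℝ X] {e : ℕ → X}
  {G : Type*} [Group G] (A : G →* (X →L[ℝ] X)) (C : ℝ) (γ : ℕ → G)

/-- The invariant of the construction. -/
structure TwInv (sf : Siz) (e : ℕ → X) (Λ : ℝ) (r M n : ℕ) (g : ℕ → Fin M → G) (N : ℕ → ℕ)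
    (K : ℕ → ℕ) (i : ℕ → (Fin r → Fin M) → ℕ → ℕ) : Prop where
  card_N : ∀ l < n, Λ * 2 ^ r * sf.f (kap K l) ≤ (N l : ℝ)
  lev : ∀ l : Fin r, (l : ℕ) < n → LevelProps sf A e C l
    (fun w : Fin r → Fin M => pre g w (l + 1)) (N l) (i l) (kap K l) (K l)
  signs : ∀ l < n, ∀ w : Fin r → Fin M, ∀ k < l, ∀ ν < N k, ∀ θ : Fin M → ℝ, IsSign θ →
    ‖∑ a, θ a • A (g l a) (A (pre g w l) (e (i k w ν)))‖ ≤ C ^ 2 + 1
  sm : ∀ w : Fin r → Fin M, ∀ k < n, ∀ ν < N k, Sm e (fun n => A (γ n)) (1 / (4 * M))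
    (A (pre g w n) (e (i k w ν)))

variable (hX : IsCombSpace (sz sf) e) (hC : 1 ≤ C) (hA : ∀ g x, ‖A g x‖ ≤ C * ‖x‖)
  (hnull : ∀ x k, Tendsto (fun n => co e (A (γ n) x) k) atTop (𝓝 0))

include hX hC hA hnull

theorem tw_step (Λ : ℝ) (r M : ℕ) (hr : 1 ≤ r) (hM : 1 ≤ M) (K0 : ℕ) (τ : ℝ) (hτ : 0 < τ)
    (htail : ∀ y : X, ‖y‖ ≤ C → ∑ s ∈ Finset.range K0, |co e y s| ≤ τ →
      Sm e (fun n => A (γ n)) (1 / (4 * M)) y) (n : ℕ) (hn : n < r) (g : ℕ → Fin M → G)
    (N : ℕ → ℕ) (K : ℕ → ℕ) (i : ℕ → (Fin r → Fin M) → ℕ → ℕ)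
    (hI : TwInv A C γ sf e Λ r M n g N K i) :
    ∃ (g' : ℕ → Fin M → G) (N' : ℕ → ℕ) (K' : ℕ → ℕ) (i' : ℕ → (Fin r → Fin M) → ℕ → ℕ),
      TwInv A C γ sf e Λ r M (n + 1) g' N' K' i' := by
  classical
  have : Nonempty (Fin M) := ⟨⟨0, hM⟩⟩
  set Y : Finset X := (Finset.univ : Finset (Fin r → Fin M)).biUnion fun w =>
    (Finset.range n).biUnion fun k => (Finset.range (N k)).image fun ν =>
      A (pre g w n) (e (i k w ν)) with hYdef
  have hmemY : ∀ w : Fin r → Fin M, ∀ k < n, ∀ ν < N k,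
      A (pre g w n) (e (i k w ν)) ∈ Y := by
    intro w k hk ν hν
    rw [hYdef, Finset.mem_biUnion]
    refine ⟨w, Finset.mem_univ _, ?_⟩
    rw [Finset.mem_biUnion]
    exact ⟨k, Finset.mem_range.mpr hk, Finset.mem_image_of_mem _ (Finset.mem_range.mpr hν)⟩
  have hY : ∀ y ∈ Y, Sm e (fun n => A (γ n)) (1 / (4 * M)) y ∧ ∃ h i, y = A h (e i) := by
    intro y hy
    rw [hYdef, Finset.mem_biUnion] at hy
    obtain ⟨w, -, hy⟩ := hy
    rw [Finset.mem_biUnion] at hy
    obtain ⟨k, hk, hy⟩ := hy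
    obtain ⟨ν, hν, rfl⟩ := Finset.mem_image.mp hy
    exact ⟨hI.sm w k (Finset.mem_range.mp hk) ν (Finset.mem_range.mp hν), _, _, rfl⟩
  obtain ⟨gn, Nn, ιn, Kn, h1, h2, h3, h5, h6⟩ := tower_step hX A C hC hA γ hnull r M hr hM
    K0 τ hτ htail ⟨n, hn⟩ (fun w => pre g w n)
    (fun w w' h => tw_pre_dep g n fun k hk => h k (by exact_mod_cast hk)) Y hY (kap K n)
    (Λ * 2 ^ r * sf.f (kap K n))
  set g' : ℕ → Fin M → G := Function.update g n gn with hg'
  set N' : ℕ → ℕ := Function.update N n Nn with hN'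
  set K' : ℕ → ℕ := Function.update K n Kn with hK'
  set i' : ℕ → (Fin r → Fin M) → ℕ → ℕ := Function.update i n ιn with hi'
  have hgn : g' n = gn := Function.update_self _ _ _
  have hNn : N' n = Nn := Function.update_self _ _ _
  have hKn : K' n = Kn := Function.update_self _ _ _
  have hin : i' n = ιn := Function.update_self _ _ _
  have hgj : ∀ j, j < n → g' j = g j := fun j hj => Function.update_of_ne (by omega) _ _
  have hNj : ∀ j, j < n → N' j = N j := fun j hj => Function.update_of_ne (by omega) _ _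
  have hKj : ∀ j, j < n → K' j = K j := fun j hj => Function.update_of_ne (by omega) _ _
  have hij : ∀ j, j < n → i' j = i j := fun j hj => Function.update_of_ne (by omega) _ _
  have hpre : ∀ (w : Fin r → Fin M) (j : ℕ), j ≤ n → pre g' w j = pre g w j := fun w j hj =>
    tw_pre_congr w j fun i hi => hgj i (by omega)
  have hpren : ∀ w : Fin r → Fin M, pre g' w (n + 1) = gn (w ⟨n, hn⟩) * pre g w n := by
    intro w
    rw [pre, hpre w n le_rfl, stp, dif_pos hn, hgn]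
  have hkap : ∀ j, j ≤ n → kap K' j = kap K j := fun j hj =>
    tw_kap_congr j fun i hi => hKj i (by omega)
  refine ⟨g', N', K', i', ?_, ?_, ?_, ?_⟩
  · intro j hj
    rcases Nat.lt_succ_iff_lt_or_eq.mp hj with hj | rfl
    · rw [hNj j hj, hkap j hj.le]
      exact hI.card_N j hj
    · rw [hNn, hkap j le_rfl]
      exact h5
  · intro l hl
    rcases Nat.lt_succ_iff_lt_or_eq.mp hl with hj | hj
    · have h7 : (fun w : Fin r → Fin M => pre g' w ((l : ℕ) + 1)) =
          fun w : Fin r → Fin M => pre g w ((l : ℕ) + 1) :=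
        funext fun w => by rw [hpre w ((l : ℕ) + 1) hj]
      rw [h7, hNj l hj, hkap l hj.le, hKj l hj, hij l hj]
      exact hI.lev l hj
    · obtain rfl : l = ⟨n, hn⟩ := Fin.ext hj
      have h7 : (fun w : Fin r → Fin M => pre g' w (n + 1)) =
          fun w : Fin r → Fin M => (gn (w ⟨n, hn⟩) * pre g w n) :=
        funext fun w => by rw [hpren w]
      change LevelProps sf A e C ⟨n, hn⟩ (fun w : Fin r → Fin M => pre g' w (n + 1)) (N' n)
        (i' n) (kap K' n) (K' n)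
      rw [h7, hNn, hkap n le_rfl, hKn, hin]
      exact h6
  · intro j hj w k hk ν hν θ hθ
    rcases Nat.lt_succ_iff_lt_or_eq.mp hj with hj | rfl
    · rw [hNj k (by omega)] at hν
      rw [hpre w j hj.le, hij k (by omega), hgj j hj]
      exact hI.signs j hj w k hk ν hν θ hθ
    · rw [hNj k (by omega)] at hν
      rw [hpre w j le_rfl, hij k (by omega), hgn]
      exact h1 _ (hmemY w k hk ν hν) θ hθ
  · intro w k hk ν hν
    rw [hpren w]
    rcases Nat.lt_succ_iff_lt_or_eq.mp hk with hj | rfl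
    · rw [hNj k hj] at hν
      rw [hij k hj]
      have h7 := h2 _ (hmemY w k hj ν hν) (w ⟨n, hn⟩)
      have h8 : A (gn (w ⟨n, hn⟩)) (A (pre g w n) (e (i k w ν))) =
          A (gn (w ⟨n, hn⟩) * pre g w n) (e (i k w ν)) := by
        rw [map_mul A (gn (w ⟨n, hn⟩))]
        rfl
      rwa [h8] at h7
    · rw [hNn] at hν
      rw [hin]
      exact h3 w ν hν

end Group

section Group'

variable {sf : Siz} {X : Type*} [NormedAddCommGroup X] [NormedSpace ℝ X] {e : ℕ → X}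
  (hX : IsCombSpace (sz sf) e) {G : Type*} [Group G] (A : G →* (X →L[ℝ] X)) (C : ℝ)
  (hC : 1 ≤ C) (hA : ∀ g x, ‖A g x‖ ≤ C * ‖x‖) (γ : ℕ → G)
  (hnull : ∀ x k, Tendsto (fun n => co e (A (γ n) x) k) atTop (𝓝 0))

include hX hC hA hnull

/-- All the levels of the tower. -/
theorem exists_tower (r M : ℕ) (Λ : ℝ) (hr : 1 ≤ r) (hM : 1 ≤ M) :
    Nonempty (Tower sf A e C Λ r M) := by
  have hM' : (0 : ℝ) < M := by exact_mod_cast hM
  obtain ⟨K0, τ, hτ, htail⟩ := exists_tails hX C hC (fun n => A (γ n)) (fun n => hA (γ n)) hnull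
    (1 / (4 * M)) (by positivity)
  have hrec : ∀ n ≤ r, ∃ (g : ℕ → Fin M → G) (N : ℕ → ℕ) (K : ℕ → ℕ)
      (i : ℕ → (Fin r → Fin M) → ℕ → ℕ), TwInv A C γ sf e Λ r M n g N K i := by
    intro n
    induction n with
    | zero =>
      intro _
      exact ⟨fun _ _ => 1, fun _ => 0, fun _ => 0, fun _ _ _ => 0,
        fun j hj => absurd hj (Nat.not_lt_zero j),
        fun j hj => absurd hj (Nat.not_lt_zero j), fun j hj => absurd hj (Nat.not_lt_zero j),
        fun w j hj => absurd hj (Nat.not_lt_zero j)⟩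
    | succ n ih =>
      intro hn
      obtain ⟨g, N, K, i, hI⟩ := ih (by omega)
      exact tw_step A C γ hX hC hA hnull Λ r M hr hM K0 τ hτ htail n (by omega) g N K i hI
  obtain ⟨g, N, K, i, hI⟩ := hrec r le_rfl
  exact ⟨⟨g, N, K, i, hI.card_N, fun l => hI.lev l l.isLt, hI.signs⟩⟩

end Group'

end Pool.Agent.Comb7f333f.SPart
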