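import Pool.Agent.Lib.MP_7f333f_an.Siz.CDefs
import Pool.Agent.Lib.MP_7f333f_an.Siz.Coup
import Pool.Agent.Lib.MP_7f333f_an.Siz.Good
import Pool.Agent.Lib.MP_7f333f_an.Siz.Deep
import Pool.Agent.Lib.MP_7f333f_an.Siz.Capt
import Pool.Agent.Lib.MP_7f333f_an.Siz.Few
import Pool.Agent.Lib.MP_7f333f_an.Siz.Levs
import Pool.Agent.Lib.MP_7f333f_an.Siz.Choice

set_option autoImplicit false

/-!
The choice of the word and of the set: assembly.
-/

namespace Pool.Agent.Comb7f333f.SPart

open Filter Topology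

namespace WordsAux

theorem ep_pos {C B₁ : ℝ} (hC : 1 ≤ C) (hB : 1 ≤ B₁) : 0 < ep C B₁ := by
  unfold ep
  positivity

theorem dl_pos {C B₁ : ℝ} (hC : 1 ≤ C) (hB : 1 ≤ B₁) : 0 < dl C B₁ := by
  unfold dl
  positivity

theorem c0_pos {B₁ : ℝ} (hB : 1 ≤ B₁) : 0 < c0 B₁ := by
  unfold c0
  positivity

theorem e0_pos {C B₁ : ℝ} (hC : 1 ≤ C) (hB : 1 ≤ B₁) : 0 < e0 C B₁ := by
  unfold e0
  positivity

open scoped Classical in
/-- Exchange of the sums for one level. -/
theorem level_sum {sf : Siz} {Z : ℕ} {C B₁ : ℝ} {J : Type} [Fintype J] (L : Lev sf Z C B₁ J)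
    (hC : 1 ≤ C) (hB : 1 ≤ B₁) (K₁ : ℕ) (P : J → Finset ℕ → Prop)
    [∀ j A, Decidable (P j A)] (R : ℕ)
    (hR : ∀ A' ∈ sets sf Z, ∀ T : Finset J, (∀ j ∈ T, ∃ A ∈ sets sf Z, P j A ∧
      L.good K₁ j A A') → T.card ≤ R) :
    ∑ j, ∑ A ∈ sets sf Z, (if P j A then ∑ A' ∈ (sets sf Z).filter (L.good K₁ j A), L.kp j A A'
      else 0) ≤ R := by
  have h1 : ∀ j, ∀ A ∈ sets sf Z,
      (if P j A then ∑ A' ∈ (sets sf Z).filter (L.good K₁ j A), L.kp j A A' else 0) =
      ∑ A' ∈ sets sf Z, if P j A ∧ L.good K₁ j A A' then L.kp j A A' else 0 := by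
    intro j A _
    by_cases hP : P j A
    · rw [if_pos hP, Finset.sum_filter]
      refine Finset.sum_congr rfl fun A' _ => ?_
      by_cases hg : L.good K₁ j A A'
      · rw [if_pos hg, if_pos ⟨hP, hg⟩]
      · rw [if_neg hg, if_neg fun h => hg h.2]
    · rw [if_neg hP]
      symm
      refine Finset.sum_eq_zero fun A' _ => ?_
      rw [if_neg fun h => hP h.1]
  have h2 : ∑ j, ∑ A ∈ sets sf Z, (if P j A then
      ∑ A' ∈ (sets sf Z).filter (L.good K₁ j A), L.kp j A A' else 0) =
      ∑ A' ∈ sets sf Z, ∑ j, ∑ A ∈ sets sf Z,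
        if P j A ∧ L.good K₁ j A A' then L.kp j A A' else 0 := by
    rw [Finset.sum_comm' (s := sets sf Z) (t := fun _ => Finset.univ) (t' := Finset.univ)
      (s' := fun _ => sets sf Z) (by simp)]
    refine Finset.sum_congr rfl fun j _ => ?_
    rw [Finset.sum_congr rfl (h1 j), Finset.sum_comm]
  rw [h2]
  have h3 : ∀ A' ∈ sets sf Z, ∑ j, ∑ A ∈ sets sf Z,
      (if P j A ∧ L.good K₁ j A A' then L.kp j A A' else 0) ≤ R * L.gam A' := by
    intro A' hA'
    have h4 : ∀ j, ∑ A ∈ sets sf Z,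
        (if P j A ∧ L.good K₁ j A A' then L.kp j A A' else 0) ≤
        if (∃ A ∈ sets sf Z, P j A ∧ L.good K₁ j A A') then L.gam A' else 0 := by
      intro j
      by_cases hj : ∃ A ∈ sets sf Z, P j A ∧ L.good K₁ j A A'
      · rw [if_pos hj]
        refine le_trans (Finset.sum_le_sum fun A _ => ?_) (L.sum_kp_j_le hC hB j A' hA')
        by_cases h : P j A ∧ L.good K₁ j A A'
        · rw [if_pos h]
        · rw [if_neg h]
          exact L.kp_nonneg hC hB j A A'
      · rw [if_neg hj]
        refine le_of_eq (Finset.sum_eq_zero fun A hA => ?_)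
        rw [if_neg]
        rintro ⟨h, h'⟩
        exact hj ⟨A, hA, h, h'⟩
    refine (Finset.sum_le_sum fun j _ => h4 j).trans ?_
    rw [← Finset.sum_filter, Finset.sum_const, nsmul_eq_mul]
    refine mul_le_mul_of_nonneg_right ?_ (L.gam_nonneg A')
    exact_mod_cast hR A' hA' _ fun j hj => (Finset.mem_filter.1 hj).2
  refine (Finset.sum_le_sum h3).trans ?_
  rw [← Finset.mul_sum, L.gam_sum, mul_one]

end WordsAux

open WordsAux

section Data

variable {sf : Siz} {C B₁ D B₂ Λ : ℝ} {r M : ℕ}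

/-- Uses everything before. -/
theorem exists_choice (d : CoreData sf C B₁ D B₂ Λ r M) (hC : 1 ≤ C) (hB : 1 ≤ B₁)
    (hM : 1 ≤ M) (K₁ K K2 : ℕ) (hK₁ : 16 / (dl C B₁ * ep C B₁ ^ 2) ≤ (K₁ : ℝ)) (hK : 1 ≤ K)
    (hK2 : 3 * D ^ 2 / c0 B₁ ^ 2 < K2) (hΛ1 : (K₁ * K2 ^ 2 * K : ℝ) ≤ Λ)
    (hΛ2 : (K * K₁ : ℝ) ≤ Λ) (hΛ3 : 1 / e0 C B₁ ≤ Λ) (m : ℕ) (hr : 1 ≤ r)
    (hm : 8 * (m : ℝ) ≤ dl C B₁ * r)
    (hMbig : 32 * (r : ℝ) ^ 2 * K2 ≤ dl C B₁ ^ 2 * M) :
    ∃ ω, ∃ A ∈ sets sf d.Z, ∃ L₀ : Finset (Fin r), m ≤ L₀.card ∧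
      ∀ k ∈ L₀, ∀ l ∈ L₀, k < l →
        deepAt sf (fun j : Fin M × Fin (d.N l) => d.v (Function.update ω l j) l)
          (ep C B₁ * c0 B₁) K (d.f k) (mn A) := by
  classical
  have he0 := e0_pos hC hB
  have hdl := dl_pos hC hB
  have hc0 := c0_pos hB
  have hep := ep_pos hC hB
  have hΛ : 0 < Λ := lt_of_lt_of_le (by positivity) hΛ3
  have hK2p : 1 ≤ K2 := by
    have : (0 : ℝ) < K2 := lt_of_le_of_lt (by positivity) hK2
    exact_mod_cast this
  have hK₁p : 1 ≤ K₁ := by
    have : (0 : ℝ) < K₁ := lt_of_lt_of_le (by positivity) hK₁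
    exact_mod_cast this
  have hNf : ∀ k l : Fin r, k ≤ l → Λ * d.f k ≤ (d.N l : ℝ) := by
    intro k l hkl
    have h1 : (d.f k : ℝ) ≤ d.f l := by exact_mod_cast d.f_mono hkl
    exact (mul_le_mul_of_nonneg_left h1 hΛ.le).trans (d.hn l)
  have hfp : ∀ k : Fin r, (1 : ℝ) ≤ d.f k := fun k => by exact_mod_cast d.f_pos k
  have hN1 : ∀ l : Fin r, 1 ≤ d.N l := by
    intro l
    have h1 := hNf l l le_rfl
    have h2 : (0 : ℝ) < d.N l := lt_of_lt_of_le (mul_pos hΛ (by linarith [hfp l])) h1
    exact_mod_cast h2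
  have hΩ : Nonempty ((l : Fin r) → Fin M × Fin (d.N l)) :=
    ⟨fun l => (⟨0, hM⟩, ⟨0, hN1 l⟩)⟩
  obtain ⟨lam, L, hlam, hv, hLu⟩ := exists_levs d hΛ hM hB
  have hself : ∀ ω l, (L ω l).lam (ω l) = lam ω := by
    intro ω l
    rw [hlam, Function.update_eq_self]
  have hvself : ∀ ω l, (L ω l).v (ω l) = d.v ω l := by
    intro ω l
    rw [hv, Function.update_eq_self]
  let l0 : Fin r := ⟨0, hr⟩
  let G : ((l : Fin r) → Fin M × Fin (d.N l)) → Fin r → Finset ℕ → ℝ := fun ω l A =>
    ∑ A' ∈ (sets sf d.Z).filter ((L ω l).good K₁ (ω l) A), (L ω l).kp (ω l) A A'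
  obtain ⟨bad, hbd⟩ : ∃ bad : ((l : Fin r) → Fin M × Fin (d.N l)) → Finset ℕ → Fin r → Fin r →
      Prop, ∀ ω A k l, bad ω A k l ↔
        ¬ deepAt sf (fun j : Fin M × Fin (d.N l) => d.v (Function.update ω l j) l)
          (ep C B₁ * c0 B₁) K (d.f k) (mn A) := ⟨_, fun _ _ _ _ => Iff.rfl⟩
  have hMr : (1 : ℝ) ≤ M := by exact_mod_cast hM
  have key := choice_average (sets sf d.Z) r lam
    (fun ω A => by rw [← hself ω l0]; exact (L ω l0).lam_nonneg _ _)
    (fun ω => by rw [← hself ω l0]; exact (L ω l0).lam_sum _)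
    G ?_ bad (dl C B₁ / 2) (by positivity) m hr (by linarith) ((K2 : ℝ) / M) ?_ ?_ ?_ hΩ
  · obtain ⟨ω, A, hA, L₀, h1, -, h2⟩ := key
    refine ⟨ω, A, hA, L₀, h1, fun k hk l hl hkl => ?_⟩
    exact not_not.1 fun h => h2 k hk l hl hkl ((hbd _ _ _ _).2 h)
  · -- bounds for the mass
    intro ω l A hA
    constructor
    · exact Finset.sum_nonneg fun A' _ => (L ω l).kp_nonneg hC hB _ _ _
    · rw [← hself ω l]
      refine le_trans ?_ ((L ω l).sum_kp_r_le hC hB (ω l) A hA)
      exact Finset.sum_le_sum_of_subset_of_nonneg (Finset.filter_subset _ _)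
        fun A' _ _ => (L ω l).kp_nonneg hC hB _ _ _
  · -- the size of M
    have h1 : 8 * (r : ℝ) ^ 2 * (K2 / M) = (8 * (r : ℝ) ^ 2 * K2) / M := by ring
    rw [h1, div_le_iff₀ (by linarith)]
    nlinarith
  · -- the mass of the good pairs
    intro l
    have hJ : (0 : ℝ) < Fintype.card (Fin M × Fin (d.N l)) := by
      rw [Fintype.card_prod, Fintype.card_fin, Fintype.card_fin]
      have := hN1 l
      positivity
    let F : ((l : Fin r) → Fin M × Fin (d.N l)) → Fin M × Fin (d.N l) → ℝ := fun ω j =>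
      ∑ A ∈ sets sf d.Z, ∑ A' ∈ (sets sf d.Z).filter ((L ω l).good K₁ j A), (L ω l).kp j A A'
    have hF : ∀ ω j j', F (Function.update ω l j') j = F ω j := by
      intro ω j j'
      simp only [F]
      rw [hLu]
    have h1 := sum_letter l F hF
    have h2 : ∑ ω : ((l : Fin r) → Fin M × Fin (d.N l)), ∑ j, F ω j ≥
        ∑ _ω : ((l : Fin r) → Fin M × Fin (d.N l)),
          dl C B₁ / 2 * Fintype.card (Fin M × Fin (d.N l)) :=
      Finset.sum_le_sum fun ω _ => (L ω l).good_mass hC hB K₁ hK₁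
    rw [h1, Finset.sum_const, Finset.card_univ, nsmul_eq_mul] at h2
    have h3 : ∑ ω, F ω (ω l) = ∑ ω, ∑ A ∈ sets sf d.Z, G ω l A := rfl
    rw [h3] at h2
    have h4 : Fintype.card (Fin M × Fin (d.N l)) * (dl C B₁ / 2 *
        (Fintype.card ((l : Fin r) → Fin M × Fin (d.N l)) : ℝ)) ≤
        Fintype.card (Fin M × Fin (d.N l)) * ∑ ω, ∑ A ∈ sets sf d.Z, G ω l A := by
      refine le_trans (le_of_eq ?_) h2
      ring
    exact le_of_mul_le_mul_left h4 hJ
  · -- few bad pairs
    intro k l hkl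
    have hJ : (0 : ℝ) < Fintype.card (Fin M × Fin (d.N l)) := by
      rw [Fintype.card_prod, Fintype.card_fin, Fintype.card_fin]
      have := hN1 l
      positivity
    let F : ((l : Fin r) → Fin M × Fin (d.N l)) → Fin M × Fin (d.N l) → ℝ := fun ω j =>
      ∑ A ∈ sets sf d.Z, if 0 < G (Function.update ω l j) k A ∧
        bad (Function.update ω l j) A k l then G (Function.update ω l j) l A else 0
    have hF : ∀ ω j j', F (Function.update ω l j') j = F ω j := by
      intro ω j j'
      simp only [F, Function.update_idem]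
    have h1 := sum_letter l F hF
    have h3 : ∑ ω, F ω (ω l) = ∑ ω, ∑ A ∈ sets sf d.Z,
        (if 0 < G ω k A ∧ bad ω A k l then G ω l A else 0) := by
      simp only [F, Function.update_eq_self]
    have h2 : ∀ ω, ∑ j, F ω j ≤ 2 * K2 * d.N l := by
      intro ω
      have h4 : ∀ j, F ω j = ∑ A ∈ sets sf d.Z, if 0 < G (Function.update ω l j) k A ∧
          bad (Function.update ω l j) A k l then
            ∑ A' ∈ (sets sf d.Z).filter ((L ω l).good K₁ j A), (L ω l).kp j A A' else 0 := by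
        intro j
        simp only [F, G]
        rw [hLu, Function.update_self]
      rw [Finset.sum_congr rfl fun j _ => h4 j]
      have h5 := level_sum (L ω l) hC hB K₁ (fun j A => 0 < G (Function.update ω l j) k A ∧
          bad (Function.update ω l j) A k l) (2 * K2 * d.N l) ?_
      · refine h5.trans (le_of_eq ?_)
        push_cast
        ring
      · intro A' hA' Tb hTb
        set t : ℕ := (L ω l).tq K₁ A' with ht
        set T2 : ℕ := TH sf K2 (d.f k * K) t with hT2
        let va : Fin M → ℕ → ℝ := fun a => d.v (Function.update ω l (a, (ω l).2)) k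
        have hva := fun τ => few_captured sf D (c0 B₁) hc0 K2 hK2 va
          (fun θ hθ => d.h4 ω k l hkl θ hθ) τ
        have hsub : Tb ⊆
            ((Finset.univ.filter (fun a => capt sf K2 (c0 B₁) (va a) t)) ∪
              (Finset.univ.filter (fun a => capt sf K2 (c0 B₁) (va a) T2))) ×ˢ Finset.univ := by
          intro j hj
          obtain ⟨A, hA, ⟨hG0, hbad⟩, hgood⟩ := hTb j hj
          obtain ⟨a, ν⟩ := j
          -- window
          have hfl : (d.f k : ℝ) ≤ e0 C B₁ * d.N l := by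
            have h6 := hNf k l hkl.le
            have h7 : 1 / e0 C B₁ * d.f k ≤ Λ * d.f k :=
              mul_le_mul_of_nonneg_right hΛ3 (by linarith [hfp k])
            have h8 : 1 / e0 C B₁ * d.f k ≤ d.N l := h7.trans h6
            rw [one_div, inv_mul_le_iff₀ he0] at h8
            exact h8
          have hfl2 : d.f k * K * K₁ ≤ d.N l := by
            have h6 := hNf k l hkl.le
            have h7 : (K * K₁ : ℝ) * d.f k ≤ Λ * d.f k :=
              mul_le_mul_of_nonneg_right hΛ2 (by linarith [hfp k])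
            have h8 : ((d.f k * K * K₁ : ℕ) : ℝ) ≤ d.N l := by
              push_cast
              linarith
            exact_mod_cast h8
          have hdw := (L ω l).deep_or_window hC hB K₁ K (d.f k) hK (d.f_pos k) hfl hfl2
            (a, ν) A A' hA hA' hgood
          have hw : t ≤ mn A ∧ sf.f (mn A) < d.f k * K * sf.f t := by
            rcases hdw with h | h
            · exfalso
              apply (hbd _ _ _ _).1 hbad
              have h9 : (fun j : Fin M × Fin (d.N l) =>
                  d.v (Function.update (Function.update ω l (a, ν)) l j) l) = (L ω l).v := by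
                funext j
                rw [Function.update_idem, hv]
              rw [h9]
              exact h
            · exact h
          -- a good pair at level k
          obtain ⟨A'', hA'', hpos⟩ : ∃ A'' ∈ (sets sf d.Z).filter
              ((L (Function.update ω l (a, ν)) k).good K₁
                (Function.update ω l (a, ν) k) A),
              0 < (L (Function.update ω l (a, ν)) k).kp (Function.update ω l (a, ν) k) A A'' := by
            by_contra hcon
            push Not at hcon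
            exact absurd hG0 (not_lt.2 (Finset.sum_nonpos hcon))
          rw [Finset.mem_filter] at hA''
          have hJk : K₁ * K2 ^ 2 * (d.f k * K) ≤ Fintype.card (Fin M × Fin (d.N k)) := by
            rw [Fintype.card_prod, Fintype.card_fin, Fintype.card_fin]
            have h6 := hNf k k le_rfl
            have h7 : (K₁ * K2 ^ 2 * K : ℝ) * d.f k ≤ Λ * d.f k :=
              mul_le_mul_of_nonneg_right hΛ1 (by linarith [hfp k])
            have h8 : ((K₁ * K2 ^ 2 * (d.f k * K) : ℕ) : ℝ) ≤ ((d.N k : ℕ) : ℝ) := by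
              push_cast
              linarith
            have h9 : K₁ * K2 ^ 2 * (d.f k * K) ≤ d.N k := by exact_mod_cast h8
            exact h9.trans (Nat.le_mul_of_pos_left _ hM)
          have hcap := (L (Function.update ω l (a, ν)) k).capture hC hB K₁ K2 (d.f k * K)
            (Nat.mul_pos (d.f_pos k) hK) hK2p hK₁p hJk (Function.update ω l (a, ν) k) A A''
            hA hA''.1 hA''.2 t hw.1 hw.2
          rw [hvself] at hcap
          have hva' : d.v (Function.update ω l (a, ν)) k = va a := d.h4' ω k l hkl a ν _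
          rw [hva'] at hcap
          rw [Finset.mem_product]
          refine ⟨?_, Finset.mem_univ _⟩
          rw [Finset.mem_union, Finset.mem_filter, Finset.mem_filter]
          rcases hcap with h | h
          · exact Or.inl ⟨Finset.mem_univ _, h⟩
          · exact Or.inr ⟨Finset.mem_univ _, h⟩
        refine (Finset.card_le_card hsub).trans ?_
        rw [Finset.card_product, Finset.card_univ, Fintype.card_fin]
        refine Nat.mul_le_mul_right _ ((Finset.card_union_le _ _).trans ?_)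
        have h6 := hva t
        have h7 := hva T2
        omega
    have h6 : ∑ ω : ((l : Fin r) → Fin M × Fin (d.N l)), ∑ j, F ω j ≤
        ∑ _ω : ((l : Fin r) → Fin M × Fin (d.N l)), 2 * K2 * (d.N l : ℝ) :=
      Finset.sum_le_sum fun ω _ => h2 ω
    rw [h1, Finset.sum_const, Finset.card_univ, nsmul_eq_mul, h3] at h6
    have h7 : (Fintype.card (Fin M × Fin (d.N l)) : ℝ) *
        (2 * (K2 / M) * Fintype.card ((l : Fin r) → Fin M × Fin (d.N l))) =
        Fintype.card ((l : Fin r) → Fin M × Fin (d.N l)) * (2 * K2 * (d.N l : ℝ)) := by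
      rw [Fintype.card_prod, Fintype.card_fin, Fintype.card_fin]
      push_cast
      have : (M : ℝ) ≠ 0 := by positivity
      field_simp
    rw [← h7] at h6
    exact le_of_mul_le_mul_left h6 hJ

end Data

end Pool.Agent.Comb7f333f.SPart
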